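import Pool.Agent.CTC.Defs
import Pool.Agent.KST.Q4

/-! # Row Q4C: the facets outside the caps suffice (hypotheses `WLP.HypB`) -/

set_option autoImplicit false

open scoped BigOperators RealInnerProductSpace

namespace Pool.Agent.CTC

noncomputable section

open Classical

open Pool.Agent.KST (E Fn supp Le IsCell Cells Verts Simple Pol pt PP Gen Star VF Low Sweep sgn EE X
  D FF Par Ker S hh LowF Inside Q4_cell Q4_mem Q4_pol Q4_neg Q4_sgn Q4_out Q4_seg Q4_face)

set_option linter.unusedSectionVars false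

variable {ι : Type} [Fintype ι] {d : ℕ}

section

variable {α β : Type} [Fintype α] [Fintype β] {a : α → E d} {g : β → E d}

private theorem Q4C_key (H : WLP.HypB a g) {i : α} (hi : ¬ ∃ t ∈ Cells (Sum.elim a g), t (Sum.inl i) = 1)
    {x y : E d} (hx : x ∈ Pol a) (hy : y ∈ Pol a) {σ : SignType} (hσ : σ ≠ 0)
    (hxi : ⟪a i, x⟫ = (σ : ℝ)) (hyi : ⟪a i, y⟫ = (σ : ℝ)) {j : β} {s : SignType}
    (h : 1 ≤ (s : ℝ) * ⟪g j, x⟫) : 1 < (s : ℝ) * ⟪g j, y⟫ := by
  by_contra hcon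
  rw [not_lt] at hcon
  -- a point with value exactly one
  obtain ⟨c, hc0, hc1, hc⟩ : ∃ c : ℝ, 0 ≤ c ∧ c ≤ 1 ∧
      (s : ℝ) * ⟪g j, x⟫ + c * ((s : ℝ) * ⟪g j, y⟫ - (s : ℝ) * ⟪g j, x⟫) = 1 := by
    rcases eq_or_lt_of_le h with h1 | h1
    · exact ⟨0, le_rfl, zero_le_one, by rw [← h1]; ring⟩
    · have h2 : 0 < (s : ℝ) * ⟪g j, x⟫ - (s : ℝ) * ⟪g j, y⟫ := by linarith
      refine ⟨((s : ℝ) * ⟪g j, x⟫ - 1) / ((s : ℝ) * ⟪g j, x⟫ - (s : ℝ) * ⟪g j, y⟫), ?_, ?_, ?_⟩
      · exact div_nonneg (by linarith) h2.le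
      · rw [div_le_one h2]; linarith
      · have h3 : ∀ p q : ℝ, 0 < p - q → p + (p - 1) / (p - q) * (q - p) = 1 := by
          intro p q h
          have h4 : (p - 1) / (p - q) * (q - p) = -(p - 1) := by
            rw [div_mul_eq_mul_div, div_eq_iff h.ne']
            ring
          rw [h4]
          ring
        exact h3 _ _ h2
  have hu := Q4_seg hx hy hc0 hc1
  have hui : ⟪a i, x + c • (y - x)⟫ = (σ : ℝ) := by
    rw [inner_add_right, inner_smul_right, inner_sub_right, hxi, hyi]; ring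
  have huj : (s : ℝ) * ⟪g j, x + c • (y - x)⟫ = 1 := by
    rw [inner_add_right, inner_smul_right, inner_sub_right, ← hc]; ring
  obtain ⟨k, t, ht0, ht⟩ := Q4_out hi hu hσ hui
  obtain ⟨h1, h2⟩ := H.disj _ hu j k s t huj.ge ht.le
  subst h1 h2
  rw [huj] at ht
  exact lt_irrefl _ ht

end

theorem pol_eqB {α β : Type} [Fintype α] [Fintype β] {a : α → E d} {g : β → E d}
    (H : WLP.HypB a g) (hb : Bornology.IsBounded (Pol a)) (hd : 2 ≤ d)
    (hin : ∀ (j : β) (s : SignType), s ≠ 0 → (Inside a g j s).card ≤ 1) (x : E d)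
    (hx : ∀ i, (∃ t ∈ Cells (Sum.elim a g), t (Sum.inl i) = 1) → |⟪a i, x⟫| ≤ 1) :
    x ∈ Pol a := by
  by_contra hxP
  obtain ⟨i1, hi1⟩ : ∃ i, 1 < |⟪a i, x⟫| := by
    by_contra hcon
    push Not at hcon
    exact hxP hcon
  let L : α → Prop := fun i => ∃ t ∈ Cells (Sum.elim a g), t (Sum.inl i) = 1
  let NL : Finset α := Finset.univ.filter (fun i => ¬ L i)
  have hmemNL : ∀ i, i ∈ NL ↔ ¬ L i := by
    intro i
    simp only [NL, Finset.mem_filter, Finset.mem_univ, true_and]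
  have hi1L : i1 ∈ NL := by
    rw [hmemNL]
    intro h
    exact absurd (hx i1 h) (not_le.mpr hi1)
  have hne : NL.Nonempty := ⟨i1, hi1L⟩
  let M : E d → ℝ := fun w => NL.sup' hne (fun i => |⟪a i, w⟫|)
  have hMle : ∀ w, ∀ i ∈ NL, |⟪a i, w⟫| ≤ M w := fun w i hi =>
    Finset.le_sup' (fun i => |⟪a i, w⟫|) hi
  have hMex : ∀ w, ∃ i ∈ NL, M w = |⟪a i, w⟫| := fun w =>
    Finset.exists_mem_eq_sup' hne (fun i => |⟪a i, w⟫|)
  -- normalisation
  have norm : ∀ w, 0 < M w → (∀ i, L i → |⟪a i, w⟫| < M w) →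
      (M w)⁻¹ • w ∈ Pol a ∧ (∀ i, L i → |⟪a i, (M w)⁻¹ • w⟫| < 1) ∧
        ∃ i ∈ NL, |⟪a i, (M w)⁻¹ • w⟫| = 1 := by
    intro w hM hL
    have hval : ∀ i, |⟪a i, (M w)⁻¹ • w⟫| = |⟪a i, w⟫| / M w := by
      intro i
      rw [inner_smul_right, abs_mul, abs_of_pos (inv_pos.mpr hM), div_eq_inv_mul]
    have hlt : ∀ i, L i → |⟪a i, (M w)⁻¹ • w⟫| < 1 := by
      intro i hi
      rw [hval, div_lt_one hM]
      exact hL i hi
    refine ⟨?_, hlt, ?_⟩
    · intro i
      by_cases hi : L i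
      · exact (hlt i hi).le
      · rw [hval, div_le_one hM]
        exact hMle w i ((hmemNL i).mpr hi)
    · obtain ⟨i, hi, hi'⟩ := hMex w
      exact ⟨i, hi, by rw [hval, ← hi', div_self hM.ne']⟩
  have hMx : 1 < M x := lt_of_lt_of_le hi1 (hMle x i1 hi1L)
  obtain ⟨hz, hzL, i0, hi0, hzi0⟩ := norm x (by linarith) (fun i hi => lt_of_le_of_lt (hx i hi) hMx)
  generalize (M x)⁻¹ • x = z at hz hzL hzi0
  -- a direction
  obtain ⟨u, hu0, hu⟩ : ∃ u : E d, u ≠ 0 ∧ ⟪a i0, u⟫ = 0 := by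
    by_contra hcon
    push Not at hcon
    have hinj : Function.Injective (innerSL ℝ (a i0) : E d →ₗ[ℝ] ℝ) := by
      rw [← LinearMap.ker_eq_bot, LinearMap.ker_eq_bot']
      intro m hm
      by_contra hm0
      exact hcon m hm0 hm
    have h1 := LinearMap.finrank_le_finrank_of_injective hinj
    rw [finrank_euclideanSpace_fin, Module.finrank_self] at h1
    omega
  -- small perturbations
  have hev : ∀ᶠ r in nhds (0 : ℝ), ∀ i, L i → |⟪a i, z + r • u⟫| < 1 := by
    rw [Filter.eventually_all]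
    intro i
    by_cases hi : L i
    · have hcont : Continuous (fun r : ℝ => |⟪a i, z + r • u⟫|) := by
        fun_prop
      have h1 : |⟪a i, z + (0 : ℝ) • u⟫| < 1 := by
        rw [zero_smul, add_zero]
        exact hzL i hi
      exact ((hcont.tendsto 0).eventually (gt_mem_nhds h1)).mono fun r hr _ => hr
    · exact Filter.Eventually.of_forall fun r h => absurd h hi
  rw [Metric.eventually_nhds_iff] at hev
  obtain ⟨ε, hε, hev⟩ := hev
  let t : ℕ → ℝ := fun n => ε / (n + 2)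
  have ht : ∀ n, ∀ i, L i → |⟪a i, z + t n • u⟫| < 1 := by
    intro n
    apply hev
    rw [dist_zero_right, Real.norm_eq_abs, abs_of_pos (by positivity)]
    exact div_lt_self hε (by have : (0 : ℝ) ≤ n := Nat.cast_nonneg n; linarith)
  have htinj : ∀ n m, t n = t m → n = m := by
    intro n m h
    simp only [t] at h
    have hn : (0 : ℝ) < n + 2 := by positivity
    have hm : (0 : ℝ) < m + 2 := by positivity
    rw [div_eq_div_iff hn.ne' hm.ne'] at h
    have h2 := mul_left_cancel₀ hε.ne' h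
    have h3 : (n : ℝ) = m := by linarith
    exact_mod_cast h3
  have hi0val : ∀ n, ⟪a i0, z + t n • u⟫ = ⟪a i0, z⟫ := by
    intro n
    rw [inner_add_right, inner_smul_right, hu, mul_zero, add_zero]
  have hM1 : ∀ n, 1 ≤ M (z + t n • u) := by
    intro n
    have := hMle (z + t n • u) i0 hi0
    rwa [hi0val, hzi0] at this
  have hy := fun n => norm (z + t n • u) (by linarith [hM1 n])
    (fun i hi => lt_of_lt_of_le (ht n i hi) (hM1 n))
  choose c hc using fun n => Q4_cell (hy n).1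
  obtain ⟨n, m, hnm, hcnm⟩ := Finite.exists_ne_map_eq_of_infinite c
  have hpq : (M (z + t n • u))⁻¹ • (z + t n • u) ≠ (M (z + t m • u))⁻¹ • (z + t m • u) := by
    intro h
    have h1 := congrArg (fun w => ⟪a i0, w⟫) h
    simp only [inner_smul_right, hi0val] at h1
    have hz0 : ⟪a i0, z⟫ ≠ 0 := by
      intro h0
      rw [h0, abs_zero] at hzi0
      exact zero_ne_one hzi0
    have h2 : (M (z + t n • u))⁻¹ = (M (z + t m • u))⁻¹ := mul_right_cancel₀ hz0 h1
    rw [h2] at h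
    have h3 : (M (z + t m • u))⁻¹ ≠ 0 := inv_ne_zero (by linarith [hM1 m])
    have h4 := smul_right_injective (E d) h3 h
    have h5 : t n • u = t m • u := add_left_cancel h4
    have h6 : (t n - t m) • u = 0 := by rw [sub_smul, h5, sub_self]
    rcases smul_eq_zero.mp h6 with h7 | h7
    · exact hnm (htinj n m (by linarith))
    · exact hu0 h7
  -- the cell of the two points
  obtain ⟨i, hiNL, hi⟩ := (hy n).2.2
  have hiL : ¬ L i := (hmemNL i).mp hiNL
  have hci : c n i ≠ 0 := by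
    intro h0
    have := (hc n i).1 h0
    rw [hi] at this
    exact lt_irrefl _ this
  have hpi := (hc n i).2 hci
  obtain ⟨k, s, hs0, hs⟩ := Q4_out hiL (hy n).1 hci hpi
  obtain ⟨c', w, hw, hcc', hwi⟩ := Q4_face hb (hc n) (by rw [hcnm]; exact hc m) hpq
  have hc'i : c' i = c n i := Q4_sgn hw hci (hwi i hci)
  have hin1 : c n ∈ Inside a g k s := by
    rw [Inside, Finset.mem_filter, Q4_mem]
    exact ⟨⟨_, hc n⟩, fun y hy' => Q4C_key H hiL (hy n).1 (Q4_pol hy') hci hpi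
      ((hy' i).2 hci) hs.le⟩
  have hin2 : c' ∈ Inside a g k s := by
    rw [Inside, Finset.mem_filter, Q4_mem]
    refine ⟨⟨_, hw⟩, fun y hy' => Q4C_key H hiL (hy n).1 (Q4_pol hy') hci hpi
      ?_ hs.le⟩
    rw [(hy' i).2 (by rw [hc'i]; exact hci), hc'i]
  have hcard : 1 < (Inside a g k s).card := Finset.one_lt_card.mpr ⟨_, hin2, _, hin1, hcc'⟩
  exact absurd (hin k s hs0) (not_le.mpr hcard)

end

end Pool.Agent.CTC
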