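import Pool.Agent.CTC.Defs
import Pool.Agent.WLP.DataN

/-! # Row BEQ: equality in Theorem B -/

set_option autoImplicit false

open scoped BigOperators RealInnerProductSpace

namespace Pool.Agent.CTC

noncomputable section

open Classical

open Pool.Agent.KST (E Cells Pol q5_span q5_zero)

/-- at most `d` sufficient constraints of a bounded polytope in dimension `d` -/
theorem BEQ_basis {α : Type} [Fintype α] {d : ℕ} {a : α → E d}
    (hb : Bornology.IsBounded (Pol a)) {L : Finset α} (hLd : L.card ≤ d)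
    (hL : Pol a = {x | ∀ i ∈ L, |⟪a i, x⟫| ≤ 1}) :
    L.card = d ∧ LinearIndependent ℝ (fun i : {i : α // i ∈ L} => a i.1) := by
  have hL' : ∀ x, (∀ i ∈ L, |⟪a i, x⟫| ≤ 1) → x ∈ Pol a := by
    intro x hx
    rw [hL]
    exact hx
  have hspan := q5_span L a (q5_zero hb hL')
  have hfin : Module.finrank ℝ (E d) = d := finrank_euclideanSpace_fin
  have hcard : Fintype.card {i : α // i ∈ L} = L.card := by simp
  have hge : d ≤ L.card := by
    have h1 := finrank_range_le_card (R := ℝ) (fun i : {i : α // i ∈ L} => a i.1)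
    rw [Set.finrank, top_le_iff.1 hspan, finrank_top, hfin, hcard] at h1
    exact h1
  have heqc : L.card = d := le_antisymm hLd hge
  refine ⟨heqc, ?_⟩
  apply linearIndependent_of_top_le_span_of_card_eq_finrank hspan
  rw [hcard, heqc, hfin]

theorem kalaiB_eq {α : Type} [Fintype α] {d : ℕ} (a : α → E d) (hd : 3 ≤ d)
    (hb : Bornology.IsBounded (Pol a))
    (hns : ∀ x ∈ Pol a, ¬ LinearIndependent ℝ (fun i : {i : α // |⟪a i, x⟫| = 1} => a i.1) →
      x ∈ Set.extremePoints ℝ (Pol a))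
    (hV : 2 ^ d ≤ (Set.extremePoints ℝ (Pol a)).ncard) (heq : (Cells a).card ≤ 3 ^ d) :
    ∃ L : Finset α, L.card = d ∧ LinearIndependent ℝ (fun i : {i : α // i ∈ L} => a i.1) ∧
      Pol a = {x | ∀ i ∈ L, |⟪a i, x⟫| ≤ 1} := by
  obtain ⟨e, rfl⟩ : ∃ e, d = e + 1 := ⟨d - 1, by omega⟩
  obtain ⟨L, hL, h1⟩ := WLP.kalaiBP (by omega) a hb hns
  have h2 : ((Cells a).card : ℤ) ≤ 3 ^ (e + 1) := by exact_mod_cast heq
  have h3 : (2 : ℤ) ^ (e + 1) ≤ ((Set.extremePoints ℝ (Pol a)).ncard : ℤ) := by exact_mod_cast hV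
  have h4 : (0 : ℤ) < 2 ^ e + 2 - 2 * 2 ^ (e / 2) := by
    have h5 : (2 : ℤ) ^ (e / 2 + 1) ≤ 2 ^ e := pow_le_pow_right₀ (by norm_num) (by omega)
    rw [pow_succ] at h5
    linarith
  have h5 : (0 : ℤ) ≤ 2 ^ (e / 2) * (((Set.extremePoints ℝ (Pol a)).ncard : ℤ) - 2 ^ (e + 1)) :=
    mul_nonneg (by positivity) (by linarith)
  have h6 : (2 ^ e + 2 - 2 * 2 ^ (e / 2)) * (2 * (L.card : ℤ) - 2 * ((e : ℤ) + 1)) ≤ 0 := by
    linarith
  have h7 : 2 * (L.card : ℤ) - 2 * ((e : ℤ) + 1) ≤ 0 := by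
    by_contra hcon
    push Not at hcon
    have := mul_pos h4 hcon
    linarith
  have h8 : L.card ≤ e + 1 := by
    have : (L.card : ℤ) ≤ e + 1 := by linarith
    exact_mod_cast this
  obtain ⟨h9, h10⟩ := BEQ_basis hb h8 hL
  exact ⟨L, h9, h10, hL⟩

end

end Pool.Agent.CTC
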