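import Pool.Agent.CTC.Defs

/-!
# Colourings by blocks
-/

set_option autoImplicit false

open scoped BigOperators RealInnerProductSpace

namespace Pool.Agent.CTC

noncomputable section

open Classical

open Pool.Agent.KST (E Fn supp Le IsCell Cells Verts Simple Pol pt PP Gen Star VF Low Sweep sgn EE X
  D FF Par Ker S hh LowF Inside)

variable {d : ℕ}

/-- splitting a finite type into `N` blocks of size at most `n` -/
theorem BLK_blocks (β : Type) [Fintype β] (n N : ℕ) (hn : 1 ≤ n) (h : Fintype.card β ≤ n * N) :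
    ∃ col : β → Fin N, ∀ q, (Finset.univ.filter (fun j => col j = q)).card ≤ n := by
  let e := Fintype.equivFin β
  have hlt : ∀ j, (e j).val / n < N := by
    intro j
    refine Nat.div_lt_of_lt_mul (lt_of_lt_of_le (e j).isLt h)
  refine ⟨fun j => ⟨(e j).val / n, hlt j⟩, fun q => ?_⟩
  have h1 : (Finset.univ.filter (fun j => (⟨(e j).val / n, hlt j⟩ : Fin N) = q)).card ≤
      (Finset.range n).card := by
    refine Finset.card_le_card_of_injOn (fun j => (e j).val % n) ?_ ?_
    · intro j _
      rw [Finset.coe_range]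
      exact Nat.mod_lt _ (by omega)
    · intro i hi j hj hij
      have hi' := (Finset.mem_filter.1 (Finset.mem_coe.1 hi)).2
      have hj' := (Finset.mem_filter.1 (Finset.mem_coe.1 hj)).2
      have h2 : (e i).val / n = (e j).val / n := by
        have := congrArg Fin.val (hi'.trans hj'.symm)
        exact this
      have h3 : (e i).val % n = (e j).val % n := hij
      have h4 : (e i).val = (e j).val := by
        rw [← Nat.div_add_mod (e i).val n, ← Nat.div_add_mod (e j).val n, h2, h3]
      exact e.injective (Fin.ext h4)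
  rwa [Finset.card_range] at h1

/-- a signed facet meets at most one of the caps `(j, +)`, `(j, -)` -/
theorem BLK_one {α β : Type} [Fintype α] [Fintype β] {a : α → E d} {g : β → E d}
    (H : WLP.HypB a g) (p : α × SignType) (j : β) (h1 : MeetG a g p (j, 1))
    (h2 : MeetG a g p (j, -1)) : False := by
  obtain ⟨h0, x, hx, hax, hgx⟩ := h1
  obtain ⟨_, y, hy, hay, hgy⟩ := h2
  have hy' : -y ∈ Pol a := by
    intro l
    rw [inner_neg_right, abs_neg]
    exact hy l
  have e1 : (1 : ℝ) ≤ ⟪g j, x⟫ := by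
    simpa using hgx
  have e2 : (1 : ℝ) ≤ ⟪g j, -y⟫ := by
    rw [inner_neg_right]
    simpa using hgy
  have habs : |((p.2 : SignType) : ℝ)| = 1 := by
    rcases hp : p.2 with _ | _ | _
    · exact absurd hp h0
    · simp
    · simp
  have h3 := H.opp j x hx (-y) hy' e1 e2 p.1 (by rw [hax]; exact habs)
    (by rw [inner_neg_right, abs_neg, hay]; exact habs)
  rw [inner_neg_right, hax, hay] at h3
  have h4 : ((p.2 : SignType) : ℝ) = 0 := by linarith
  rw [h4, abs_zero] at habs
  exact zero_ne_one habs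

theorem BLK_few {α β : Type} [Fintype α] [Fintype β] {a : α → E d} {g : β → E d}
    (H : WLP.HypB a g) (T : Finset β) (n : ℕ) (hT : T.card ≤ n) : FewG a g T n := by
  intro p
  refine le_trans (Finset.card_le_card_of_injOn (fun q => q.1) ?_ ?_) hT
  · intro q hq
    exact (Finset.mem_filter.1 (Finset.mem_coe.1 hq)).2.1
  · rintro ⟨i, s⟩ hq ⟨j, t⟩ hr hij
    have hq' := (Finset.mem_filter.1 (Finset.mem_coe.1 hq)).2
    have hr' := (Finset.mem_filter.1 (Finset.mem_coe.1 hr)).2
    have hij' : i = j := hij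
    subst hij'
    have hs := hq'.2.1
    have ht := hr'.2.1
    have hms := hq'.2.2
    have hmt := hr'.2.2
    rcases s with _ | _ | _
    · exact absurd rfl hs
    · rcases t with _ | _ | _
      · exact absurd rfl ht
      · rfl
      · exact (BLK_one H p i hmt hms).elim
    · rcases t with _ | _ | _
      · exact absurd rfl ht
      · exact (BLK_one H p i hms hmt).elim
      · rfl

theorem BLK_col {α β : Type} [Fintype α] [Fintype β] {a : α → E d} {g : β → E d}
    (H : WLP.HypB a g) (n N : ℕ) (hn : 1 ≤ n) (h : Fintype.card β ≤ n * N) :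
    ∃ col : β → Fin N, ∀ q, FewG a g (Finset.univ.filter (fun j => col j = q)) n := by
  obtain ⟨col, hcol⟩ := BLK_blocks β n N hn h
  exact ⟨col, fun q => BLK_few H _ n (hcol q)⟩

theorem BLK_pow (k : ℕ) : 3 * k + 2 ≤ 2 * 4 ^ k := by
  induction k with
  | zero => norm_num
  | succ k ih =>
    rw [pow_succ]
    omega

theorem BLK_pow2 (k : ℕ) : 5 * k + 4 ≤ 4 * 4 ^ k := by
  induction k with
  | zero => norm_num
  | succ k ih =>
    rw [pow_succ]
    omega

theorem BLK_ari (n : ℕ) (hn : 1 ≤ n) (h2 : 2 * n < d) :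
    (if Odd d then 3 else 5) * ((d - 1) / 2) ≤ n * (1 + 2 ^ (d - 2 * n)) := by
  split_ifs with hd
  · obtain ⟨m, rfl⟩ := hd
    obtain ⟨k, rfl⟩ : ∃ k, m = n + k := ⟨m - n, by omega⟩
    have e1 : (2 * (n + k) + 1 - 1) / 2 = n + k := by omega
    have e2 : 2 * (n + k) + 1 - 2 * n = 2 * k + 1 := by omega
    rw [e1, e2, pow_succ, pow_mul]
    have h3 := BLK_pow k
    norm_num at h3 ⊢
    nlinarith [Nat.mul_le_mul hn h3]
  · have hev : Even d := Nat.not_odd_iff_even.1 hd
    obtain ⟨m, rfl⟩ := hev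
    obtain ⟨k, rfl⟩ : ∃ k, m = n + k + 1 := ⟨m - n - 1, by omega⟩
    have e1 : (n + k + 1 + (n + k + 1) - 1) / 2 = n + k := by omega
    have e2 : n + k + 1 + (n + k + 1) - 2 * n = 2 * k + 2 := by omega
    rw [e1, e2, pow_add, pow_mul]
    have h3 := BLK_pow2 k
    norm_num at h3 ⊢
    nlinarith [Nat.mul_le_mul hn h3]

theorem colG_of_card {α β : Type} [Fintype α] [Fintype β] {a : α → E d} {g : β → E d}
    (H : WLP.HypB a g)
    (hr : Fintype.card β ≤ (if Odd d then 3 else 5) * ((d - 1) / 2)) : ColG a g := by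
  intro n hn h2
  exact BLK_col H n _ hn (hr.trans (BLK_ari n hn h2))

theorem BLK_pow3 (k : ℕ) : 5 * (k + 5) ≤ 2 ^ (k + 5) := by
  induction k with
  | zero => norm_num
  | succ k ih =>
    have : 2 ^ (k + 1 + 5) = 2 * 2 ^ (k + 5) := by ring
    rw [this]
    omega

theorem col1G_of_card {α β : Type} [Fintype α] [Fintype β] {a : α → E d} {g : β → E d}
    (H : WLP.HypB a g) (hd : 5 ≤ d)
    (hr : Fintype.card β ≤ (if Odd d then 3 else 5) * ((d - 1) / 2)) : Col1G a g := by
  intro _
  refine BLK_col H 1 _ le_rfl (hr.trans ?_)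
  rw [one_mul]
  by_cases h5 : d = 5
  · subst h5
    rw [if_pos (by decide)]
    norm_num
  · obtain ⟨k, rfl⟩ : ∃ k, d = k + 6 := ⟨d - 6, by omega⟩
    have h3 := BLK_pow3 k
    have e1 : k + 6 - 2 = k + 4 := by omega
    have e2 : 2 ^ (k + 5) = 2 * 2 ^ (k + 4) := by ring
    rw [e1]
    rw [e2] at h3
    have h4 : (k + 6 - 1) / 2 * 2 ≤ k + 5 := by omega
    split_ifs <;> omega

end

end Pool.Agent.CTC
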