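import Pool.Agent.WLP.Defs2

/-!
# Centrally symmetric polytopes with few non-simple vertices: definitions
-/

set_option autoImplicit false

open scoped BigOperators RealInnerProductSpace

namespace Pool.Agent.CTC

noncomputable section

open Classical

open Pool.Agent.KST (E Fn supp Le IsCell Cells Verts Simple Pol pt PP Gen Star VF Low Sweep sgn EE X
  D FF Par Ker S hh LowF Inside)

variable {ι : Type} [Fintype ι] {d : ℕ}

/-- the closed star of the signed facet `a` -/
def StarS (b : ι → E d) (a : ι × SignType) : Finset (ι → SignType) :=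
  (Cells b).filter (fun s => ∃ t ∈ Cells b, Le s t ∧ t a.1 = a.2)

/-- the signed facet `p` meets the signed facet `a` -/
def Meet (b : ι → E d) (p a : ι × SignType) : Prop :=
  p.2 ≠ 0 ∧ ∃ t ∈ Cells b, t p.1 = p.2 ∧ t a.1 = a.2

/-- every signed facet meets at most `n` of the signed facets `(j, +)`, `(j, -)`, `j ∈ T` -/
def Few (b : ι → E d) (T : Finset ι) (n : ℕ) : Prop :=
  ∀ p : ι × SignType, (Finset.univ.filter (fun a : ι × SignType =>
    a.1 ∈ T ∧ a.2 ≠ 0 ∧ Meet b p a)).card ≤ n

/-- any `d` of the vectors are independent -/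
def GenC (c : ι → E d) : Prop :=
  ∀ T : Finset ι, T.card ≤ d → LinearIndependent ℝ (fun l : {l : ι // l ∈ T} => c l.1)

/-- the conditions on the cut facets: disjoint, no cut facet meets two opposite facets, two
different ones meet at most `d` common facets -/
structure SepC (b : ι → E d) (J : Finset ι) : Prop extends WLP.SepB b J where
  common : ∀ a a' : ι × SignType, a.1 ∈ J → a'.1 ∈ J → a.2 ≠ 0 → a'.2 ≠ 0 → a ≠ a' →
    (Finset.univ.filter (fun p : ι × SignType => Meet b p a ∧ Meet b p a')).card ≤ d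

/-- reflection -/
def ng (f : Fn ι) : Fn ι := fun e => f (-e)

/-- the integer vector of a sign vector -/
def zv (s : ι → SignType) : ι → ℤ := fun l => ((s l : SignType) : ℤ)

/-- the unit vector of a signed label -/
def uv (a : ι × SignType) : ι → ℤ := fun l => if l = a.1 then ((a.2 : SignType) : ℤ) else 0

/-- one-sided shifts -/
def Xe (e : ι → ℤ) : Fn ι →ₗ[ℝ] Fn ι where
  toFun f e' := if ∀ l, 0 ≤ e l * e' l then f (e + e') else 0
  map_add' f g := by
    funext e'
    simp only [Pi.add_apply]
    split_ifs <;> ring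
  map_smul' r f := by
    funext e'
    simp only [Pi.smul_apply, smul_eq_mul, RingHom.id_apply]
    split_ifs <;> ring

/-- `φ` is a top function -/
def Top (b c : ι → E d) (φ : Fn ι) : Prop :=
  φ ∈ FF (Cells b) d ⊓ Ker c ∧ ∀ v ∈ Verts b, φ (zv v) ≠ 0

/-- colouring condition for the cut facets -/
def Col (b : ι → E d) (J : Finset ι) : Prop :=
  ∀ n, 1 ≤ n → 2 * n < d → ∃ col : ι → Fin (1 + 2 ^ (d - 2 * n)),
    ∀ q, Few b (J.filter (fun j => col j = q)) n

/-- the signed facet `p` of `{x | ∀ i, |⟪a i, x⟫| ≤ 1}` meets the cap `q` -/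
def MeetG {α β : Type} [Fintype α] [Fintype β] (a : α → E d) (g : β → E d)
    (p : α × SignType) (q : β × SignType) : Prop :=
  p.2 ≠ 0 ∧ ∃ x ∈ Pol a, ⟪a p.1, x⟫ = ((p.2 : SignType) : ℝ) ∧
    1 ≤ ((q.2 : SignType) : ℝ) * ⟪g q.1, x⟫

/-- every signed facet meets at most `n` of the caps `(j, +)`, `(j, -)`, `j ∈ T` -/
def FewG {α β : Type} [Fintype α] [Fintype β] (a : α → E d) (g : β → E d) (T : Finset β)
    (n : ℕ) : Prop :=
  ∀ p : α × SignType, (Finset.univ.filter (fun q : β × SignType =>
    q.1 ∈ T ∧ q.2 ≠ 0 ∧ MeetG a g p q)).card ≤ n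

/-- hypotheses on the caps -/
structure HypC {α β : Type} [Fintype α] [Fintype β] (a : α → E d) (g : β → E d) : Prop
    extends WLP.HypB a g where
  common : ∀ q q' : β × SignType, q.2 ≠ 0 → q'.2 ≠ 0 → q ≠ q' →
    (Finset.univ.filter (fun p : α × SignType => MeetG a g p q ∧ MeetG a g p q')).card ≤ d

/-- colouring condition for the caps -/
def ColG {α β : Type} [Fintype α] [Fintype β] (a : α → E d) (g : β → E d) : Prop :=
  ∀ n, 1 ≤ n → 2 * n < d → ∃ col : β → Fin (1 + 2 ^ (d - 2 * n)),
    ∀ q, FewG a g (Finset.univ.filter (fun j => col j = q)) n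

/-- strict colouring condition in degree one -/
def Col1 (b : ι → E d) (J : Finset ι) : Prop :=
  2 < d → ∃ col : ι → Fin (2 ^ (d - 2)), ∀ q, Few b (J.filter (fun j => col j = q)) 1

/-- strict colouring condition in degree one, for the caps -/
def Col1G {α β : Type} [Fintype α] [Fintype β] (a : α → E d) (g : β → E d) : Prop :=
  2 < d → ∃ col : β → Fin (2 ^ (d - 2)),
    ∀ q, FewG a g (Finset.univ.filter (fun j => col j = q)) 1

end

end Pool.Agent.CTC
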