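import Pool.Agent.CTC.Defs
import Pool.Agent.KST.A5
import Pool.Agent.KST.G1b
import Pool.Agent.KST.G2
import Pool.Agent.KST.G3

/-! # ROW TOP: the top function -/

set_option autoImplicit false

open scoped BigOperators RealInnerProductSpace Topology

namespace Pool.Agent.CTC

noncomputable section

open Classical

open Pool.Agent.KST (E Fn supp Le IsCell Cells Verts Simple Pol pt PP Gen Star VF Low Sweep sgn EE X
  D FF Par Ker S hh LowF Inside)

variable {ι : Type} [Fintype ι] {d : ℕ}

private theorem A4_D_apply (b : ι → E d) (y : E d) (f : Fn ι) (e : ι → ℤ) :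
    D b y f e = ∑ l, ⟪b l, y⟫ * X l f e := by
  simp only [D, LinearMap.sum_apply, LinearMap.smul_apply, Finset.sum_apply, Pi.smul_apply,
    smul_eq_mul]

omit [Fintype ι] in
private theorem A4_X_apply (l : ι) (f : Fn ι) (e : ι → ℤ) :
    X l f e = (if 0 ≤ e l then f (Function.update e l (e l + 1)) else 0) -
      (if e l ≤ 0 then f (Function.update e l (e l - 1)) else 0) := rfl

private theorem A4_dual {κ : Type} {u : κ → E d} (hu : LinearIndependent ℝ u) (c : κ → ℝ) :
    ∃ y : E d, ∀ k, ⟪u k, y⟫ = c k := by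
  let φ0 : Submodule.span ℝ (Set.range u) →ₗ[ℝ] ℝ :=
    (Finsupp.linearCombination ℝ c).comp hu.repr
  obtain ⟨φ, hφ⟩ := LinearMap.exists_extend φ0
  refine ⟨(InnerProductSpace.toDual ℝ (E d)).symm (LinearMap.toContinuousLinearMap φ), ?_⟩
  intro k
  rw [real_inner_comm, InnerProductSpace.toDual_symm_apply]
  show φ (u k) = c k
  have h1 : φ0 ⟨u k, Submodule.subset_span ⟨k, rfl⟩⟩ = φ (u k) := by
    rw [← hφ]; rfl
  rw [← h1]
  show (Finsupp.linearCombination ℝ c) (hu.repr ⟨u k, _⟩) = c k
  rw [hu.repr_eq_single k _ rfl, Finsupp.linearCombination_single, one_smul]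

omit [Fintype ι] in
private theorem A4_sgn_apply (e : ι → ℤ) (l : ι) : sgn e l = SignType.sign (e l) := rfl

private theorem A4_sgn_ne (e : ι → ℤ) (l : ι) : sgn e l ≠ 0 ↔ e l ≠ 0 := by
  rw [A4_sgn_apply, Ne, sign_eq_zero_iff]

private theorem A4_le_update (e : ι → ℤ) (l : ι) (hl : e l = 0) (z : ℤ) :
    Le (sgn e) (sgn (Function.update e l z)) := by
  intro k hk
  have hkl : k ≠ l := by
    rintro rfl
    exact (A4_sgn_ne e k).1 hk hl
  rw [A4_sgn_apply, A4_sgn_apply, Function.update_of_ne hkl]

/-- The key step. -/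
private theorem A4_key {b : ι → E d} {C V : Finset (ι → SignType)}
    {P : (ι → SignType) → Finset ι} {ht : (ι → SignType) → ℝ} (h : Sweep b C V P ht) (n : ℕ)
    (f : Fn ι) (hf : f ∈ FF C n) (hD : ∀ y, D b y f = 0)
    (hm : ∀ v ∈ V, (P v).card = n → f (fun l => if l ∈ P v then ((v l : SignType) : ℤ) else 0) = 0) :
    f = 0 := by
  by_contra hne
  obtain ⟨e₀, he₀⟩ : ∃ e, f e ≠ 0 := by
    by_contra hcon
    push Not at hcon
    exact hne (funext hcon)
  have hmem : ∀ e, f e ≠ 0 → e ∈ EE C n := by
    intro e he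
    by_contra hcon
    exact he (hf e hcon)
  have hEE : ∀ e, e ∈ EE C n → (∑ l, (e l).natAbs = n) ∧ sgn e ∈ C := by
    intro e he
    exact (Finset.mem_filter.1 he).2
  -- the pair of maximal height
  let T : Finset ((ι → ℤ) × (ι → SignType)) :=
    ((EE C n) ×ˢ V).filter (fun p => f p.1 ≠ 0 ∧ Low P p.2 (sgn p.1))
  have hTne : T.Nonempty := by
    obtain ⟨v, hv, hlow⟩ := h.ex _ (hEE _ (hmem _ he₀)).2
    exact ⟨(e₀, v), Finset.mem_filter.2 ⟨Finset.mk_mem_product (hmem _ he₀) hv, he₀, hlow⟩⟩
  obtain ⟨⟨e, v⟩, hp, hmax⟩ := T.exists_max_image (fun p => ht p.2) hTne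
  obtain ⟨hp1, hfe, hlow⟩ := Finset.mem_filter.1 hp
  obtain ⟨heE, hvV⟩ := Finset.mem_product.1 hp1
  simp only at hfe hlow heE hvV
  -- points above
  have habove : ∀ e' e'' : ι → ℤ, Low P v (sgn e') → Le (sgn e') (sgn e'') →
      ¬ Le (sgn e'') v → f e'' = 0 := by
    intro e' e'' h1 h2 h3
    by_contra hcon
    have h4 := (hEE _ (hmem _ hcon)).2
    obtain ⟨w, hw, hwl⟩ := h.ex _ h4
    have h5 := h.up _ _ h4 h2 v hvV h1 h3 w hw hwl
    have h6 := hmax (e'', w) (Finset.mem_filter.2
      ⟨Finset.mk_mem_product (hmem _ hcon) hw, hcon, hwl⟩)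
    simp only at h6
    linarith
  -- the coordinate to be lowered
  have hsign : ∀ l, e l ≠ 0 → v l = SignType.sign (e l) := fun l hl =>
    hlow.1 l ((A4_sgn_ne e l).2 hl)
  obtain ⟨l, hl0, hl1⟩ : ∃ l, e l ≠ 0 ∧ (l ∈ P v → 2 ≤ (e l).natAbs) := by
    by_contra hcon
    push Not at hcon
    have h1 : ∀ l, e l = if l ∈ P v then ((v l : SignType) : ℤ) else 0 := by
      intro l
      by_cases hl : e l = 0
      · have h2 : l ∉ P v := fun h3 => (A4_sgn_ne e l).1 (hlow.2 l h3) hl
        rw [hl, if_neg h2]
      · obtain ⟨h3, h4⟩ := hcon l hl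
        rw [if_pos h3, hsign l hl]
        have h5 : (e l).natAbs ≠ 0 := by rwa [Ne, Int.natAbs_eq_zero]
        have h6 : (e l).natAbs = 1 := by omega
        rcases Int.natAbs_eq (e l) with h7 | h7
        · rw [h7, h6]; rfl
        · rw [h7, h6]; rfl
    have h2 : e = fun l => if l ∈ P v then ((v l : SignType) : ℤ) else 0 := funext h1
    have h3 : (P v).card = n := by
      rw [← (hEE e heE).1]
      have h4 : ∀ l, (e l).natAbs = if l ∈ P v then 1 else 0 := by
        intro l
        by_cases hl : l ∈ P v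
        · have h5 : e l ≠ 0 := (A4_sgn_ne e l).1 (hlow.2 l hl)
          obtain ⟨_, h6⟩ := hcon l h5
          have h7 : (e l).natAbs ≠ 0 := by rwa [Ne, Int.natAbs_eq_zero]
          rw [if_pos hl]; omega
        · rw [h1 l, if_neg hl, if_neg hl]; rfl
      rw [Finset.sum_congr rfl (fun l _ => h4 l), Finset.sum_boole]
      simp
    have h4 := hm v hvV h3
    rw [← h2] at h4
    exact hfe h4
  have hvl : v l = SignType.sign (e l) := hsign l hl0
  -- the dual vector
  have hvl0 : v l ≠ 0 := by rw [hvl]; exact fun h1 => hl0 (sign_eq_zero_iff.1 h1)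
  obtain ⟨y, hy⟩ := A4_dual (h.ind v hvV)
    (fun k => if k.1 = l then ((v l : SignType) : ℝ) else 0)
  have hyl : ⟪b l, y⟫ = ((v l : SignType) : ℝ) := by
    have := hy ⟨l, hvl0⟩
    simpa using this
  have hyk : ∀ k, v k ≠ 0 → k ≠ l → ⟪b k, y⟫ = 0 := by
    intro k hk hkl
    have := hy ⟨k, hk⟩
    simpa [hkl] using this
  -- a uniform computation, by the sign of `e l`
  have hfin : ∀ e' : ι → ℤ, (∀ k, k ≠ l → e' k = e k) → Low P v (sgn e') →
      X l f e' = 0 := by
    intro e' hk' hlow'
    have h0 := congrFun (hD y) e'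
    rw [A4_D_apply] at h0
    rw [Finset.sum_eq_single l] at h0
    · rw [hyl] at h0
      have h1 : (0 : Fn ι) e' = 0 := rfl
      rw [h1] at h0
      rcases mul_eq_zero.1 h0 with h2 | h2
      · exfalso
        apply hvl0
        revert h2
        cases v l <;> simp
      · exact h2
    · intro k _ hkl
      by_cases hk : v k = 0
      · -- `e' k = 0`
        have h1 : e' k = 0 := by
          by_contra hcon
          have h2 := hlow'.1 k ((A4_sgn_ne e' k).2 hcon)
          rw [hk] at h2
          exact (A4_sgn_ne e' k).2 hcon h2.symm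
        have h3 : ∀ z : ℤ, z ≠ 0 → f (Function.update e' k z) = 0 := by
          intro z hz
          refine habove e' _ hlow' (A4_le_update e' k h1 z) ?_
          intro h4
          have h5 : sgn (Function.update e' k z) k ≠ 0 := by
            rw [A4_sgn_ne, Function.update_self]; exact hz
          have h6 := h4 k h5
          rw [hk] at h6
          exact h5 h6.symm
        rw [A4_X_apply, h1, if_pos le_rfl, if_pos le_rfl, h3 _ (by norm_num), h3 _ (by norm_num)]
        simp
      · rw [hyk k hk hkl, zero_mul]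
    · intro h1
      exact absurd (Finset.mem_univ l) h1
  -- the lowered point
  have hlow' : ∀ z : ℤ, (z = 0 ∨ SignType.sign z = v l) → (l ∈ P v → z ≠ 0) →
      Low P v (sgn (Function.update e l z)) := by
    intro z hz1 hz2
    refine ⟨?_, ?_⟩
    · intro k hk
      by_cases hkl : k = l
      · subst hkl
        rw [A4_sgn_apply, Function.update_self] at hk ⊢
        rcases hz1 with h1 | h1
        · rw [h1] at hk; exact absurd sign_zero hk
        · exact h1.symm
      · rw [A4_sgn_apply, Function.update_of_ne hkl] at hk ⊢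
        exact hlow.1 k hk
    · intro k hk
      by_cases hkl : k = l
      · subst hkl
        rw [A4_sgn_ne, Function.update_self]
        exact hz2 hk
      · rw [A4_sgn_apply, Function.update_of_ne hkl]
        exact hlow.2 k hk
  rcases lt_or_gt_of_ne hl0 with hneg | hpos
  · -- `e l < 0`
    have hv1 : v l = -1 := by rw [hvl]; exact sign_neg hneg
    have h1 := hlow' (e l + 1) (by
      rcases eq_or_lt_of_le (show e l + 1 ≤ 0 by omega) with h2 | h2
      · exact Or.inl h2
      · exact Or.inr (by rw [hv1]; exact sign_neg h2)) (by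
      intro h2
      have := hl1 h2
      omega)
    have h2 := hfin _ (fun k hk => by rw [Function.update_of_ne hk]) h1
    rw [A4_X_apply] at h2
    simp only [Function.update_self, Function.update_idem] at h2
    rw [if_pos (show e l + 1 ≤ 0 by omega)] at h2
    have h3 : Function.update e l (e l + 1 - 1) = e := by
      rw [add_sub_cancel_right, Function.update_eq_self]
    rw [h3] at h2
    have h4 : (if 0 ≤ e l + 1 then f (Function.update e l (e l + 1 + 1)) else 0) = 0 := by
      split_ifs with h5
      · have h6 : e l + 1 = 0 := by omega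
        have h7 : Function.update e l (e l + 1 + 1) =
            Function.update (Function.update e l (e l + 1)) l 1 := by
          rw [Function.update_idem, h6]; rfl
        rw [h7]
        refine habove _ _ h1 (A4_le_update _ l (by rw [Function.update_self]; exact h6) 1) ?_
        intro h8
        have h9 := h8 l (by rw [A4_sgn_ne, Function.update_self]; norm_num)
        rw [A4_sgn_apply, Function.update_self, hv1] at h9
        exact absurd h9 (by decide)
      · rfl
    rw [h4] at h2
    apply hfe
    linarith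
  · -- `0 < e l`
    have hv1 : v l = 1 := by rw [hvl]; exact sign_pos hpos
    have h1 := hlow' (e l - 1) (by
      rcases eq_or_lt_of_le (show 0 ≤ e l - 1 by omega) with h2 | h2
      · exact Or.inl h2.symm
      · exact Or.inr (by rw [hv1]; exact sign_pos h2)) (by
      intro h2
      have := hl1 h2
      omega)
    have h2 := hfin _ (fun k hk => by rw [Function.update_of_ne hk]) h1
    rw [A4_X_apply] at h2
    simp only [Function.update_self, Function.update_idem] at h2
    rw [if_pos (show 0 ≤ e l - 1 by omega)] at h2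
    have h3 : Function.update e l (e l - 1 + 1) = e := by
      rw [sub_add_cancel, Function.update_eq_self]
    rw [h3] at h2
    have h4 : (if e l - 1 ≤ 0 then f (Function.update e l (e l - 1 - 1)) else 0) = 0 := by
      split_ifs with h5
      · have h6 : e l - 1 = 0 := by omega
        have h7 : Function.update e l (e l - 1 - 1) =
            Function.update (Function.update e l (e l - 1)) l (-1) := by
          rw [Function.update_idem, h6]; rfl
        rw [h7]
        refine habove _ _ h1 (A4_le_update _ l (by rw [Function.update_self]; exact h6) (-1)) ?_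
        intro h8
        have h9 := h8 l (by rw [A4_sgn_ne, Function.update_self]; norm_num)
        rw [A4_sgn_apply, Function.update_self, hv1] at h9
        exact absurd h9 (by decide)
      · rfl
    rw [h4] at h2
    apply hfe
    linarith

/-- a sweep does not depend on the vectors, up to independence at the vertices -/
theorem sweep_gen {b : ι → E d} {c : ι → E d} (hc : GenC c) {C V : Finset (ι → SignType)}
    {P : (ι → SignType) → Finset ι} {ht : (ι → SignType) → ℝ} (h : Sweep b C V P ht) :
    Sweep c C V P ht where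
  zero := h.zero
  sub := h.sub
  card := h.card
  ind := by
    intro v hv
    have h1 := hc (supp v) (h.card v hv).le
    have h2 := h1.comp (fun l : {l : ι // v l ≠ 0} =>
      (⟨l.1, KST.G2_mem_supp.2 l.2⟩ : {l : ι // l ∈ supp v})) (by
        intro x y hxy
        have h3 : x.1 = y.1 := congrArg (fun z : {l : ι // l ∈ supp v} => z.1) hxy
        exact Subtype.ext h3)
    exact h2
  psub := h.psub
  down := h.down
  ex := h.ex
  uniq := h.uniq
  up := h.up

/-- every vertex is the highest one for some generic vector -/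
private theorem TOP_high {b : ι → E d} (hS : Simple b) {v : ι → SignType} (hv : v ∈ Verts b) :
    ∃ a, Gen b a ∧ PP b a v = supp v := by
  have hvc : v ∈ Cells b := (Finset.mem_filter.1 hv).1
  have hopen : ∀ᶠ a : E d in 𝓝 (∑ l ∈ supp v, ((v l : SignType) : ℝ) • b l),
      ∀ l ∈ supp v, 0 < ⟪a, KST.dv b v l⟫ := by
    refine (Finset.eventually_all _).2 fun l hl => ?_
    have hl' : v l ≠ 0 := KST.G2_mem_supp.1 hl
    have h1 : ⟪∑ k ∈ supp v, ((v k : SignType) : ℝ) • b k, KST.dv b v l⟫ = 1 := by
      rw [sum_inner, Finset.sum_eq_single l]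
      · rw [real_inner_smul_left, KST.dv_spec hS hvc hl' l hl', if_pos rfl]
        exact KST.G1b_sq hl'
      · intro k hk hkl
        rw [real_inner_smul_left, KST.dv_spec hS hvc hl' k (KST.G2_mem_supp.1 hk), if_neg hkl,
          mul_zero]
      · intro h2
        exact absurd hl h2
    have hc1 : Filter.Tendsto (fun a : E d => ⟪a, KST.dv b v l⟫)
        (𝓝 (∑ k ∈ supp v, ((v k : SignType) : ℝ) • b k))
        (𝓝 ⟪∑ k ∈ supp v, ((v k : SignType) : ℝ) • b k, KST.dv b v l⟫) :=
      Continuous.tendsto (by fun_prop) _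
    rw [h1] at hc1
    exact hc1.eventually_const_lt zero_lt_one
  obtain ⟨ε, hε, hball⟩ := Metric.eventually_nhds_iff.1 hopen
  obtain ⟨a, ha, hn⟩ := KST.exists_gen_near hS
    (∑ l ∈ supp v, ((v l : SignType) : ℝ) • b l) hε
  refine ⟨a, ha, ?_⟩
  have h2 := hball (show dist a _ < ε by rwa [dist_eq_norm])
  ext l
  rw [KST.G1b_mem_PP, KST.G2_mem_supp]
  exact ⟨fun h3 => h3.1, fun h3 => ⟨h3, h2 l (KST.G2_mem_supp.2 h3)⟩⟩

/-- the vertex of full index is unique -/
private theorem TOP_uniq {b : ι → E d} (hS : Simple b) (hb : Bornology.IsBounded (Pol b))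
    {a : E d} (ha : Gen b a) {v w : ι → SignType} (hv : v ∈ Verts b) (hw : w ∈ Verts b)
    (h1 : (PP b a v).card = d) (h2 : (PP b a w).card = d) : v = w := by
  have key : ∀ u : ι → SignType, u ∈ Verts b → (PP b a u).card = d →
      Low (PP b (-a)) u (0 : ι → SignType) := by
    intro u hu h3
    refine ⟨fun l hl => absurd rfl hl, ?_⟩
    intro l hl
    exfalso
    rw [KST.PP_neg ha hu, Finset.mem_sdiff] at hl
    have h4 : PP b a u = supp u := Finset.eq_of_subset_of_card_le (Finset.filter_subset _ _)
      (by rw [h3]; exact ((Finset.mem_filter.1 hu).2).le)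
    exact hl.2 (by rw [h4]; exact hl.1)
  exact (KST.sweep_cells hS hb (KST.gen_neg ha)).uniq 0 (KST.zero_mem_cells b) v hv w hw
    (key v hv h1) (key w hw h2)

theorem exists_top {b : ι → E d} (hS : Simple b) (hb : Bornology.IsBounded (Pol b))
    {c : ι → E d} (hc : GenC c) : ∃ φ : Fn ι, Top b c φ := by
  -- a vertex
  obtain ⟨a₀, ha₀, -⟩ := KST.exists_gen_near hS (0 : E d) zero_lt_one
  obtain ⟨v₀, hv₀, -⟩ := (KST.sweep_cells hS hb ha₀).ex 0 (KST.zero_mem_cells b)
  obtain ⟨a, ha, hav⟩ := TOP_high hS hv₀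
  have hsw := sweep_gen hc (KST.sweep_cells hS hb ha)
  have hfr := KST.finrank_ker hsw d
  have hpos : 0 < hh (Verts b) (PP b a) d := by
    refine Finset.card_pos.2 ⟨v₀, Finset.mem_filter.2 ⟨hv₀, ?_⟩⟩
    rw [hav]
    exact (Finset.mem_filter.1 hv₀).2
  rw [← hfr] at hpos
  have hnt : Nontrivial ↥(FF (Cells b) d ⊓ Ker c) := Module.nontrivial_of_finrank_pos hpos
  obtain ⟨φ, hφ⟩ := exists_ne (0 : ↥(FF (Cells b) d ⊓ Ker c))
  refine ⟨φ.1, φ.2, ?_⟩
  intro v hv h0
  obtain ⟨a', ha', hav'⟩ := TOP_high hS hv
  have hsw' := sweep_gen hc (KST.sweep_cells hS hb ha')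
  obtain ⟨hf1, hf2⟩ := Submodule.mem_inf.1 φ.2
  have hcard : (PP b a' v).card = d := by
    rw [hav']
    exact (Finset.mem_filter.1 hv).2
  have h1 := A4_key hsw' d φ.1 hf1 (fun y => LinearMap.mem_ker.1 ((Submodule.mem_iInf _).1 hf2 y))
    (by
      intro w hw hwc
      have hwv : w = v := TOP_uniq hS hb ha' hw hv hwc hcard
      subst hwv
      rw [hav']
      have h2 : (fun l => if l ∈ supp w then ((w l : SignType) : ℤ) else 0) = zv w := by
        funext l
        by_cases hl : w l = 0
        · rw [if_neg (by rw [KST.G2_mem_supp]; exact fun h3 => h3 hl)]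
          simp [zv, hl]
        · rw [if_pos (KST.G2_mem_supp.2 hl)]
          rfl
      rw [h2]
      exact h0)
  exact hφ (Subtype.ext h1)

end

end Pool.Agent.CTC
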