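import Pool.Agent.CTC.Defs
import Pool.Agent.CTC.TOP
import Pool.Agent.KST.A5
import Pool.Agent.KST.G3
import Pool.Agent.KST.G4

/-! # ROW FSY: symmetry of the numbers of a facet -/

set_option autoImplicit false

open scoped BigOperators RealInnerProductSpace Topology

namespace Pool.Agent.CTC

noncomputable section

open Classical

open Pool.Agent.KST (E Fn supp Le IsCell Cells Verts Simple Pol pt dv PP Gen Star VF Low Sweep sgn
  EE X D FF Par Ker S hh LowF Inside FF_fin finrank_ker isCell_pt dv_spec exists_gen_near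
  sweep_star notMem_PP G4_mem_VF G4_verts_cells)

variable {ι : Type} [Fintype ι] {d : ℕ}

private theorem FSY_low_near {b : ι → E d} (j : ι) : ∀ᶠ a : E d in 𝓝 (-b j), LowF b a j := by
  unfold LowF
  refine (Finset.eventually_all _).2 fun v hv => (Finset.eventually_all _).2 fun w hw => ?_
  by_cases hvj : v j = 1
  · by_cases hwj : w j = 1
    · exact Filter.Eventually.of_forall fun a _ h => absurd hwj h
    · have hcv := isCell_pt (Finset.mem_filter.1 hv).1
      have hcw := isCell_pt (Finset.mem_filter.1 hw).1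
      have h1 : ⟪-b j, pt b v⟫ = -1 := by
        rw [inner_neg_left, (hcv j).2 (by rw [hvj]; decide), hvj]
        norm_num
      have h2 : -1 < ⟪-b j, pt b w⟫ := by
        rw [inner_neg_left]
        rcases hwl : w j with _ | _ | _
        · have := (hcw j).1 hwl
          linarith [(abs_lt.1 this).2]
        · have := (hcw j).2 (by rw [hwl]; decide)
          rw [hwl] at this
          norm_num at this
          linarith
        · exact absurd hwl hwj
      have hlt : ⟪-b j, pt b v⟫ < ⟪-b j, pt b w⟫ := by linarith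
      have hc1 : Filter.Tendsto (fun a : E d => ⟪a, pt b v⟫) (𝓝 (-b j)) (𝓝 ⟪-b j, pt b v⟫) :=
        Continuous.tendsto (by fun_prop) _
      have hc2 : Filter.Tendsto (fun a : E d => ⟪a, pt b w⟫) (𝓝 (-b j)) (𝓝 ⟪-b j, pt b w⟫) :=
        Continuous.tendsto (by fun_prop) _
      filter_upwards [hc1.eventually_lt hc2 hlt] with a ha _ _ using ha
  · exact Filter.Eventually.of_forall fun a h => absurd h hvj

private theorem FSY_ne (r : ℝ) : ∀ᶠ t : ℝ in 𝓝[>] (0 : ℝ), t ≠ r := by
  by_cases h : r = 0
  · subst h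
    filter_upwards [self_mem_nhdsWithin] with t ht using (ne_of_gt ht)
  · have : ∀ᶠ t : ℝ in 𝓝 (0 : ℝ), t ≠ r := eventually_ne_nhds (Ne.symm h)
    exact this.filter_mono nhdsWithin_le_nhds

private theorem FSY_gen_near {b : ι → E d} {u : E d} (hu : Gen b u) (z : E d) :
    ∀ᶠ t : ℝ in 𝓝[>] (0 : ℝ), Gen b (z + t • u) := by
  unfold Gen
  refine (Finset.eventually_all _).2 fun v hv => (Finset.eventually_all _).2 fun l hl => ?_
  have h1 := hu v hv l hl
  filter_upwards [FSY_ne (-⟪z, dv b v l⟫ / ⟪u, dv b v l⟫)] with t ht h0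
  apply ht
  rw [inner_add_left, real_inner_smul_left] at h0
  rw [eq_div_iff h1]
  linarith

private theorem FSY_pair {b : ι → E d} (hS : Simple b) (j : ι) : ∃ (u : E d) (t : ℝ), 0 < t ∧
    Gen b (-b j + t • u) ∧ Gen b (-b j + t • (-u)) ∧ LowF b (-b j + t • u) j ∧
      LowF b (-b j + t • (-u)) j := by
  obtain ⟨u, hu, _⟩ := exists_gen_near hS (0 : E d) one_pos
  have hu' : Gen b (-u) := KST.gen_neg hu
  have hl : ∀ w : E d, ∀ᶠ t : ℝ in 𝓝[>] (0 : ℝ), LowF b (-b j + t • w) j := by
    intro w
    have hc : Filter.Tendsto (fun t : ℝ => -b j + t • w) (𝓝[>] (0 : ℝ)) (𝓝 (-b j)) := by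
      have h1 : Filter.Tendsto (fun t : ℝ => -b j + t • w) (𝓝 (0 : ℝ))
          (𝓝 (-b j + (0 : ℝ) • w)) := Continuous.tendsto (by fun_prop) _
      rw [zero_smul, add_zero] at h1
      exact h1.mono_left nhdsWithin_le_nhds
    exact hc.eventually (FSY_low_near j)
  have h0 : ∀ᶠ t : ℝ in 𝓝[>] (0 : ℝ), 0 < t := self_mem_nhdsWithin
  obtain ⟨t, ht⟩ := (h0.and ((FSY_gen_near hu (-b j)).and ((FSY_gen_near hu' (-b j)).and
    ((hl u).and (hl (-u)))))).exists
  exact ⟨u, t, ht⟩

theorem facet_symm {b : ι → E d} (hS : Simple b) (hb : Bornology.IsBounded (Pol b))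
    {c : ι → E d} (hc : GenC c) (j : ι) {n : ℕ} (hn : n + 1 ≤ d) :
    Module.finrank ℝ ↥(FF (Star b j) n ⊓ Ker c) =
      Module.finrank ℝ ↥(FF (Star b j) (d - 1 - n) ⊓ Ker c) := by
  by_cases hne : ∃ t ∈ Cells b, t j = 1
  · obtain ⟨u, t, ht, hg1, hg2, hl1, hl2⟩ := FSY_pair hS j
    have hs1 := sweep_star hS hb hg1 hl1 hne
    have hs2 := sweep_star hS hb hg2 hl2 hne
    rw [finrank_ker (sweep_gen hc hs1) n, finrank_ker (sweep_gen hc hs2) (d - 1 - n)]
    unfold hh
    congr 1
    refine Finset.filter_congr fun v hv => ?_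
    obtain ⟨hv1, hvj⟩ := G4_mem_VF.mp hv
    have hvj0 : v j ≠ 0 := by rw [hvj]; decide
    have hp1 := notMem_PP hS hb hg1 hl1 hv
    have hp2 := notMem_PP hS hb hg2 hl2 hv
    have hin : ∀ l ∈ (supp v).erase j, ⟪b j, dv b v l⟫ = 0 := by
      intro l hl
      have hlj : l ≠ j := Finset.ne_of_mem_erase hl
      have hl0 : v l ≠ 0 := (Finset.mem_filter.mp (Finset.mem_of_mem_erase hl)).2
      rw [dv_spec hS (G4_verts_cells hv1) hl0 j hvj0, if_neg (Ne.symm hlj)]
    have hun : PP b (-b j + t • u) v ∪ PP b (-b j + t • (-u)) v = (supp v).erase j := by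
      ext l
      constructor
      · intro h
        rcases Finset.mem_union.mp h with h | h
        · exact Finset.mem_erase.mpr ⟨fun e => hp1 (e ▸ h), (Finset.mem_filter.mp h).1⟩
        · exact Finset.mem_erase.mpr ⟨fun e => hp2 (e ▸ h), (Finset.mem_filter.mp h).1⟩
      · intro h
        have hls := Finset.mem_of_mem_erase h
        have h1 := hg1 v hv1 l hls
        have h2 := hin l h
        rw [Finset.mem_union]
        rcases lt_or_gt_of_ne h1 with h3 | h3
        · right
          refine Finset.mem_filter.mpr ⟨hls, ?_⟩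
          rw [inner_add_left, real_inner_smul_left, inner_neg_left, h2] at h3
          rw [inner_add_left, real_inner_smul_left, inner_neg_left, h2, inner_neg_left]
          linarith
        · left
          exact Finset.mem_filter.mpr ⟨hls, h3⟩
    have hdisj : Disjoint (PP b (-b j + t • u) v) (PP b (-b j + t • (-u)) v) := by
      rw [Finset.disjoint_left]
      intro l h1 h2
      have hlj : l ≠ j := fun e => hp1 (e ▸ h1)
      have hls := (Finset.mem_filter.mp h1).1
      have h3 := hin l (Finset.mem_erase.mpr ⟨hlj, hls⟩)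
      have h4 := (Finset.mem_filter.mp h1).2
      have h5 := (Finset.mem_filter.mp h2).2
      rw [inner_add_left, real_inner_smul_left, inner_neg_left, h3] at h4
      rw [inner_add_left, real_inner_smul_left, inner_neg_left, h3, inner_neg_left] at h5
      linarith
    have hcard : (PP b (-b j + t • u) v).card + (PP b (-b j + t • (-u)) v).card = d - 1 := by
      have hjs : j ∈ supp v := Finset.mem_filter.mpr ⟨Finset.mem_univ _, hvj0⟩
      rw [← Finset.card_union_of_disjoint hdisj, hun, Finset.card_erase_of_mem hjs,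
        (Finset.mem_filter.mp hv1).2]
    omega
  · have hstar : Star b j = ∅ := by
      rw [Finset.eq_empty_iff_forall_notMem]
      intro s hs
      obtain ⟨_, t, ht, _, htj⟩ := Finset.mem_filter.mp hs
      exact hne ⟨t, ht, htj⟩
    have hbot : ∀ k, FF (Star b j) k = ⊥ := by
      intro k
      rw [hstar, eq_bot_iff]
      intro f hf
      rw [Submodule.mem_bot]
      funext e
      exact hf e fun h => absurd (Finset.mem_filter.mp h).2.2 (Finset.notMem_empty _)
    rw [hbot, hbot]

end

end Pool.Agent.CTC
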