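import Pool.Agent.CTC.Defs
import Pool.Agent.WLP.Core

/-!
# Generic vectors: independence, and independence of the kernels of the cut facets
-/

set_option autoImplicit false

open scoped BigOperators RealInnerProductSpace

namespace Pool.Agent.CTC

noncomputable section

open Classical

open Pool.Agent.KST (E Fn supp Le IsCell Cells Verts Simple Pol pt PP Gen Star VF Low Sweep sgn EE X
  D FF Par Ker S hh LowF Inside)

variable {ι : Type} [Fintype ι] {d : ℕ}

omit [Fintype ι] in
private theorem INJ_aux {c : ι → E d}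
    (hc : AlgebraicIndependent ℤ (fun p : ι × Fin d => c p.1 p.2)) {k : ℕ} (hk : k ≤ d)
    (g : Fin k → ι) (hg : Function.Injective g) : LinearIndependent ℝ (fun i => c (g i)) := by
  have h1 : AlgebraicIndependent ℤ (fun p : ι × Fin k => c p.1 (Fin.castLE hk p.2)) := by
    refine hc.comp (fun p : ι × Fin k => ((p.1, Fin.castLE hk p.2) : ι × Fin d)) ?_
    rintro ⟨a, b⟩ ⟨a', b'⟩ h
    simp only [Prod.mk.injEq] at h
    rw [Prod.mk.injEq]
    exact ⟨h.1, Fin.castLE_injective hk h.2⟩
  have h2 := WLP.algInd_linInd (fun (l : ι) (i : Fin k) => c l (Fin.castLE hk i)) h1 g hg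
  refine LinearIndependent.of_comp
    ((LinearMap.funLeft ℝ ℝ (Fin.castLE hk)).comp
      (EuclideanSpace.equiv (Fin d) ℝ).toLinearEquiv.toLinearMap) ?_
  exact h2

theorem genC_of_alg {c : ι → E d}
    (hc : AlgebraicIndependent ℤ (fun p : ι × Fin d => c p.1 p.2)) : GenC c := by
  intro T hT
  let e : Fin T.card ≃ {l : ι // l ∈ T} := T.equivFin.symm
  have h1 := INJ_aux hc hT (fun i => (e i).1) (Subtype.val_injective.comp e.injective)
  have h2 := h1.comp e.symm e.symm.injective
  have h3 : (fun i => c (e i).1) ∘ e.symm = fun l : {l : ι // l ∈ T} => c l.1 := by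
    funext l
    simp
  rwa [h3] at h2

theorem inj_star {b : ι → E (d + 1)} (hS : Simple b) (hb : Bornology.IsBounded (Pol b))
    {J : Finset ι} (hJ : WLP.SepB b J) {c : ι → E (d + 1)}
    (hc : AlgebraicIndependent ℤ (fun p : ι × Fin (d + 1) => c p.1 p.2)) {m : ℕ}
    (hm : d + 1 ≤ 2 * m) (hm' : m ≤ d) (f : ι → Fn ι)
    (hf : ∀ j ∈ J, f j ∈ FF (Star b j) m ⊓ Ker c)
    (h0 : ∑ j ∈ J, (f j - ng (f j)) = 0) : ∀ j ∈ J, f j = 0 := by
  refine WLP.inj_anti_of hJ (n := m) (c := c) ?_ f hf ?_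
  · intro j hj g hg h1
    exact WLP.core hS hb j (hJ.opp j hj) hc hm hm' g hg.1 hg.2 (fun e he => h1 e he)
  · intro e
    have h1 := congrFun h0 e
    rw [Finset.sum_apply] at h1
    exact h1

end

end Pool.Agent.CTC
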