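import Pool.Agent.CTC.Defs
import Pool.Agent.KST.G0
import Pool.Agent.KST.A2
import Pool.Agent.KST.A2b

/-!
# Shifts and reflection
-/

set_option autoImplicit false

open scoped BigOperators RealInnerProductSpace

namespace Pool.Agent.CTC

noncomputable section

open Classical

open Pool.Agent.KST (E Fn supp Le IsCell Cells Verts Simple Pol pt PP Gen Star VF Low Sweep sgn EE X
  D FF Par Ker S hh LowF Inside)

variable {ι : Type} [Fintype ι] {d : ℕ}

theorem Xe_apply (e : ι → ℤ) (f : Fn ι) (e' : ι → ℤ) :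
    Xe e f e' = if ∀ l, 0 ≤ e l * e' l then f (e + e') else 0 := rfl

theorem Xe_symm (e e' : ι → ℤ) (f : Fn ι) : Xe e f e' = Xe e' f e := by
  rw [Xe_apply, Xe_apply, add_comm e e']
  simp only [mul_comm (e _) (e' _)]

omit [Fintype ι] in
private theorem SH_up (e : ι → ℤ) (l : ι) :
    Function.update e l (e l + 1) = e + Pi.single l 1 := by
  funext k
  by_cases h : k = l
  · subst h; simp
  · simp [h]

omit [Fintype ι] in
private theorem SH_down (e : ι → ℤ) (l : ι) :
    Function.update e l (e l - 1) = e - Pi.single l 1 := by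
  funext k
  by_cases h : k = l
  · subst h; simp
  · simp [h]

private theorem SH_X_apply (l : ι) (f : Fn ι) (e : ι → ℤ) :
    X l f e = (if 0 ≤ e l then f (e + Pi.single l 1) else 0) -
      (if e l ≤ 0 then f (e - Pi.single l 1) else 0) := by
  rw [← SH_up, ← SH_down]
  rfl

omit [Fintype ι] in
private theorem SH_cond_up (e e' : ι → ℤ) (k : ι) :
    (0 ≤ e' k ∧ ∀ l, 0 ≤ e l * (e' + Pi.single k 1 : ι → ℤ) l) ↔
      ((∀ l, 0 ≤ e l * e' l) ∧ 0 ≤ (e + e') k) := by
  simp only [mul_nonneg_iff, Pi.add_apply]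
  constructor
  · rintro ⟨h1, h2⟩
    have hk := h2 k
    rw [Pi.single_eq_same] at hk
    refine ⟨fun l => ?_, by omega⟩
    by_cases hl : l = k
    · subst hl; omega
    · have := h2 l
      rw [Pi.single_eq_of_ne hl] at this
      omega
  · rintro ⟨h1, h2⟩
    have hk := h1 k
    refine ⟨by omega, fun l => ?_⟩
    by_cases hl : l = k
    · subst hl
      rw [Pi.single_eq_same]
      omega
    · have := h1 l
      rw [Pi.single_eq_of_ne hl]
      omega

omit [Fintype ι] in
private theorem SH_cond_down (e e' : ι → ℤ) (k : ι) :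
    (e' k ≤ 0 ∧ ∀ l, 0 ≤ e l * (e' - Pi.single k 1 : ι → ℤ) l) ↔
      ((∀ l, 0 ≤ e l * e' l) ∧ (e + e') k ≤ 0) := by
  simp only [mul_nonneg_iff, Pi.add_apply, Pi.sub_apply]
  constructor
  · rintro ⟨h1, h2⟩
    have hk := h2 k
    rw [Pi.single_eq_same] at hk
    refine ⟨fun l => ?_, by omega⟩
    by_cases hl : l = k
    · subst hl; omega
    · have := h2 l
      rw [Pi.single_eq_of_ne hl] at this
      omega
  · rintro ⟨h1, h2⟩
    have hk := h1 k
    refine ⟨by omega, fun l => ?_⟩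
    by_cases hl : l = k
    · subst hl
      rw [Pi.single_eq_same]
      omega
    · have := h1 l
      rw [Pi.single_eq_of_ne hl]
      omega

private theorem SH_ite {p q r : Prop} [Decidable p] [Decidable q] [Decidable r]
    (h : (p ∧ q) ↔ r) (x : ℝ) :
    (if p then (if q then x else 0) else 0) = if r then x else 0 := by
  by_cases hp : p
  · by_cases hq : q
    · rw [if_pos hp, if_pos hq, if_pos (h.1 ⟨hp, hq⟩)]
    · rw [if_pos hp, if_neg hq, if_neg (fun hr => hq (h.2 hr).2)]
  · rw [if_neg hp, if_neg (fun hr => hp (h.2 hr).1)]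

private theorem SH_X (k : ι) (e : ι → ℤ) (f : Fn ι) : X k (Xe e f) = Xe e (X k f) := by
  funext e'
  rw [SH_X_apply, Xe_apply, Xe_apply, Xe_apply, SH_X_apply, SH_ite (SH_cond_up e e' k),
    SH_ite (SH_cond_down e e' k), ← add_assoc, ← add_sub_assoc]
  by_cases hA : ∀ l, 0 ≤ e l * e' l
  · rw [if_pos hA]
    congr 1
    · by_cases hs : 0 ≤ (e + e') k
      · rw [if_pos ⟨hA, hs⟩, if_pos hs]
      · rw [if_neg (fun h => hs h.2), if_neg hs]
    · by_cases hs : (e + e') k ≤ 0
      · rw [if_pos ⟨hA, hs⟩, if_pos hs]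
      · rw [if_neg (fun h => hs h.2), if_neg hs]
  · rw [if_neg hA, if_neg (fun h => hA h.1), if_neg (fun h => hA h.1), sub_zero]

theorem Xe_D (c : ι → E d) (y : E d) (e : ι → ℤ) (f : Fn ι) :
    D c y (Xe e f) = Xe e (D c y f) := by
  simp only [D, LinearMap.sum_apply, LinearMap.smul_apply, map_sum, map_smul, SH_X]

theorem Xe_Ker {c : ι → E d} (e : ι → ℤ) {f : Fn ι} (hf : f ∈ Ker c) : Xe e f ∈ Ker c := by
  rw [Pool.Agent.KST.mem_Ker] at hf ⊢
  intro y
  rw [Xe_D, hf y, map_zero]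

private theorem SH_mem_EE (C : Finset (ι → SignType)) (n : ℕ) (e : ι → ℤ) :
    e ∈ EE C n ↔ (∑ l, (e l).natAbs = n) ∧ sgn e ∈ C := by
  unfold Pool.Agent.KST.EE
  rw [Finset.mem_filter, Fintype.mem_piFinset]
  constructor
  · rintro ⟨_, h⟩
    exact h
  · intro h
    refine ⟨fun l => ?_, h⟩
    have : (e l).natAbs ≤ n := by
      rw [← h.1]
      exact Finset.single_le_sum (f := fun l => (e l).natAbs) (fun _ _ => Nat.zero_le _)
        (Finset.mem_univ l)
    rw [Finset.mem_Icc]
    omega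

omit [Fintype ι] in
private theorem SH_le {e e' : ι → ℤ} (h : ∀ l, 0 ≤ e l * e' l) : Le (sgn e') (sgn (e + e')) := by
  intro l hl
  have hl' : e' l ≠ 0 := by
    intro h0
    apply hl
    show SignType.sign (e' l) = 0
    rw [h0, sign_zero]
  have h1 := h l
  rw [mul_nonneg_iff] at h1
  show SignType.sign ((e + e') l) = SignType.sign (e' l)
  rw [Pi.add_apply]
  rcases lt_or_gt_of_ne hl' with h2 | h2
  · rw [sign_neg h2, sign_neg (by omega)]
  · rw [sign_pos h2, sign_pos (by omega)]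

private theorem SH_natAbs {e e' : ι → ℤ} (h : ∀ l, 0 ≤ e l * e' l) :
    ∑ l, ((e + e') l).natAbs = ∑ l, (e l).natAbs + ∑ l, (e' l).natAbs := by
  rw [← Finset.sum_add_distrib]
  refine Finset.sum_congr rfl fun l _ => ?_
  have h1 := h l
  rw [mul_nonneg_iff] at h1
  rw [Pi.add_apply]
  omega

theorem Xe_FF {C : Finset (ι → SignType)} (hdown : ∀ s t, t ∈ C → Le s t → s ∈ C)
    (e : ι → ℤ) {n k : ℕ} (he : ∑ l, (e l).natAbs = k) {f : Fn ι} (hf : f ∈ FF C (n + k)) :
    Xe e f ∈ FF C n := by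
  intro e' he'
  rw [Xe_apply]
  split_ifs with h
  · apply hf
    intro h1
    apply he'
    rw [SH_mem_EE] at h1 ⊢
    refine ⟨?_, hdown _ _ h1.2 (SH_le h)⟩
    have := h1.1
    rw [SH_natAbs h, he] at this
    omega
  · rfl

private theorem SH_uv_self (a : ι × SignType) : uv a a.1 = ((a.2 : SignType) : ℤ) := by
  unfold uv
  rw [if_pos rfl]

private theorem SH_uv_ne (a : ι × SignType) {l : ι} (h : l ≠ a.1) : uv a l = 0 := by
  unfold uv
  rw [if_neg h]

private theorem SH_uv_natAbs (a : ι × SignType) (ha : a.2 ≠ 0) : ∑ l, (uv a l).natAbs = 1 := by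
  rw [Finset.sum_eq_single a.1 (fun l _ hl => by rw [SH_uv_ne a hl]; rfl)
    (fun h => absurd (Finset.mem_univ _) h), SH_uv_self]
  revert ha
  generalize a.2 = s
  cases s <;> simp

/-- the shift by `a` maps into the star of `a` -/
theorem Xe_star {b : ι → E d} (hS : Simple b) (a : ι × SignType) (ha : a.2 ≠ 0) {n : ℕ}
    {f : Fn ι} (hf : f ∈ FF (Cells b) (n + 1)) : Xe (uv a) f ∈ FF (StarS b a) n := by
  intro e' he'
  rw [Xe_apply]
  split_ifs with h
  · apply hf
    intro h1
    apply he'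
    rw [SH_mem_EE] at h1 ⊢
    have hle := SH_le h
    refine ⟨?_, ?_⟩
    · have := h1.1
      rw [SH_natAbs h, SH_uv_natAbs a ha] at this
      omega
    · unfold StarS
      rw [Finset.mem_filter]
      refine ⟨Pool.Agent.KST.cells_down hS h1.2 hle, _, h1.2, hle, ?_⟩
      show SignType.sign ((uv a + e') a.1) = a.2
      rw [Pi.add_apply, SH_uv_self]
      have h2 := h a.1
      rw [SH_uv_self, mul_nonneg_iff] at h2
      revert ha h2
      generalize a.2 = s
      cases s
      · intro h3; exact absurd rfl h3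
      · intro _ h4
        simp only [SignType.neg_eq_neg_one, SignType.coe_neg_one] at h4 ⊢
        exact sign_neg (by omega)
      · intro _ h4
        simp only [SignType.pos_eq_one, SignType.coe_one] at h4 ⊢
        exact sign_pos (by omega)
  · rfl

/-- composition of two compatible shifts -/
theorem Xe_comp (e e' : ι → ℤ) (h : ∀ l, 0 ≤ e l * e' l) (f : Fn ι) :
    Xe e (Xe e' f) = Xe (e + e') f := by
  funext x
  rw [Xe_apply, Xe_apply, Xe_apply]
  have h1 : ((∀ l, 0 ≤ e l * x l) ∧ ∀ l, 0 ≤ e' l * (e + x) l) ↔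
      ∀ l, 0 ≤ (e + e') l * x l := by
    simp only [mul_nonneg_iff, Pi.add_apply] at h ⊢
    constructor
    · rintro ⟨h2, h3⟩ l
      have := h l
      have := h2 l
      have := h3 l
      omega
    · intro h2
      constructor
      · intro l
        have := h l
        have := h2 l
        omega
      · intro l
        have := h l
        have := h2 l
        omega
  have h2 : e' + (e + x) = e + e' + x := by
    rw [← add_assoc, add_comm e' e]
  rw [SH_ite h1, h2]

/-- the shift by `e'' + a`, `e''` in the star of `a`, maps top functions into the star of `a` -/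
theorem Xe_row {b c : ι → E d} (hS : Simple b) {φ : Fn ι} (hφ : φ ∈ FF (Cells b) d ⊓ Ker c)
    (a : ι × SignType) (ha : a.2 ≠ 0) {n m : ℕ} (hnm : n + m = d) (hm : 1 ≤ m) {e : ι → ℤ}
    (he : e ∈ EE (StarS b a) (m - 1)) :
    Xe (e + uv a) φ ∈ FF (StarS b a) n ⊓ Ker c ∧
      Xe (e + uv a) φ = Xe (uv a) (Xe e φ) ∧ Xe (e + uv a) φ = Xe e (Xe (uv a) φ) := by
  rw [SH_mem_EE] at he
  obtain ⟨he1, he2⟩ := he
  have he3 := Finset.mem_filter.1 he2
  obtain ⟨-, t, ht, hle, hta⟩ := he3
  have hcomp : ∀ l, 0 ≤ e l * uv a l := by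
    intro l
    by_cases hl : l = a.1
    · subst hl
      rw [SH_uv_self, mul_nonneg_iff]
      by_cases h0 : e a.1 = 0
      · rw [h0]
        have := le_total 0 (((a.2 : SignType) : ℤ))
        tauto
      · have h1 : sgn e a.1 ≠ 0 := by
          show SignType.sign (e a.1) ≠ 0
          rw [Ne, sign_eq_zero_iff]
          exact h0
        have h2 : a.2 = SignType.sign (e a.1) := by rw [← hta]; exact hle _ h1
        rw [h2]
        rcases lt_or_gt_of_ne h0 with h3 | h3
        · right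
          rw [sign_neg h3]
          exact ⟨h3.le, by simp⟩
        · left
          rw [sign_pos h3]
          exact ⟨h3.le, by simp⟩
    · rw [SH_uv_ne a hl, mul_zero]
  have h1 : Xe (e + uv a) φ = Xe e (Xe (uv a) φ) := (Xe_comp e (uv a) hcomp φ).symm
  have h2 : Xe (e + uv a) φ = Xe (uv a) (Xe e φ) := by
    rw [Xe_comp (uv a) e (fun l => by rw [mul_comm]; exact hcomp l) φ, add_comm]
  refine ⟨⟨?_, Xe_Ker _ hφ.2⟩, h2, h1⟩
  rw [h2]
  apply Xe_star hS a ha
  apply Xe_FF (fun s t ht hs => Pool.Agent.KST.cells_down hS ht hs) e he1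
  have h3 : n + 1 + (m - 1) = d := by omega
  rw [h3]
  exact hφ.1

theorem ng_ng (f : Fn ι) : ng (ng f) = f := by
  funext e
  show f (- -e) = f e
  rw [neg_neg]

theorem ng_Xe (e : ι → ℤ) (f : Fn ι) : ng (Xe e f) = Xe (-e) (ng f) := by
  funext x
  show Xe e f (-x) = Xe (-e) (ng f) x
  rw [Xe_apply, Xe_apply]
  have h1 : (∀ l, 0 ≤ e l * (-x) l) ↔ ∀ l, 0 ≤ (-e) l * x l := by
    simp only [Pi.neg_apply, mul_neg, neg_mul]
  have h2 : ng f (-e + x) = f (e + -x) := by
    show f (-(-e + x)) = f (e + -x)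
    rw [neg_add, neg_neg]
  rw [h2]
  simp only [h1]

theorem ng_Ker {c : ι → E d} {f : Fn ι} (hf : f ∈ Ker c) : ng f ∈ Ker c :=
  Pool.Agent.KST.a2b_neg_Ker c f hf

theorem ng_Cells {b : ι → E d} {n : ℕ} {f : Fn ι} (hf : f ∈ FF (Cells b) n) :
    ng f ∈ FF (Cells b) n :=
  Pool.Agent.KST.a2b_neg_FF (C := Cells b)
    (fun _ hs => Pool.Agent.KST.neg_mem_cells hs) n f hf

private theorem SH_neg_ne {s : SignType} (h : s ≠ 0) : -s ≠ 0 := by
  revert h
  cases s <;> decide

theorem ng_StarS {b : ι → E d} (a : ι × SignType) {n : ℕ} {f : Fn ι}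
    (hf : f ∈ FF (StarS b a) n) : ng f ∈ FF (StarS b (a.1, -a.2)) n := by
  intro e he
  show f (-e) = 0
  apply hf
  intro h
  apply he
  rw [SH_mem_EE] at h ⊢
  obtain ⟨h1, h2⟩ := h
  have h3 := Finset.mem_filter.1 h2
  obtain ⟨hc, t, ht, hle, hta⟩ := h3
  have hsg : sgn (-e) = -sgn e := by
    funext l
    exact Left.sign_neg (e l)
  rw [hsg] at hc hle
  refine ⟨by simpa only [Pi.neg_apply, Int.natAbs_neg] using h1, ?_⟩
  unfold StarS
  rw [Finset.mem_filter]
  refine ⟨?_, -t, Pool.Agent.KST.neg_mem_cells ht, ?_, ?_⟩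
  · have := Pool.Agent.KST.neg_mem_cells hc
    rwa [neg_neg] at this
  · intro l hl
    have h4 := hle l (by rw [Pi.neg_apply]; exact SH_neg_ne hl)
    rw [Pi.neg_apply, h4, Pi.neg_apply, neg_neg]
  · rw [Pi.neg_apply, hta]

theorem StarS_one (b : ι → E d) (j : ι) : StarS b (j, 1) = Star b j := rfl

end

end Pool.Agent.CTC
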