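import Pool.Agent.CTC.Defs
import Pool.Agent.CTC.SH
import Pool.Agent.KST.G0
import Pool.Agent.KST.A2

/-!
# The stress lemma
-/

set_option autoImplicit false

open scoped BigOperators RealInnerProductSpace

namespace Pool.Agent.CTC

noncomputable section

open Classical

open Pool.Agent.KST (E Fn supp Le IsCell Cells Verts Simple Pol pt PP Gen Star VF Low Sweep sgn EE X
  D FF Par Ker S hh LowF Inside)

variable {ι : Type} [Fintype ι] {d : ℕ}

private theorem STR_X_apply (l : ι) (f : Fn ι) (e : ι → ℤ) :
    X l f e = (if 0 ≤ e l then f (Function.update e l (e l + 1)) else 0) -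
      (if e l ≤ 0 then f (Function.update e l (e l - 1)) else 0) := rfl

theorem ind_zero {c : ι → E d} (hc : GenC c) {k : ℕ} (hk : 1 ≤ k) (V : Finset (ι × SignType))
    (hV : V.card ≤ d) (hV1 : ∀ p ∈ V, ∀ q ∈ V, p.1 = q.1 → p = q) (f : Fn ι) (hf : f ∈ Ker c)
    (hn : ∀ e, f e ≠ 0 → ∑ l, (e l).natAbs = k ∧
      ∀ l, e l ≠ 0 → (l, SignType.sign (e l)) ∈ V) : f = 0 := by
  funext e
  by_contra hne
  have hne' : f e ≠ 0 := hne
  obtain ⟨l, hl⟩ : ∃ l, e l ≠ 0 := by
    by_contra hcon
    push Not at hcon
    have h1 := (hn e hne').1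
    rw [Finset.sum_eq_zero (fun l _ => by rw [hcon l]; rfl)] at h1
    omega
  have hsupp : ∀ e, f e ≠ 0 → ∀ l, e l ≠ 0 → (l, SignType.sign (e l)) ∈ V :=
    fun e he => (hn e he).2
  have hTl := hsupp e hne' l hl
  have huniq : ∀ k σ τ, (k, σ) ∈ V → (k, τ) ∈ V → σ = τ := by
    intro k σ τ h1 h2
    exact congrArg Prod.snd (hV1 _ h1 _ h2 rfl)
  have hind := hc (V.image Prod.fst) (Finset.card_image_le.trans hV)
  obtain ⟨y, hy⟩ := Pool.Agent.KST.G0_dual hind (fun p => if p.1 = l then 1 else 0)
  have hyl : ⟪c l, y⟫ = 1 := by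
    have := hy ⟨l, Finset.mem_image.2 ⟨_, hTl, rfl⟩⟩
    simpa using this
  have hyk : ∀ k σ, k ≠ l → (k, σ) ∈ V → ⟪c k, y⟫ = 0 := by
    intro k σ hk h1
    have := hy ⟨k, Finset.mem_image.2 ⟨_, h1, rfl⟩⟩
    simpa [hk] using this
  have hD := (Pool.Agent.KST.mem_Ker c f).1 hf y
  set s : ℤ := (e l).sign with hs
  set e' : ι → ℤ := Function.update e l (e l - s) with he'
  have hDe : ∑ k, ⟪c k, y⟫ * X k f e' = 0 := by
    rw [← Pool.Agent.KST.D_apply, hD]
    rfl
  have hk0 : ∀ k, k ≠ l → ⟪c k, y⟫ * X k f e' = 0 := by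
    intro k hk
    by_cases hTk : ∃ σ, (k, σ) ∈ V
    · obtain ⟨σ, hσ⟩ := hTk
      rw [hyk k σ hk hσ, zero_mul]
    · have hz : ∀ z : ι → ℤ, z k ≠ 0 → f z = 0 := by
        intro z hz
        by_contra hfz
        exact hTk ⟨_, hsupp z hfz k hz⟩
      rw [STR_X_apply]
      have h1 : (if 0 ≤ e' k then f (Function.update e' k (e' k + 1)) else 0) = 0 := by
        split_ifs with h
        · apply hz
          rw [Function.update_self]
          omega
        · rfl
      have h2 : (if e' k ≤ 0 then f (Function.update e' k (e' k - 1)) else 0) = 0 := by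
        split_ifs with h
        · apply hz
          rw [Function.update_self]
          omega
        · rfl
      rw [h1, h2, sub_zero, mul_zero]
  rw [Finset.sum_eq_single l (fun k _ hk => hk0 k hk)
    (fun h => absurd (Finset.mem_univ l) h), hyl, one_mul, STR_X_apply] at hDe
  have hel : e' l = e l - s := by rw [he', Function.update_self]
  rcases lt_or_gt_of_ne hl with hneg | hpos
  · have hs1 : s = -1 := Int.sign_eq_neg_one_of_neg hneg
    have hA : (if 0 ≤ e' l then f (Function.update e' l (e' l + 1)) else 0) = 0 := by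
      split_ifs with h
      · by_contra hfz
        have h1 := hsupp _ hfz l (by rw [Function.update_self]; omega)
        have h2 := huniq l _ _ h1 hTl
        rw [Function.update_self, sign_pos (by omega), sign_neg hneg] at h2
        exact absurd h2 (by decide)
      · rfl
    have hB : (if e' l ≤ 0 then f (Function.update e' l (e' l - 1)) else 0) = f e := by
      rw [if_pos (by omega)]
      congr 1
      rw [hel, he', Function.update_idem]
      rw [show e l - s - 1 = e l by omega, Function.update_eq_self]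
    rw [hA, hB, zero_sub, neg_eq_zero] at hDe
    exact hne' hDe
  · have hs1 : s = 1 := Int.sign_eq_one_of_pos hpos
    have hB : (if e' l ≤ 0 then f (Function.update e' l (e' l - 1)) else 0) = 0 := by
      split_ifs with h
      · by_contra hfz
        have h1 := hsupp _ hfz l (by rw [Function.update_self]; omega)
        have h2 := huniq l _ _ h1 hTl
        rw [Function.update_self, sign_neg (by omega), sign_pos hpos] at h2
        exact absurd h2 (by decide)
      · rfl
    have hA : (if 0 ≤ e' l then f (Function.update e' l (e' l + 1)) else 0) = f e := by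
      rw [if_pos (by omega)]
      congr 1
      rw [hel, he', Function.update_idem]
      rw [show e l - s + 1 = e l by omega, Function.update_eq_self]
    rw [hA, hB, sub_zero] at hDe
    exact hne' hDe

private theorem STR_uv_self (a : ι × SignType) : uv a a.1 = ((a.2 : SignType) : ℤ) := by
  unfold uv
  rw [if_pos rfl]

private theorem STR_uv_ne (a : ι × SignType) {l : ι} (h : l ≠ a.1) : uv a l = 0 := by
  unfold uv
  rw [if_neg h]

private theorem STR_shift {k : ℕ} (W : Finset (Finset (ι × SignType))) (f : Fn ι)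
    (hn : ∀ e, f e ≠ 0 → ∑ l, (e l).natAbs = k + 1 ∧
      ∃ V ∈ W, ∀ l, e l ≠ 0 → (l, SignType.sign (e l)) ∈ V) (p : ι × SignType) (hp0 : p.2 ≠ 0)
    (e : ι → ℤ) (he : Xe (uv p) f e ≠ 0) : ∑ l, (e l).natAbs = k ∧
      ∃ V ∈ W.filter (fun V => p ∈ V), ∀ l, e l ≠ 0 → (l, SignType.sign (e l)) ∈ V := by
  rw [Xe_apply] at he
  by_cases hcond : ∀ l, 0 ≤ uv p l * e l
  swap
  · rw [if_neg hcond] at he
    exact absurd rfl he
  rw [if_pos hcond] at he
  obtain ⟨hsum, V, hV, h5⟩ := hn _ he
  have hp1 : (uv p + e) p.1 ≠ 0 ∧ SignType.sign ((uv p + e) p.1) = p.2 := by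
    rw [Pi.add_apply, STR_uv_self]
    have h6 := hcond p.1
    rw [STR_uv_self, mul_nonneg_iff] at h6
    revert hp0 h6
    generalize p.2 = s
    cases s
    · intro h7; exact absurd rfl h7
    · intro _ h8
      simp only [SignType.neg_eq_neg_one, SignType.coe_neg_one] at h8 ⊢
      exact ⟨by omega, sign_neg (by omega)⟩
    · intro _ h8
      simp only [SignType.pos_eq_one, SignType.coe_one] at h8 ⊢
      exact ⟨by omega, sign_pos (by omega)⟩
  have hpm := h5 p.1 hp1.1
  rw [hp1.2] at hpm
  refine ⟨?_, V, Finset.mem_filter.2 ⟨hV, hpm⟩, ?_⟩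
  · have h7 : ∑ l, ((uv p + e) l).natAbs = ∑ l, (uv p l).natAbs + ∑ l, (e l).natAbs := by
      rw [← Finset.sum_add_distrib]
      refine Finset.sum_congr rfl fun l _ => ?_
      have h1 := hcond l
      rw [mul_nonneg_iff] at h1
      rw [Pi.add_apply]
      omega
    have h8 : ∑ l, (uv p l).natAbs = 1 := by
      rw [Finset.sum_eq_single p.1 (fun l _ hl => by rw [STR_uv_ne p hl]; rfl)
        (fun h => absurd (Finset.mem_univ _) h), STR_uv_self]
      revert hp0
      generalize p.2 = s
      cases s <;> simp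
    omega
  · intro l hl
    have hsg : (uv p + e) l ≠ 0 ∧ SignType.sign ((uv p + e) l) = SignType.sign (e l) := by
      rw [Pi.add_apply]
      have h1 := hcond l
      rw [mul_nonneg_iff] at h1
      rcases lt_or_gt_of_ne hl with h9 | h9
      · refine ⟨by omega, ?_⟩
        rw [sign_neg h9, sign_neg (by omega)]
      · refine ⟨by omega, ?_⟩
        rw [sign_pos h9, sign_pos (by omega)]
    have h10 := h5 l hsg.1
    rw [hsg.2] at h10
    exact h10

private theorem STR_val (f : Fn ι) (e : ι → ℤ) (l : ι) (hl : e l ≠ 0) :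
    Xe (uv (l, SignType.sign (e l))) f (e - uv (l, SignType.sign (e l))) = f e := by
  rw [Xe_apply, if_pos]
  · congr 1
    abel
  · intro k
    rw [Pi.sub_apply]
    by_cases hk : k = l
    · subst hk
      rw [show uv (k, SignType.sign (e k)) k = ((SignType.sign (e k) : SignType) : ℤ) from
        STR_uv_self (k, SignType.sign (e k))]
      rcases lt_or_gt_of_ne hl with h9 | h9
      · rw [sign_neg h9]
        simp only [SignType.coe_neg_one]
        omega
      · rw [sign_pos h9]
        simp only [SignType.coe_one]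
        omega
    · rw [STR_uv_ne (l, SignType.sign (e l)) hk, zero_mul]

theorem stress {c : ι → E d} (hc : GenC c) {k : ℕ} (hk : 1 ≤ k)
    (W : Finset (Finset (ι × SignType))) (hW : W.card ≤ k)
    (hV : ∀ V ∈ W, V.card ≤ d ∧ ∀ p ∈ V, ∀ q ∈ V, p.1 = q.1 → p = q) (f : Fn ι)
    (hf : f ∈ Ker c) (hn : ∀ e, f e ≠ 0 → ∑ l, (e l).natAbs = k ∧
      ∃ V ∈ W, ∀ l, e l ≠ 0 → (l, SignType.sign (e l)) ∈ V) : f = 0 := by
  induction k generalizing W f with
  | zero => omega
  | succ k ih =>
    by_contra hf0
    -- all members of `W` contain the signed support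
    have hall : ∀ e, f e ≠ 0 → ∀ l, e l ≠ 0 → ∀ V ∈ W, (l, SignType.sign (e l)) ∈ V := by
      intro e he l hl V hVW
      by_contra hnot
      have hs0 : SignType.sign (e l) ≠ 0 := by
        rw [Ne, sign_eq_zero_iff]
        exact hl
      have hlt : (W.filter (fun V => (l, SignType.sign (e l)) ∈ V)).card < W.card := by
        apply Finset.card_lt_card
        refine ⟨Finset.filter_subset _ _, fun h => ?_⟩
        exact hnot (Finset.mem_filter.1 (h hVW)).2
      rcases Nat.eq_zero_or_pos k with hk0 | hk1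
      · -- `W` has at most one member
        have h1 : (W.filter (fun V => (l, SignType.sign (e l)) ∈ V)).card = 0 := by omega
        obtain ⟨-, V', hV', h2⟩ := hn e he
        have h3 : V' ∈ W.filter (fun V => (l, SignType.sign (e l)) ∈ V) :=
          Finset.mem_filter.2 ⟨hV', h2 l hl⟩
        rw [Finset.card_eq_zero.1 h1] at h3
        exact absurd h3 (Finset.notMem_empty _)
      · have h1 := ih hk1 (W.filter (fun V => (l, SignType.sign (e l)) ∈ V)) (by omega)
          (fun V hV' => hV V (Finset.mem_filter.1 hV').1) (Xe (uv (l, SignType.sign (e l))) f)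
          (Xe_Ker _ hf) (fun z hz => STR_shift W f hn (l, SignType.sign (e l)) hs0 z hz)
        have h2 := STR_val f e l hl
        rw [h1] at h2
        exact he h2.symm
    obtain ⟨e, he⟩ : ∃ e, f e ≠ 0 := by
      by_contra hcon
      push Not at hcon
      exact hf0 (funext hcon)
    obtain ⟨-, V, hVW, -⟩ := hn e he
    exact hf0 (ind_zero hc hk V (hV V hVW).1 (hV V hVW).2 f hf
      (fun z hz => ⟨(hn z hz).1, fun l hl => hall z hz l hl V hVW⟩))

end

end Pool.Agent.CTC
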