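import Pool.Agent.CTC.SH
import Pool.Agent.CTC.STR

/-!
# The stars of the cut facets are independent in degree `n`
-/

set_option autoImplicit false

open scoped BigOperators RealInnerProductSpace

namespace Pool.Agent.CTC

noncomputable section

open Classical

open Pool.Agent.KST (E Fn supp Le IsCell Cells Verts Simple Pol pt PP Gen Star VF Low Sweep sgn EE X
  D FF Par Ker S hh LowF Inside)

variable {ι : Type} [Fintype ι] {d : ℕ}

private theorem IND_mem_EE (C : Finset (ι → SignType)) (n : ℕ) (e : ι → ℤ) (h : e ∈ EE C n) :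
    (∑ l, (e l).natAbs = n) ∧ sgn e ∈ C := by
  unfold Pool.Agent.KST.EE at h
  rw [Finset.mem_filter] at h
  exact h.2

private theorem IND_neg_ne {s : SignType} (h : s ≠ 0) : -s ≠ 0 := by
  revert h
  cases s <;> decide

/-- the values of two facets meeting `a` agree -/
private theorem IND_uniq {b : ι → E d} {J : Finset ι} (hJ : SepC b J) {a p q : ι × SignType}
    (ha : a.1 ∈ J) (ha0 : a.2 ≠ 0) (hp : Meet b p a) (hq : Meet b q a) (h : p.1 = q.1) :
    p = q := by
  obtain ⟨hp0, t, ht, htp, hta⟩ := hp
  obtain ⟨hq0, t', ht', htq, hta'⟩ := hq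
  refine Prod.ext h ?_
  have htl : t p.1 ≠ 0 := by rw [htp]; exact hp0
  have htl' : t' p.1 ≠ 0 := by rw [h, htq]; exact hq0
  by_cases h1 : a.2 = 1
  · have h2 := hJ.opp a.1 ha t ht t' ht' (by rw [hta, h1]) (by rw [hta', h1]) p.1 htl htl'
    rw [← htp, ← htq, h2, h]
  · have h1' : -a.2 = 1 := by
      revert h1 ha0
      generalize a.2 = s
      cases s <;> decide
    have h2 := hJ.opp a.1 ha (-t) (Pool.Agent.KST.neg_mem_cells ht) (-t')
      (Pool.Agent.KST.neg_mem_cells ht') (by rw [Pi.neg_apply, hta, h1'])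
      (by rw [Pi.neg_apply, hta', h1']) p.1 (by rw [Pi.neg_apply]; exact IND_neg_ne htl)
      (by rw [Pi.neg_apply]; exact IND_neg_ne htl')
    rw [Pi.neg_apply, Pi.neg_apply, neg_inj] at h2
    rw [← htp, ← htq, h2, h]

private theorem IND_meet {b : ι → E d} {a : ι × SignType} {n : ℕ} {f : Fn ι}
    (hf : f ∈ FF (StarS b a) n) {e : ι → ℤ} (he : f e ≠ 0) :
    (∑ l, (e l).natAbs = n) ∧ ∀ l, e l ≠ 0 → Meet b (l, SignType.sign (e l)) a := by
  have h1 : e ∈ EE (StarS b a) n := by
    by_contra h
    exact he (hf e h)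
  obtain ⟨h2, h3⟩ := IND_mem_EE _ _ _ h1
  refine ⟨h2, fun l hl => ?_⟩
  obtain ⟨-, t, ht, hle, hta⟩ := Finset.mem_filter.1 h3
  have h4 : sgn e l ≠ 0 := by
    show SignType.sign (e l) ≠ 0
    rw [Ne, sign_eq_zero_iff]
    exact hl
  exact ⟨h4, t, ht, hle l h4, hta⟩

/-- ROW IND -/
theorem star_indep {b c : ι → E d} (hc : GenC c) {J : Finset ι} (hJ : SepC b J) {T : Finset ι}
    (hT : T ⊆ J) {n : ℕ} (hn : 1 ≤ n) (hF : Few b T n) (f : ι × SignType → Fn ι)
    (hf : ∀ a, a.1 ∈ T → a.2 ≠ 0 → f a ∈ FF (StarS b a) n ⊓ Ker c)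
    (hs : ∑ a ∈ Finset.univ.filter (fun a : ι × SignType => a.1 ∈ T ∧ a.2 ≠ 0), f a = 0) :
    ∀ a, a.1 ∈ T → a.2 ≠ 0 → f a = 0 := by
  intro a haT ha0
  -- the two stars at a point of the support
  have key : ∀ e, f a e ≠ 0 → ∃ a' : ι × SignType, a'.1 ∈ T ∧ a'.2 ≠ 0 ∧ a' ≠ a ∧
      ∀ l, e l ≠ 0 → Meet b (l, SignType.sign (e l)) a ∧ Meet b (l, SignType.sign (e l)) a' := by
    intro e he
    have h1 : ∑ x ∈ Finset.univ.filter (fun a : ι × SignType => a.1 ∈ T ∧ a.2 ≠ 0), f x e = 0 := by
      have := congrFun hs e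
      rw [Finset.sum_apply] at this
      exact this
    have h2 : ∃ a' ∈ Finset.univ.filter (fun a : ι × SignType => a.1 ∈ T ∧ a.2 ≠ 0),
        a' ≠ a ∧ f a' e ≠ 0 := by
      by_contra hcon
      push Not at hcon
      rw [Finset.sum_eq_single a (fun x hx hxa => hcon x hx hxa)
        (fun h => absurd (Finset.mem_filter.2 ⟨Finset.mem_univ a, haT, ha0⟩) h)] at h1
      exact he h1
    obtain ⟨a', ha', hne, hfe⟩ := h2
    obtain ⟨-, h3, h4⟩ := Finset.mem_filter.1 ha'
    have m1 := (IND_meet (hf a haT ha0).1 he).2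
    have m2 := (IND_meet (hf a' h3 h4).1 hfe).2
    exact ⟨a', h3, h4, hne, fun l hl => ⟨m1 l hl, m2 l hl⟩⟩
  -- a nonzero coordinate
  have hnz : ∀ e, f a e ≠ 0 → ∃ l, e l ≠ 0 := by
    intro e he
    by_contra hcon
    push Not at hcon
    have h1 := (IND_meet (hf a haT ha0).1 he).1
    rw [Finset.sum_eq_zero (fun l _ => by rw [hcon l]; rfl)] at h1
    omega
  rcases Nat.lt_or_ge 1 n with hn2 | hn1
  · -- the shifted functions vanish
    have hX : ∀ p : ι × SignType, p.2 ≠ 0 → Xe (uv p) (f a) = 0 := by
      intro p hp0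
      have hup : uv p p.1 = ((p.2 : SignType) : ℤ) := by
        unfold uv
        rw [if_pos rfl]
      have hun : ∀ l, l ≠ p.1 → uv p l = 0 := by
        intro l hl
        unfold uv
        rw [if_neg hl]
      refine stress hc (k := n - 1) (by omega)
        ((Finset.univ.filter (fun a' : ι × SignType => a'.1 ∈ T ∧ a'.2 ≠ 0 ∧ a' ≠ a ∧
          Meet b p a ∧ Meet b p a')).image
          (fun a' => Finset.univ.filter (fun q => Meet b q a ∧ Meet b q a'))) ?_ ?_ _
        (Xe_Ker _ (hf a haT ha0).2) ?_
      · refine Finset.card_image_le.trans ?_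
        by_cases hpa : Meet b p a
        · have h1 : (Finset.univ.filter (fun a' : ι × SignType => a'.1 ∈ T ∧ a'.2 ≠ 0 ∧ a' ≠ a ∧
              Meet b p a ∧ Meet b p a')) ⊆ (Finset.univ.filter (fun a' : ι × SignType =>
                a'.1 ∈ T ∧ a'.2 ≠ 0 ∧ Meet b p a')).erase a := by
            intro x hx
            obtain ⟨-, h2, h3, h4, -, h5⟩ := Finset.mem_filter.1 hx
            exact Finset.mem_erase.2 ⟨h4, Finset.mem_filter.2 ⟨Finset.mem_univ _, h2, h3, h5⟩⟩
          have h2 := Finset.card_le_card h1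
          rw [Finset.card_erase_of_mem (Finset.mem_filter.2
            ⟨Finset.mem_univ _, haT, ha0, hpa⟩)] at h2
          have h3 := hF p
          omega
        · have h1 : (Finset.univ.filter (fun a' : ι × SignType => a'.1 ∈ T ∧ a'.2 ≠ 0 ∧ a' ≠ a ∧
              Meet b p a ∧ Meet b p a')) = ∅ := by
            apply Finset.filter_eq_empty_iff.2
            rintro x - ⟨-, -, -, h5, -⟩
            exact hpa h5
          rw [h1]
          exact Nat.zero_le _
      · intro V hV
        obtain ⟨a', ha', rfl⟩ := Finset.mem_image.1 hV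
        obtain ⟨-, h2, h3, h4, -, -⟩ := Finset.mem_filter.1 ha'
        refine ⟨hJ.common a a' (hT haT) (hT h2) ha0 h3 (Ne.symm h4), ?_⟩
        intro q hq q' hq' hqq
        obtain ⟨-, h5, -⟩ := Finset.mem_filter.1 hq
        obtain ⟨-, h6, -⟩ := Finset.mem_filter.1 hq'
        exact IND_uniq hJ (hT haT) ha0 h5 h6 hqq
      · intro e he
        rw [Xe_apply] at he
        by_cases hcond : ∀ l, 0 ≤ uv p l * e l
        swap
        · rw [if_neg hcond] at he
          exact absurd rfl he
        rw [if_pos hcond] at he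
        obtain ⟨hsum, -⟩ := IND_meet (hf a haT ha0).1 he
        obtain ⟨a', h2, h3, h4, h5⟩ := key _ he
        -- the coordinate `p.1`
        have hp1 : (uv p + e) p.1 ≠ 0 ∧ SignType.sign ((uv p + e) p.1) = p.2 := by
          rw [Pi.add_apply, hup]
          have h6 := hcond p.1
          rw [hup, mul_nonneg_iff] at h6
          revert hp0 h6
          generalize p.2 = s
          cases s
          · intro h7; exact absurd rfl h7
          · intro _ h8
            simp only [SignType.neg_eq_neg_one, SignType.coe_neg_one] at h8 ⊢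
            exact ⟨by omega, sign_neg (by omega)⟩
          · intro _ h8
            simp only [SignType.pos_eq_one, SignType.coe_one] at h8 ⊢
            exact ⟨by omega, sign_pos (by omega)⟩
        have hpm := h5 p.1 hp1.1
        rw [hp1.2] at hpm
        refine ⟨?_, _, Finset.mem_image.2 ⟨a', Finset.mem_filter.2
          ⟨Finset.mem_univ _, h2, h3, h4, hpm.1, hpm.2⟩, rfl⟩, ?_⟩
        · have h7 : ∑ l, ((uv p + e) l).natAbs = ∑ l, (uv p l).natAbs + ∑ l, (e l).natAbs := by
            rw [← Finset.sum_add_distrib]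
            refine Finset.sum_congr rfl fun l _ => ?_
            have h1 := hcond l
            rw [mul_nonneg_iff] at h1
            rw [Pi.add_apply]
            omega
          have h8 : ∑ l, (uv p l).natAbs = 1 := by
            rw [Finset.sum_eq_single p.1 (fun l _ hl => by rw [hun l hl]; rfl)
              (fun h => absurd (Finset.mem_univ _) h), hup]
            revert hp0
            generalize p.2 = s
            cases s <;> simp
          omega
        · intro l hl
          have hsg : (uv p + e) l ≠ 0 ∧ SignType.sign ((uv p + e) l) = SignType.sign (e l) := by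
            rw [Pi.add_apply]
            have h1 := hcond l
            rw [mul_nonneg_iff] at h1
            rcases lt_or_gt_of_ne hl with h9 | h9
            · refine ⟨by omega, ?_⟩
              rw [sign_neg h9, sign_neg (by omega)]
            · refine ⟨by omega, ?_⟩
              rw [sign_pos h9, sign_pos (by omega)]
          have h10 := h5 l hsg.1
          rw [hsg.2] at h10
          exact Finset.mem_filter.2 ⟨Finset.mem_univ _, h10⟩
    funext e
    show f a e = 0
    by_contra he
    obtain ⟨l, hl⟩ := hnz e he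
    have hs0 : SignType.sign (e l) ≠ 0 := by
      rw [Ne, sign_eq_zero_iff]
      exact hl
    have h1 := congrFun (hX (l, SignType.sign (e l)) hs0) (e - uv (l, SignType.sign (e l)))
    rw [Xe_apply, if_pos] at h1
    · apply he
      have h2 : uv (l, SignType.sign (e l)) + (e - uv (l, SignType.sign (e l))) = e := by abel
      rw [h2] at h1
      exact h1
    · intro k
      rw [Pi.sub_apply]
      by_cases hk : k = l
      · subst hk
        have hu : uv (k, SignType.sign (e k)) k = ((SignType.sign (e k) : SignType) : ℤ) := by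
          unfold uv
          rw [if_pos rfl]
        rw [hu]
        rcases lt_or_gt_of_ne hl with h9 | h9
        · rw [sign_neg h9]
          simp only [SignType.coe_neg_one]
          omega
        · rw [sign_pos h9]
          simp only [SignType.coe_one]
          omega
      · have hu : uv (l, SignType.sign (e l)) k = 0 := by
          unfold uv
          rw [if_neg hk]
        rw [hu, zero_mul]
  · -- `n = 1`
    funext e
    show f a e = 0
    by_contra he
    obtain ⟨l, hl⟩ := hnz e he
    obtain ⟨a', h2, h3, h4, h5⟩ := key e he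
    obtain ⟨m1, m2⟩ := h5 l hl
    have h6 := hF (l, SignType.sign (e l))
    have h7 : ({a, a'} : Finset (ι × SignType)) ⊆ Finset.univ.filter
        (fun x : ι × SignType => x.1 ∈ T ∧ x.2 ≠ 0 ∧ Meet b (l, SignType.sign (e l)) x) := by
      intro x hx
      rw [Finset.mem_insert, Finset.mem_singleton] at hx
      rcases hx with rfl | rfl
      · exact Finset.mem_filter.2 ⟨Finset.mem_univ _, haT, ha0, m1⟩
      · exact Finset.mem_filter.2 ⟨Finset.mem_univ _, h2, h3, m2⟩
    have h8 := Finset.card_le_card h7
    rw [Finset.card_pair (Ne.symm h4)] at h8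
    omega

end

end Pool.Agent.CTC
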