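import Pool.Agent.CTC.SH
import Pool.Agent.KST.A5
import Pool.Agent.KST.G3
import Pool.Agent.KST.G4

/-!
# ROW ROW: the rows of the pairing span the kernel of the star of a signed facet
-/

set_option autoImplicit false

open scoped BigOperators RealInnerProductSpace

namespace Pool.Agent.CTC

noncomputable section

open Classical

open Pool.Agent.KST (E Fn supp Le IsCell Cells Verts Simple Pol pt PP Gen Star VF Low Sweep sgn EE X
  D FF Par Ker S hh LowF Inside)

variable {ι : Type} [Fintype ι] {d : ℕ}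

/-- a sweep stays a sweep for generic vectors (private copy of `sweep_gen`) -/
private theorem ROW_sweep_gen {b : ι → E d} {c : ι → E d} (hc : GenC c)
    {C V : Finset (ι → SignType)} {P : (ι → SignType) → Finset ι} {ht : (ι → SignType) → ℝ}
    (h : Sweep b C V P ht) : Sweep c C V P ht where
  zero := h.zero
  sub := h.sub
  card := h.card
  ind := by
    intro v hv
    have h1 := hc (supp v) (h.card v hv).le
    exact h1.comp (fun l : {l : ι // v l ≠ 0} => ⟨l.1, KST.G2_mem_supp.mpr l.2⟩)
      (fun x y hxy => Subtype.ext (congrArg (fun z => z.1) hxy))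
  psub := h.psub
  down := h.down
  ex := h.ex
  uniq := h.uniq
  up := h.up

private theorem ROW_mem_EE {C : Finset (ι → SignType)} {n : ℕ} {e : ι → ℤ} :
    e ∈ EE C n ↔ (∑ l, (e l).natAbs = n) ∧ sgn e ∈ C := by
  unfold EE
  rw [Finset.mem_filter]
  refine ⟨fun h => h.2, fun h => ⟨?_, h⟩⟩
  rw [Fintype.mem_piFinset]
  intro l
  rw [Finset.mem_Icc]
  have h1 : (e l).natAbs ≤ ∑ l, (e l).natAbs :=
    Finset.single_le_sum (f := fun l => (e l).natAbs) (fun _ _ => Nat.zero_le _)
      (Finset.mem_univ l)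
  have h2 := h.1
  omega

private theorem ROW_natAbs (s : SignType) : ((s : SignType) : ℤ).natAbs = if s = 0 then 0 else 1 := by
  cases s <;> decide

private theorem ROW_sign (s : SignType) : SignType.sign ((s : SignType) : ℤ) = s := by
  cases s <;> decide

private theorem ROW_cast_zero {s : SignType} : ((s : SignType) : ℤ) = 0 ↔ s = 0 := by
  cases s <;> decide

/-- the part of `u` outside `PP` and `j` -/
private def eu (b : ι → E d) (a0 : E d) (j : ι) (u : ι → SignType) : ι → ℤ :=
  fun l => if l ∈ PP b a0 u ∨ l = j then 0 else ((u l : SignType) : ℤ)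

/-- the part of `w` in `PP` -/
private def mw (b : ι → E d) (a0 : E d) (w : ι → SignType) : ι → ℤ :=
  fun l => if l ∈ PP b a0 w then ((w l : SignType) : ℤ) else 0

private theorem eu_mem {b : ι → E d} (hS : Simple b) (hb : Bornology.IsBounded (Pol b)) {a0 : E d}
    (ha : Gen b a0) {j : ι} (hl : LowF b a0 j) {u : ι → SignType} (hu : u ∈ VF b j) {n m : ℕ}
    (hnm : n + m = d) (hn : (PP b a0 u).card = n) :
    eu b a0 j u ∈ EE (Star b j) (m - 1) := by
  have hj : j ∉ PP b a0 u := KST.notMem_PP hS hb ha hl hu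
  obtain ⟨huV, huj⟩ := KST.G4_mem_VF.mp hu
  have huC : u ∈ Cells b := KST.G4_verts_cells huV
  have hcard : (supp u).card = d := (Finset.mem_filter.mp huV).2
  have hsub : PP b a0 u ⊆ supp u := Finset.filter_subset _ _
  rw [ROW_mem_EE]
  constructor
  · have h1 : ∑ l, (eu b a0 j u l).natAbs = ((supp u \ PP b a0 u).erase j).card := by
      rw [Finset.card_eq_sum_ones, ← Finset.sum_filter_add_sum_filter_not Finset.univ
        (fun l => l ∈ (supp u \ PP b a0 u).erase j) (fun l => (eu b a0 j u l).natAbs)]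
      have h2 : Finset.univ.filter (fun l => l ∈ (supp u \ PP b a0 u).erase j) =
          (supp u \ PP b a0 u).erase j := by
        ext l; simp
      rw [h2]
      have h3 : ∑ x ∈ Finset.univ.filter (fun l => ¬ l ∈ (supp u \ PP b a0 u).erase j),
          (eu b a0 j u x).natAbs = 0 := by
        refine Finset.sum_eq_zero fun l hl => ?_
        have hl' := (Finset.mem_filter.mp hl).2
        unfold eu
        split_ifs with h
        · rfl
        · rw [ROW_natAbs]
          rw [if_pos]
          by_contra h0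
          refine hl' (Finset.mem_erase.mpr ⟨fun h' => h (Or.inr h'), ?_⟩)
          exact Finset.mem_sdiff.mpr ⟨KST.G2_mem_supp.mpr h0, fun h' => h (Or.inl h')⟩
      rw [h3, add_zero]
      refine Finset.sum_congr rfl fun l hl => ?_
      obtain ⟨h4, h5⟩ := Finset.mem_erase.mp hl
      obtain ⟨h6, h7⟩ := Finset.mem_sdiff.mp h5
      unfold eu
      rw [if_neg (by rintro (h | h); exacts [h7 h, h4 h]), ROW_natAbs,
        if_neg (KST.G2_mem_supp.mp h6)]
    rw [h1, Finset.card_erase_of_mem (Finset.mem_sdiff.mpr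
      ⟨KST.G2_mem_supp.mpr (by rw [huj]; decide), hj⟩), Finset.card_sdiff_of_subset hsub, hcard, hn]
    omega
  · refine Finset.mem_filter.mpr ?_
    have hle : Le (sgn (eu b a0 j u)) u := by
      intro l hl
      unfold sgn eu at hl ⊢
      split_ifs at hl ⊢ with h
      · exact absurd (sign_zero) hl
      · exact (ROW_sign _).symm
    exact ⟨KST.cells_down hS huC hle, u, huC, hle, huj⟩

/-- the diagonal entry -/
private theorem ROW_diag {b : ι → E d} (hS : Simple b) (hb : Bornology.IsBounded (Pol b))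
    {a0 : E d} (ha : Gen b a0) {j : ι} (hl : LowF b a0 j) {u : ι → SignType} (hu : u ∈ VF b j)
    (φ : Fn ι) : Xe (eu b a0 j u + uv (j, 1)) φ (mw b a0 u) = φ (zv u) := by
  have hj : j ∉ PP b a0 u := KST.notMem_PP hS hb ha hl hu
  obtain ⟨huV, huj⟩ := KST.G4_mem_VF.mp hu
  have h1 : ∀ l, (eu b a0 j u + uv (j, 1)) l * mw b a0 u l = 0 := by
    intro l
    by_cases h : l ∈ PP b a0 u
    · have hlj : l ≠ j := fun h' => hj (h' ▸ h)
      have : (eu b a0 j u + uv (j, 1)) l = 0 := by
        simp [eu, uv, h, hlj]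
      rw [this, zero_mul]
    · have : mw b a0 u l = 0 := by simp [mw, h]
      rw [this, mul_zero]
  have h2 : eu b a0 j u + uv (j, 1) + mw b a0 u = zv u := by
    funext l
    by_cases h : l ∈ PP b a0 u
    · have hlj : l ≠ j := fun h' => hj (h' ▸ h)
      simp [eu, uv, mw, zv, h, hlj]
    · by_cases hlj : l = j
      · subst hlj
        simp [eu, uv, mw, zv, h, huj]
      · simp [eu, uv, mw, zv, h, hlj]
  rw [Xe_apply, if_pos (fun l => (h1 l).ge), h2]

/-- the matrix is triangular -/
private theorem ROW_tri {b : ι → E d} (hS : Simple b) (hb : Bornology.IsBounded (Pol b))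
    {a0 : E d} (ha : Gen b a0) {j : ι} (hl : LowF b a0 j) {u w : ι → SignType} (hu : u ∈ VF b j)
    (hw : w ∈ VF b j) {φ : Fn ι} (hφ : φ ∈ FF (Cells b) d)
    (hne : Xe (eu b a0 j u + uv (j, 1)) φ (mw b a0 w) ≠ 0) (hwu : w ≠ u) :
    ⟪a0, pt b w⟫ < ⟪a0, pt b u⟫ := by
  have hju : j ∉ PP b a0 u := KST.notMem_PP hS hb ha hl hu
  have hjw : j ∉ PP b a0 w := KST.notMem_PP hS hb ha hl hw
  obtain ⟨huV, huj⟩ := KST.G4_mem_VF.mp hu
  obtain ⟨hwV, hwj⟩ := KST.G4_mem_VF.mp hw
  rw [Xe_apply] at hne
  split_ifs at hne with hcomp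
  swap
  · exact absurd rfl hne
  -- the cell
  have hmem : eu b a0 j u + uv (j, 1) + mw b a0 w ∈ EE (Cells b) d := by
    by_contra h
    exact hne (hφ _ h)
  have hsC := (ROW_mem_EE.mp hmem).2
  set s := sgn (eu b a0 j u + uv (j, 1) + mw b a0 w) with hs
  have hval : ∀ l, s l = SignType.sign ((eu b a0 j u + uv (j, 1)) l + mw b a0 w l) := fun l => rfl
  -- values of s
  have hsw : ∀ l, l ∈ PP b a0 w → s l = w l := by
    intro l hl'
    have hlj : l ≠ j := fun h' => hjw (h' ▸ hl')
    have hwl : w l ≠ 0 := (KST.G1b_mem_PP.mp hl').1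
    have h1 := hcomp l
    have h2 : mw b a0 w l = ((w l : SignType) : ℤ) := by simp [mw, hl']
    have h3 : (eu b a0 j u + uv (j, 1)) l = eu b a0 j u l := by simp [uv, hlj]
    rw [hval, h2, h3]
    rw [h2, h3] at h1
    rcases SignType.trichotomy (w l) with h | h | h
    · rw [h] at h1 ⊢
      apply sign_neg
      simp only [SignType.coe_neg, SignType.coe_one] at h1 ⊢
      omega
    · exact absurd h hwl
    · rw [h] at h1 ⊢
      apply sign_pos
      simp only [SignType.coe_one] at h1 ⊢
      omega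
  have hsj : s j = 1 := by
    rw [hval]
    have h2 : mw b a0 w j = 0 := by simp [mw, hjw]
    have h3 : (eu b a0 j u + uv (j, 1)) j = 1 := by simp [uv, eu]
    rw [h2, h3]
    decide
  have hsu : ∀ l, l ∉ PP b a0 u → u l ≠ 0 → s l = u l := by
    intro l h0 hul
    by_cases hlj : l = j
    · subst hlj; rw [hsj, huj]
    · have h1 := hcomp l
      have h3 : (eu b a0 j u + uv (j, 1)) l = ((u l : SignType) : ℤ) := by
        simp [uv, hlj, eu, h0]
      rw [hval, h3]
      rw [h3] at h1
      rcases SignType.trichotomy (u l) with h | h | h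
      · rw [h] at h1 ⊢
        apply sign_neg
        simp only [SignType.coe_neg, SignType.coe_one] at h1 ⊢
        omega
      · exact absurd h hul
      · rw [h] at h1 ⊢
        apply sign_pos
        simp only [SignType.coe_one] at h1 ⊢
        omega
  -- a vertex of the cell
  obtain ⟨v, hvV, hvs, -⟩ := KST.exists_min hS hb a0 hsC
  -- w is the lowest vertex of a face containing v
  have hA : ¬ ⟪a0, pt b v⟫ < ⟪a0, pt b w⟫ ∧ (pt b v ≠ pt b w → ⟪a0, pt b w⟫ < ⟪a0, pt b v⟫) := by
    set s' : ι → SignType := fun l => if l ∈ PP b a0 w ∨ l = j then w l else 0 with hs'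
    have hlow : Low (PP b a0) w s' := by
      constructor
      · intro l hl'
        by_cases h : l ∈ PP b a0 w ∨ l = j
        · simp [hs', h]
        · exact absurd (by simp [hs', h]) hl'
      · intro l hl'
        simp only [hs', hl', true_or, if_true]
        exact (KST.G1b_mem_PP.mp hl').1
    have hs'v : Le s' v := by
      intro l hl'
      have h : l ∈ PP b a0 w ∨ l = j := by
        by_contra h
        exact hl' (by simp [hs', h])
      have h5 : s' l = w l := by simp [hs', h]
      rw [h5]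
      have h6 : s l = w l := by
        rcases h with h | h
        · exact hsw l h
        · rw [h, hsj, hwj]
      rw [← h6]
      refine hvs l ?_
      rw [h6, ← h5]
      exact hl'
    refine ⟨KST.G4_le hS ha hwV hvV hlow hs'v, fun hne' => ?_⟩
    have hc := KST.isCell_pt (KST.G4_verts_cells hvV)
    refine KST.low_lt hS ha hwV hlow (KST.isCell_pol hc) (fun l hl' => ?_) hne'
    have h1 := hs'v l hl'
    rw [← h1]
    exact (hc l).2 (by rw [h1]; exact hl')
  -- u is the highest vertex of a face containing v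
  have hB : ¬ ⟪-a0, pt b v⟫ < ⟪-a0, pt b u⟫ ∧
      (pt b v ≠ pt b u → ⟪-a0, pt b u⟫ < ⟪-a0, pt b v⟫) := by
    have hPP := KST.PP_neg ha huV
    set s' : ι → SignType := fun l => if l ∈ PP b a0 u then 0 else u l with hs'
    have hlow : Low (PP b (-a0)) u s' := by
      constructor
      · intro l hl'
        by_cases h : l ∈ PP b a0 u
        · exact absurd (by simp [hs', h]) hl'
        · simp [hs', h]
      · intro l hl'
        rw [hPP] at hl'
        obtain ⟨h1, h2⟩ := Finset.mem_sdiff.mp hl'
        simp only [hs', h2, if_false]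
        exact KST.G2_mem_supp.mp h1
    have hs'v : Le s' v := by
      intro l hl'
      have h : l ∉ PP b a0 u := by
        intro h
        exact hl' (by simp [hs', h])
      have h5 : s' l = u l := by simp [hs', h]
      rw [h5]
      have h6 : s l = u l := hsu l h (by rw [← h5]; exact hl')
      rw [← h6]
      refine hvs l ?_
      rw [h6, ← h5]
      exact hl'
    refine ⟨KST.G4_le hS (KST.gen_neg ha) huV hvV hlow hs'v, fun hne' => ?_⟩
    have hc := KST.isCell_pt (KST.G4_verts_cells hvV)
    refine KST.low_lt hS (KST.gen_neg ha) huV hlow (KST.isCell_pol hc) (fun l hl' => ?_) hne'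
    have h1 := hs'v l hl'
    rw [← h1]
    exact (hc l).2 (by rw [h1]; exact hl')
  simp only [inner_neg_left] at hB
  by_cases hvw : pt b v = pt b w
  · by_cases hvu : pt b v = pt b u
    · exfalso
      apply hwu
      have h1 := KST.isCell_pt (KST.G4_verts_cells hwV)
      have h2 := KST.isCell_pt (KST.G4_verts_cells huV)
      rw [← hvw, hvu] at h1
      exact KST.isCell_inj h1 h2
    · have := hB.2 hvu
      rw [hvw] at this
      linarith
  · have h1 := hA.2 hvw
    have h2 := hB.1
    linarith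

omit [Fintype ι] in
/-- an upper triangular family is linearly independent -/
private theorem ROW_indep {κ : Type} [Fintype κ] (g : κ → Fn ι) (x : κ → (ι → ℤ)) (ht : κ → ℝ)
    (hd : ∀ u, g u (x u) ≠ 0) (htri : ∀ u w, g u (x w) ≠ 0 → w ≠ u → ht w < ht u) :
    LinearIndependent ℝ g := by
  rw [Fintype.linearIndependent_iff]
  intro lam hlam
  by_contra hcon
  push Not at hcon
  obtain ⟨i0, hi0⟩ := hcon
  obtain ⟨w, hw, hmax⟩ := Finset.exists_max_image (Finset.univ.filter (fun u => lam u ≠ 0)) ht
    ⟨i0, by simpa using hi0⟩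
  have hw' : lam w ≠ 0 := (Finset.mem_filter.mp hw).2
  have h1 := congrFun hlam (x w)
  rw [Finset.sum_apply, Finset.sum_eq_single w] at h1
  · simp only [Pi.smul_apply, smul_eq_mul, Pi.zero_apply, mul_eq_zero] at h1
    rcases h1 with h1 | h1
    · exact hw' h1
    · exact hd w h1
  · intro u _ huw
    simp only [Pi.smul_apply, smul_eq_mul, mul_eq_zero]
    by_contra hcon
    push Not at hcon
    have h2 := htri u w hcon.2 (Ne.symm huw)
    have h3 := hmax u (by simpa using hcon.1)
    linarith
  · intro h; exact absurd (Finset.mem_univ w) h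

private theorem rows_span_one {b c : ι → E d} (hS : Simple b) (hb : Bornology.IsBounded (Pol b))
    (hc : GenC c) {φ : Fn ι} (hφ : Top b c φ) (j : ι) {n m : ℕ}
    (hnm : n + m = d) (hm : 1 ≤ m) :
    FF (StarS b (j, 1)) n ⊓ Ker c ≤
      Submodule.span ℝ {g | ∃ e ∈ EE (StarS b (j, 1)) (m - 1), g = Xe (e + uv (j, 1)) φ} := by
  by_cases hne : ∃ t ∈ Cells b, t j = 1
  swap
  · intro f hf
    have h0 : f = 0 := by
      funext e
      refine hf.1 e fun he => hne ?_
      obtain ⟨-, t, ht, -, h2⟩ := Finset.mem_filter.mp (ROW_mem_EE.mp he).2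
      exact ⟨t, ht, h2⟩
    rw [h0]
    exact Submodule.zero_mem _
  obtain ⟨a0, ha, hl⟩ := KST.exists_low hS j
  have hsw := ROW_sweep_gen hc (KST.sweep_star hS hb ha hl hne)
  have hdim := KST.finrank_ker hsw n
  -- the family
  let κ := {u : ι → SignType // u ∈ (VF b j).filter (fun u => (PP b a0 u).card = n)}
  have hκ : ∀ u : κ, u.1 ∈ VF b j ∧ (PP b a0 u.1).card = n := fun u => Finset.mem_filter.mp u.2
  let g : κ → Fn ι := fun u => Xe (eu b a0 j u.1 + uv (j, 1)) φ
  have he : ∀ u : κ, eu b a0 j u.1 ∈ EE (StarS b (j, 1)) (m - 1) := by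
    intro u
    rw [StarS_one]
    exact eu_mem hS hb ha hl (hκ u).1 hnm (hκ u).2
  have hgm : ∀ u : κ, g u ∈ FF (StarS b (j, 1)) n ⊓ Ker c := fun u =>
    (Xe_row hS hφ.1 (j, 1) (show (1 : SignType) ≠ 0 by decide) hnm hm (he u)).1
  have hind : LinearIndependent ℝ g := by
    refine ROW_indep g (fun u => mw b a0 u.1) (fun u => ⟪a0, pt b u.1⟫) (fun u => ?_)
      (fun u w h1 h2 => ?_)
    · have := ROW_diag hS hb ha hl (hκ u).1 φ
      show Xe (eu b a0 j u.1 + uv (j, 1)) φ (mw b a0 u.1) ≠ 0
      rw [this]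
      exact hφ.2 u.1 (KST.G4_mem_VF.mp (hκ u).1).1
    · exact ROW_tri hS hb ha hl (hκ u).1 (hκ w).1 hφ.1.1 h1 (fun h => h2 (Subtype.ext h))
  -- the span
  have hcard : Fintype.card κ = hh (VF b j) (PP b a0) n := by
    rw [Fintype.card_coe]
    rfl
  have hspan : Submodule.span ℝ (Set.range g) = FF (StarS b (j, 1)) n ⊓ Ker c := by
    have hfin : FiniteDimensional ℝ ↥(FF (StarS b (j, 1)) n ⊓ Ker c) := by
      have := KST.FF_fin (StarS b (j, 1)) n
      exact Submodule.finiteDimensional_of_le inf_le_left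
    refine Submodule.eq_of_le_of_finrank_eq ?_ ?_
    · rw [Submodule.span_le]
      rintro _ ⟨u, rfl⟩
      exact hgm u
    · rw [finrank_span_eq_card hind, hcard, ← hdim, StarS_one]
  rw [← hspan]
  refine Submodule.span_mono ?_
  rintro _ ⟨u, rfl⟩
  exact ⟨_, he u, rfl⟩

theorem rows_span {b c : ι → E d} (hS : Simple b) (hb : Bornology.IsBounded (Pol b))
    (hc : GenC c) {φ : Fn ι} (hφ : Top b c φ) (a : ι × SignType) (ha : a.2 ≠ 0) {n m : ℕ}
    (hnm : n + m = d) (hm : 1 ≤ m) :
    FF (StarS b a) n ⊓ Ker c ≤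
      Submodule.span ℝ {g | ∃ e ∈ EE (StarS b a) (m - 1), g = Xe (e + uv a) φ} := by
  obtain ⟨j, σ⟩ := a
  rcases SignType.trichotomy σ with h | h | h
  · subst h
    intro f hf
    -- the reflected top function
    have hφ' : Top b c (ng φ) := by
      refine ⟨⟨ng_Cells hφ.1.1, ng_Ker hφ.1.2⟩, fun v hv => ?_⟩
      have h1 : ng φ (zv v) = φ (zv (-v)) := by
        show φ (-(zv v)) = φ (zv (-v))
        congr 1
        funext l
        simp [zv]
      rw [h1]
      refine hφ.2 (-v) ?_
      have h2 := Finset.mem_filter.mp hv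
      refine Finset.mem_filter.mpr ⟨KST.neg_mem_cells h2.1, ?_⟩
      rw [← h2.2]
      congr 1
      ext l
      simp [supp]
    have hf' : ng f ∈ FF (StarS b (j, 1)) n ⊓ Ker c := by
      refine ⟨?_, ng_Ker hf.2⟩
      have := ng_StarS (j, (-1 : SignType)) hf.1
      simpa using this
    have h1 := rows_span_one hS hb hc hφ' j hnm hm hf'
    -- the reflection as a linear map
    let N : Fn ι →ₗ[ℝ] Fn ι :=
      { toFun := ng
        map_add' := fun _ _ => rfl
        map_smul' := fun _ _ => rfl }
    have h2 : N (ng f) ∈ Submodule.map N (Submodule.span ℝ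
        {g | ∃ e ∈ EE (StarS b (j, 1)) (m - 1), g = Xe (e + uv (j, 1)) (ng φ)}) :=
      Submodule.mem_map_of_mem h1
    have h3 : N (ng f) = f := ng_ng f
    rw [h3, Submodule.map_span] at h2
    refine Submodule.span_mono ?_ h2
    rintro _ ⟨_, ⟨e, he, rfl⟩, rfl⟩
    refine ⟨-e, ?_, ?_⟩
    · obtain ⟨h4, h5⟩ := ROW_mem_EE.mp he
      refine ROW_mem_EE.mpr ⟨by rw [← h4]; simp, ?_⟩
      obtain ⟨h6, t, ht, hst, htj⟩ := Finset.mem_filter.mp h5
      have hs : sgn (-e) = -sgn e := by
        funext l
        exact Left.sign_neg (e l)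
      rw [hs]
      refine Finset.mem_filter.mpr ⟨KST.neg_mem_cells h6, -t, KST.neg_mem_cells ht, ?_, ?_⟩
      · intro l hl
        have h7 : sgn e l ≠ 0 := by
          intro h8
          exact hl (by simp [h8])
        simp [hst l h7]
      · simp only [Pi.neg_apply]
        rw [htj]
    · show ng (Xe (e + uv (j, 1)) (ng φ)) = Xe (-e + uv (j, -1)) φ
      rw [ng_Xe, ng_ng]
      congr 2
      funext l
      by_cases hl : l = j <;> simp [uv, hl]
      ring
  · exact absurd h ha
  · subst h
    exact rows_span_one hS hb hc hφ j hnm hm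

end

end Pool.Agent.CTC
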