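import Pool.Agent.CTC.Defs
import Pool.Agent.CTC.SH
import Pool.Agent.CTC.IND
import Pool.Agent.CTC.ROW
import Pool.Agent.KST.G0

/-!
# CTC: surjectivity onto the stars
-/

set_option autoImplicit false

open scoped BigOperators RealInnerProductSpace

namespace Pool.Agent.CTC

noncomputable section

open Classical

open Pool.Agent.KST (E Fn supp Le IsCell Cells Verts Simple Pol pt PP Gen Star VF Low Sweep sgn EE X
  D FF Par Ker S hh LowF Inside)

variable {ι : Type} [Fintype ι] {d : ℕ}

/-- vectors of the star of `a` are compatible with `uv a` -/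
private theorem SUR_compat {b : ι → E d} (a : ι × SignType) {k : ℕ}
    {e : ι → ℤ} (he : e ∈ EE (StarS b a) k) : 0 ≤ ((a.2 : SignType) : ℤ) * e a.1 := by
  have h1 : sgn e ∈ StarS b a := (Finset.mem_filter.mp he).2.2
  obtain ⟨-, t, -, hle, hta⟩ := Finset.mem_filter.mp h1
  by_cases h0 : e a.1 = 0
  · rw [h0, mul_zero]
  · have h2 : sgn e a.1 ≠ 0 := by
      unfold sgn
      intro h
      exact h0 (sign_eq_zero_iff.mp h)
    have h3 : a.2 = SignType.sign (e a.1) := by
      rw [← hta]
      exact hle a.1 h2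
    rw [h3, sign_mul_self]
    exact abs_nonneg _

private theorem SUR_swap (a : ι × SignType) (φ : Fn ι) {e e' : ι → ℤ}
    (he : 0 ≤ ((a.2 : SignType) : ℤ) * e a.1) (he' : 0 ≤ ((a.2 : SignType) : ℤ) * e' a.1)
    (ha : a.2 ≠ 0) :
    Xe (e + uv a) φ e' = Xe (e' + uv a) φ e := by
  rw [Xe_apply, Xe_apply]
  have key : (∀ l, 0 ≤ (e + uv a) l * e' l) ↔ (∀ l, 0 ≤ (e' + uv a) l * e l) := by
    constructor <;> intro h l <;> have hl := h l <;> simp only [Pi.add_apply, uv] at hl ⊢
    · by_cases hla : l = a.1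
      · subst hla
        simp only [if_true] at hl ⊢
        obtain ⟨j, s⟩ := a
        simp only at he he' ha hl ⊢
        cases s
        · exact absurd rfl ha
        · simp at he he' ⊢
          nlinarith
        · simp at he he' ⊢
          nlinarith
      · rw [if_neg hla] at hl ⊢
        linarith [mul_comm (e l + 0) (e' l)]
    · by_cases hla : l = a.1
      · subst hla
        simp only [if_true] at hl ⊢
        obtain ⟨j, s⟩ := a
        simp only at he he' ha hl ⊢
        cases s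
        · exact absurd rfl ha
        · simp at he he' ⊢
          nlinarith
        · simp at he he' ⊢
          nlinarith
      · rw [if_neg hla] at hl ⊢
        linarith [mul_comm (e l + 0) (e' l)]
  have h2 : e + uv a + e' = e' + uv a + e := by
    funext l
    simp only [Pi.add_apply]
    ring
  simp only [key, h2]

private theorem SUR_two (a : ι × SignType) (φ : Fn ι) {e e' : ι → ℤ}
    (he' : 0 ≤ ((a.2 : SignType) : ℤ) * e' a.1) :
    Xe (uv a) (Xe e φ) e' = Xe (e' + uv a) φ e := by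
  rw [Xe_apply, if_pos, Xe_symm, add_comm]
  intro l
  unfold uv
  split_ifs with h
  · rw [h]; exact he'
  · simp

private theorem SUR_natAbs {C : Finset (ι → SignType)} {n : ℕ} {e : ι → ℤ} (he : e ∈ EE C n) :
    ∑ l, (e l).natAbs = n := (Finset.mem_filter.mp he).2.1

private theorem SUR_sub {b : ι → E d} (a : ι × SignType) {k : ℕ} :
    EE (StarS b a) k ⊆ EE (Cells b) k := by
  intro e he
  unfold EE at he ⊢
  rw [Finset.mem_filter] at he ⊢
  exact ⟨he.1, he.2.1, (Finset.mem_filter.mp he.2.2).1⟩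

/-- weights on a finite set whose functional kills a vector exactly if the vector is in a span -/
private theorem SUR_dual {α β : Type} [Fintype α] (s : Finset β) (v : β → α → ℝ) (x : α → ℝ)
    (h : ∀ w : α → ℝ, (∀ j ∈ s, ∑ i, w i * v j i = 0) → ∑ i, w i * x i = 0) :
    ∃ u : β → ℝ, x = ∑ j ∈ s, u j • v j := by
  have hx : x ∈ Submodule.span ℝ (v '' (s : Set β)) := by
    rw [← Subspace.forall_mem_dualAnnihilator_apply_eq_zero_iff]
    intro φ hφ
    have e : ∀ y : α → ℝ, φ y = ∑ i, φ (Pi.single i 1) * y i := by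
      intro y
      conv_lhs => rw [LinearMap.pi_apply_eq_sum_univ φ y]
      refine Finset.sum_congr rfl (fun i _ => ?_)
      rw [smul_eq_mul, mul_comm]
      congr 2
      funext k
      simp only [Pi.single_apply, eq_comm]
    rw [e x]
    refine h (fun i => φ (Pi.single i 1)) ?_
    intro j hj
    rw [← e (v j)]
    exact (Submodule.mem_dualAnnihilator φ).mp hφ _ (Submodule.subset_span ⟨j, hj, rfl⟩)
  obtain ⟨c, hc⟩ := (Submodule.mem_span_image_finset_iff_exists_fun' ℝ).mp hx
  exact ⟨c, hc.symm⟩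

theorem surj {b c : ι → E d} (hS : Simple b) (hb : Bornology.IsBounded (Pol b))
    (hc : GenC c) {φ : Fn ι} (hφ : Top b c φ) {J : Finset ι} (hJ : SepC b J) {T : Finset ι}
    (hT : T ⊆ J) {n m : ℕ} (hnm : n + m = d) (hn : 1 ≤ n) (hm : 1 ≤ m) (hF : Few b T n)
    (t : ι → Fn ι) (ht : ∀ j ∈ T, t j ∈ FF (Star b j) (m - 1) ⊓ Ker c) :
    ∃ f ∈ FF (Cells b) m ⊓ Ker c ⊓ Par ι (-1), ∀ j ∈ T, Xe (uv (j, 1)) f = t j := by
  have hdown : ∀ s t, t ∈ Cells b → Le s t → s ∈ Cells b :=
    fun s t h1 h2 => Pool.Agent.KST.cells_down hS h1 h2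
  have hφF : φ ∈ FF (Cells b) d := (Submodule.mem_inf.mp hφ.1).1
  have hφK : φ ∈ Ker c := (Submodule.mem_inf.mp hφ.1).2
  set A : Finset (ι × SignType) :=
    Finset.univ.filter (fun a : ι × SignType => a.1 ∈ T ∧ a.2 ≠ 0) with hA
  have hAmem : ∀ a, a ∈ A ↔ a.1 ∈ T ∧ a.2 ≠ 0 := by intro a; simp [hA]
  have gen : ∀ (t' : ι × SignType → Fn ι), (∀ a ∈ A, t' a ∈ FF (StarS b a) (m - 1) ⊓ Ker c) →
      ∃ g ∈ FF (Cells b) m ⊓ Ker c, ∀ a ∈ A, Xe (uv a) g = t' a := by
    intro t' ht'
    have hdual := SUR_dual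
      (α := (a : {a // a ∈ A}) × {e // e ∈ EE (StarS b a.1) (m - 1)}) (EE (Cells b) n)
      (fun e p => Xe (uv p.1.1) (Xe e φ) p.2.1) (fun p => t' p.1.1 p.2.1) ?_
    · obtain ⟨u, hu⟩ := hdual
      have hg : ∑ e ∈ EE (Cells b) n, u e • Xe e φ ∈ FF (Cells b) m ⊓ Ker c := by
        refine Submodule.sum_mem _ (fun e he => Submodule.smul_mem _ _ ?_)
        refine Submodule.mem_inf.mpr ⟨?_, Xe_Ker e hφK⟩
        refine Xe_FF hdown e (SUR_natAbs he) ?_
        rw [add_comm, hnm]; exact hφF
      refine ⟨_, hg, ?_⟩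
      intro a ha
      have h1 : Xe (uv a) (∑ e ∈ EE (Cells b) n, u e • Xe e φ) ∈ FF (StarS b a) (m - 1) := by
        refine Xe_star hS a ((hAmem a).mp ha).2 ?_
        rw [Nat.sub_add_cancel hm]
        exact (Submodule.mem_inf.mp hg).1
      funext e'
      by_cases he' : e' ∈ EE (StarS b a) (m - 1)
      · have h2 := congrFun hu ⟨⟨a, ha⟩, ⟨e', he'⟩⟩
        simp only [Finset.sum_apply, Pi.smul_apply] at h2
        rw [h2, map_sum, Finset.sum_apply]
        refine Finset.sum_congr rfl (fun e _ => ?_)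
        rw [map_smul, Pi.smul_apply]
      · rw [h1 e' he', (Submodule.mem_inf.mp (ht' a ha)).1 e' he']
    · intro w hw
      set f : ι × SignType → Fn ι := fun a =>
        if h : a ∈ A then ∑ e : {e // e ∈ EE (StarS b a) (m - 1)},
          w ⟨⟨a, h⟩, e⟩ • Xe (e.1 + uv a) φ else 0 with hf
      have hfa : ∀ (a : ι × SignType) (h : a ∈ A), f a =
          ∑ e : {e // e ∈ EE (StarS b a) (m - 1)}, w ⟨⟨a, h⟩, e⟩ • Xe (e.1 + uv a) φ := by
        intro a h
        simp only [hf, dif_pos h]
      have hfm : ∀ a, a.1 ∈ T → a.2 ≠ 0 → f a ∈ FF (StarS b a) n ⊓ Ker c := by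
        intro a h1 h2
        rw [hfa a ((hAmem a).mpr ⟨h1, h2⟩)]
        refine Submodule.sum_mem _ (fun e _ => Submodule.smul_mem _ _ ?_)
        exact (Xe_row hS hφ.1 a h2 hnm hm e.2).1
      have hsum : ∑ a ∈ A, f a = 0 := by
        funext e
        rw [Finset.sum_apply]
        by_cases he : e ∈ EE (Cells b) n
        · have h1 := hw e he
          rw [Fintype.sum_sigma] at h1
          rw [Pi.zero_apply, ← h1, ← Finset.sum_coe_sort A]
          refine Finset.sum_congr rfl (fun a _ => ?_)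
          rw [hfa a.1 a.2, Finset.sum_apply]
          refine Finset.sum_congr rfl (fun e'' _ => ?_)
          rw [Pi.smul_apply, smul_eq_mul, SUR_two a.1 φ (SUR_compat a.1 e''.2)]
        · rw [Pi.zero_apply]
          refine Finset.sum_eq_zero (fun a ha => ?_)
          have h1 := (Submodule.mem_inf.mp (hfm a ((hAmem a).mp ha).1 ((hAmem a).mp ha).2)).1
          exact h1 e (fun h => he (SUR_sub a h))
      have hz := star_indep hc hJ hT hn hF f hfm hsum
      rw [Fintype.sum_sigma]
      refine Finset.sum_eq_zero (fun a _ => ?_)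
      have ha := (hAmem a.1).mp a.2
      set L : Fn ι →ₗ[ℝ] ℝ := ∑ e : {e // e ∈ EE (StarS b a.1) (m - 1)},
        w ⟨a, e⟩ • LinearMap.proj e.1 with hL
      have hLa : ∀ g : Fn ι, L g = ∑ e : {e // e ∈ EE (StarS b a.1) (m - 1)},
          w ⟨a, e⟩ * g e.1 := by
        intro g
        simp [hL, LinearMap.sum_apply]
      have hspan := rows_span hS hb hc hφ a.1 ha.2 (n := m - 1) (m := n + 1) (by omega) (by omega)
      have hle : Submodule.span ℝ {g | ∃ e ∈ EE (StarS b a.1) (n + 1 - 1),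
          g = Xe (e + uv a.1) φ} ≤ LinearMap.ker L := by
        rw [Submodule.span_le]
        rintro g ⟨e, he, rfl⟩
        rw [SetLike.mem_coe, LinearMap.mem_ker, hLa]
        have h0 := congrFun (hz a.1 ha.1 ha.2) e
        rw [hfa a.1 a.2, Finset.sum_apply, Pi.zero_apply] at h0
        rw [← h0]
        refine Finset.sum_congr rfl (fun e'' _ => ?_)
        rw [Pi.smul_apply, smul_eq_mul,
          SUR_swap a.1 φ (SUR_compat a.1 he) (SUR_compat a.1 e''.2) ha.2]
      have := hle (hspan (ht' a.1 a.2))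
      rw [LinearMap.mem_ker, hLa] at this
      exact this
  -- the odd solution
  obtain ⟨g, hg, hgt⟩ := gen (fun a => if a.2 = 1 then t a.1 else - ng (t a.1)) (by
    intro a ha
    obtain ⟨h1, h2⟩ := (hAmem a).mp ha
    have h3 := ht a.1 h1
    obtain ⟨j, s⟩ := a
    simp only at h1 h2 h3 ⊢
    by_cases hs : s = 1
    · rw [if_pos hs, hs, StarS_one]
      exact h3
    · rw [if_neg hs]
      have hs' : s = -1 := by
        cases s
        · exact absurd rfl h2
        · rfl
        · exact absurd rfl hs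
      refine Submodule.neg_mem _ (Submodule.mem_inf.mpr ⟨?_, ng_Ker (Submodule.mem_inf.mp h3).2⟩)
      have h4 := (Submodule.mem_inf.mp h3).1
      rw [← StarS_one] at h4
      have h5 := ng_StarS (j, 1) h4
      rw [hs']
      exact h5)
  obtain ⟨hgF, hgK⟩ := Submodule.mem_inf.mp hg
  refine ⟨(1 / 2 : ℝ) • (g - ng g), ?_, ?_⟩
  · refine Submodule.mem_inf.mpr ⟨Submodule.smul_mem _ _ (Submodule.mem_inf.mpr ⟨?_, ?_⟩), ?_⟩
    · exact Submodule.sub_mem _ hgF (ng_Cells hgF)
    · exact Submodule.sub_mem _ hgK (ng_Ker hgK)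
    · intro e
      simp only [Pi.smul_apply, Pi.sub_apply, ng, neg_neg, smul_eq_mul]
      ring
  · intro j hj
    have h1 := hgt (j, 1) ((hAmem _).mpr ⟨hj, by simp⟩)
    have h2 := hgt (j, -1) ((hAmem _).mpr ⟨hj, by simp⟩)
    simp only [if_true] at h1
    have h3 : ¬ ((-1 : SignType) = 1) := by decide
    rw [if_neg h3] at h2
    have h4 : Xe (uv (j, 1)) (ng g) = - t j := by
      have e1 : (uv (j, (1 : SignType)) : ι → ℤ) = - uv (j, (-1 : SignType)) := by
        funext l
        simp only [uv, Pi.neg_apply]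
        split_ifs <;> simp
      rw [e1, ← ng_Xe, h2]
      funext e
      have := congrFun (ng_ng (t j)) e
      simp only [ng, Pi.neg_apply, neg_neg] at this ⊢
    rw [map_smul, map_sub, h1, h4]
    funext e
    simp only [Pi.smul_apply, Pi.sub_apply, Pi.neg_apply, smul_eq_mul]
    ring

end

end Pool.Agent.CTC
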