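import Pool.Agent.CTC.Defs
import Pool.Agent.CTC.SH
import Pool.Agent.CTC.TOP
import Pool.Agent.CTC.SUR
import Pool.Agent.KST.A5

/-! # ROW STP: the key inequality -/

set_option autoImplicit false

open scoped BigOperators RealInnerProductSpace

namespace Pool.Agent.CTC

noncomputable section

open Classical

open Pool.Agent.KST (E Fn supp Le IsCell Cells Verts Simple Pol pt PP Gen Star VF Low Sweep sgn EE X
  D FF Par Ker S hh LowF Inside FF_fin)

variable {ι : Type} [Fintype ι] {d : ℕ}

omit [Fintype ι] in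
private theorem STP_ng_add (f g : Fn ι) : ng (f + g) = ng f + ng g := rfl

omit [Fintype ι] in
private theorem STP_ng_smul (r : ℝ) (f : Fn ι) : ng (r • f) = r • ng f := rfl

/-- a function of the star of `w` vanishes at vectors with nonzero coordinate `j` -/
private theorem STP_vanish {b : ι → E d} {J : Finset ι} (hJ : SepC b J) {j w : ι} (hj : j ∈ J)
    (hw : w ∈ J) (hjw : j ≠ w) {n : ℕ} {f : Fn ι} (hf : f ∈ FF (Star b w) n) (e : ι → ℤ)
    (he : e j ≠ 0) : f e = 0 := by
  refine hf e fun hmem => ?_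
  have h1 : sgn e ∈ Star b w := (Finset.mem_filter.mp hmem).2.2
  obtain ⟨_, t, ht, hle, htw⟩ := Finset.mem_filter.mp h1
  have h2 : sgn e j ≠ 0 := by
    intro h
    exact he (sign_eq_zero_iff.mp h)
  have h3 : t j ≠ 0 := by rw [hle j h2]; exact h2
  exact hjw (hJ.disj t ht j hj w hw h3 (by rw [htw]; decide))

private theorem STP_Xe_zero {b : ι → E d} {J : Finset ι} (hJ : SepC b J) {j w : ι} (hj : j ∈ J)
    (hw : w ∈ J) (hjw : j ≠ w) {n : ℕ} {f : Fn ι} (hf : f ∈ FF (Star b w) n) :
    Xe (uv (j, 1)) f = 0 ∧ Xe (uv (j, 1)) (ng f) = 0 := by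
  have key : ∀ e' : ι → ℤ, (∀ l, 0 ≤ uv (j, (1 : SignType)) l * e' l) →
      (uv (j, (1 : SignType)) + e') j ≠ 0 := by
    intro e' h
    have h1 := h j
    have h2 : uv (j, (1 : SignType)) j = 1 := by
      simp [uv]
    rw [h2] at h1
    rw [Pi.add_apply, h2]
    omega
  constructor
  · funext e'
    rw [Xe_apply]
    split_ifs with h
    · rw [STP_vanish hJ hj hw hjw hf _ (key e' h)]
      rfl
    · rfl
  · funext e'
    rw [Xe_apply]
    split_ifs with h
    · have : ng f (uv (j, (1 : SignType)) + e') = f (-(uv (j, (1 : SignType)) + e')) := rfl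
      rw [this, STP_vanish hJ hj hw hjw hf _ (by
        rw [Pi.neg_apply, neg_ne_zero]; exact key e' h)]
      rfl
    · rfl

private theorem STP_star_sub (b : ι → E d) (j : ι) (n : ℕ) : FF (Star b j) n ≤ FF (Cells b) n := by
  intro f hf e he
  refine hf e fun h => he ?_
  obtain ⟨h1, h2, h3⟩ := Finset.mem_filter.mp h
  exact Finset.mem_filter.mpr ⟨h1, h2, (Finset.mem_filter.mp h3).1⟩

theorem starP {b c : ι → E d} (hS : Simple b) (hb : Bornology.IsBounded (Pol b))
    (hc : GenC c) {J : Finset ι} (hJ : SepC b J) {T : Finset ι}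
    (hT : T ⊆ J) {n m : ℕ} (hnm : n + m = d) (hn : 1 ≤ n) (hm : 1 ≤ m) (hF : Few b T n)
    (hinj : ∀ f : ι → Fn ι, (∀ j ∈ J, f j ∈ FF (Star b j) m ⊓ Ker c) →
      ∑ j ∈ J, (f j - ng (f j)) = 0 → ∀ j ∈ J, f j = 0) :
    ∑ j ∈ T, Module.finrank ℝ ↥(FF (Star b j) (m - 1) ⊓ Ker c) +
      ∑ j ∈ J \ T, Module.finrank ℝ ↥(FF (Star b j) m ⊓ Ker c) ≤
      Module.finrank ℝ ↥(FF (Cells b) m ⊓ Ker c ⊓ Par ι (-1)) := by
  obtain ⟨φ, hφ⟩ := exists_top hS hb hc
  set W : Submodule ℝ (Fn ι) := FF (Cells b) m ⊓ Ker c ⊓ Par ι (-1) with hW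
  have hfin : ∀ (C : Finset (ι → SignType)) (k : ℕ), FiniteDimensional ℝ ↥(FF C k ⊓ Ker c) := by
    intro C k
    have := FF_fin C k
    exact Submodule.finiteDimensional_of_le inf_le_left
  have hWfin : FiniteDimensional ℝ W := by
    have := hfin (Cells b) m
    exact Submodule.finiteDimensional_of_le inf_le_left
  -- the map Psi
  have hmem : ∀ (j : T) (f : W), Xe (uv (j.1, (1 : SignType))) f.1 ∈
      FF (Star b j.1) (m - 1) ⊓ Ker c := by
    intro j f
    refine ⟨?_, Xe_Ker _ f.2.1.2⟩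
    rw [← StarS_one]
    refine Xe_star hS (j.1, 1) (show (1 : SignType) ≠ 0 by decide) ?_
    have : m - 1 + 1 = m := by omega
    rw [this]
    exact f.2.1.1
  let Psi : W →ₗ[ℝ] ((j : T) → ↥(FF (Star b j.1) (m - 1) ⊓ Ker c)) :=
    { toFun := fun f j => ⟨Xe (uv (j.1, (1 : SignType))) f.1, hmem j f⟩
      map_add' := by
        intro f g
        funext j
        apply Subtype.ext
        exact map_add _ _ _
      map_smul' := by
        intro r f
        funext j
        apply Subtype.ext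
        exact map_smul _ _ _ }
  have hfinT : ∀ j : T, FiniteDimensional ℝ ↥(FF (Star b j.1) (m - 1) ⊓ Ker c) :=
    fun j => hfin _ _
  have hsurj : Function.Surjective Psi := by
    intro t
    obtain ⟨f, hf, hft⟩ := surj hS hb hc hφ hJ hT hnm hn hm hF
      (fun j => if h : j ∈ T then (t ⟨j, h⟩).1 else 0) (by
        intro j hj
        rw [dif_pos hj]
        exact (t ⟨j, hj⟩).2)
    refine ⟨⟨f, hf⟩, ?_⟩
    funext j
    apply Subtype.ext
    have := hft j.1 j.2
    rw [dif_pos j.2] at this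
    exact this
  have hrank := LinearMap.finrank_range_add_finrank_ker Psi
  have hr1 : Module.finrank ℝ (LinearMap.range Psi)
      = ∑ j ∈ T, Module.finrank ℝ ↥(FF (Star b j) (m - 1) ⊓ Ker c) := by
    rw [LinearMap.range_eq_top.mpr hsurj, finrank_top, Module.finrank_pi_fintype]
    exact Finset.sum_coe_sort T (fun j => Module.finrank ℝ ↥(FF (Star b j) (m - 1) ⊓ Ker c))
  -- the map Phi into the kernel
  have hJT : ∀ w : (J \ T : Finset ι), w.1 ∈ J ∧ w.1 ∉ T := fun w => Finset.mem_sdiff.mp w.2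
  have hmem2 : ∀ (g : (w : (J \ T : Finset ι)) → ↥(FF (Star b w.1) m ⊓ Ker c)),
      (∑ w : (J \ T : Finset ι), ((g w).1 - ng (g w).1)) ∈ W := by
    intro g
    refine Submodule.sum_mem _ fun w _ => ?_
    have h1 := STP_star_sub b w.1 m (g w).2.1
    refine ⟨⟨Submodule.sub_mem _ h1 (ng_Cells h1), Submodule.sub_mem _ (g w).2.2
      (ng_Ker (g w).2.2)⟩, ?_⟩
    intro e
    have : ((g w).1 - ng (g w).1) (-e) = (g w).1 (-e) - (g w).1 (- -e) := rfl
    rw [this, neg_neg]
    have : ((g w).1 - ng (g w).1) e = (g w).1 e - (g w).1 (-e) := rfl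
    rw [this]
    ring
  let Phi : ((w : (J \ T : Finset ι)) → ↥(FF (Star b w.1) m ⊓ Ker c)) →ₗ[ℝ] W :=
    { toFun := fun g => ⟨∑ w : (J \ T : Finset ι), ((g w).1 - ng (g w).1), hmem2 g⟩
      map_add' := by
        intro f g
        apply Subtype.ext
        show ∑ w : (J \ T : Finset ι), (((f w).1 + (g w).1) - ng ((f w).1 + (g w).1))
          = ∑ w : (J \ T : Finset ι), ((f w).1 - ng (f w).1)
            + ∑ w : (J \ T : Finset ι), ((g w).1 - ng (g w).1)
        rw [← Finset.sum_add_distrib]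
        refine Finset.sum_congr rfl fun w _ => ?_
        rw [STP_ng_add]
        abel
      map_smul' := by
        intro r f
        apply Subtype.ext
        show ∑ w : (J \ T : Finset ι), ((r • (f w).1) - ng (r • (f w).1))
          = r • ∑ w : (J \ T : Finset ι), ((f w).1 - ng (f w).1)
        rw [Finset.smul_sum]
        refine Finset.sum_congr rfl fun w _ => ?_
        rw [STP_ng_smul, smul_sub] }
  have hPhiker : ∀ g, Phi g ∈ LinearMap.ker Psi := by
    intro g
    rw [LinearMap.mem_ker]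
    funext j
    apply Subtype.ext
    show Xe (uv (j.1, (1 : SignType))) (∑ w : (J \ T : Finset ι), ((g w).1 - ng (g w).1)) = 0
    rw [map_sum]
    refine Finset.sum_eq_zero fun w _ => ?_
    have hne : j.1 ≠ w.1 := fun h => (hJT w).2 (h ▸ j.2)
    have := STP_Xe_zero hJ (hT j.2) (hJT w).1 hne (g w).2.1
    rw [map_sub, this.1, this.2, sub_zero]
  have hPhiinj : Function.Injective (LinearMap.codRestrict (LinearMap.ker Psi) Phi hPhiker) := by
    refine (injective_iff_map_eq_zero (LinearMap.codRestrict (LinearMap.ker Psi) Phi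
      hPhiker)).mpr ?_
    intro g hg
    have h0 : ∑ w : (J \ T : Finset ι), ((g w).1 - ng (g w).1) = 0 :=
      congrArg (fun x => (x.1.1 : Fn ι)) hg
    set F : ι → Fn ι := fun j => if h : j ∈ (J \ T : Finset ι) then (g ⟨j, h⟩).1 else 0 with hFdef
    have h1 : ∀ j ∈ J, F j ∈ FF (Star b j) m ⊓ Ker c := by
      intro j _
      by_cases h : j ∈ (J \ T : Finset ι)
      · simp only [hFdef, dif_pos h]
        exact (g ⟨j, h⟩).2
      · simp only [hFdef, dif_neg h]
        exact Submodule.zero_mem _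
    have h2 : ∑ j ∈ J, (F j - ng (F j)) = 0 := by
      have h3 : ∑ j ∈ J, (F j - ng (F j)) = ∑ j ∈ J \ T, (F j - ng (F j)) := by
        symm
        refine Finset.sum_subset Finset.sdiff_subset ?_
        intro j _ hj
        simp only [hFdef, dif_neg hj]
        have : ng (0 : Fn ι) = 0 := rfl
        rw [this, sub_zero]
      rw [h3, ← Finset.sum_coe_sort (J \ T) (fun j => F j - ng (F j)), ← h0]
      refine Finset.sum_congr rfl fun w _ => ?_
      simp only [hFdef, dif_pos w.2]
    have h4 := hinj F h1 h2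
    funext w
    apply Subtype.ext
    have := h4 w.1 (hJT w).1
    simp only [hFdef, dif_pos w.2] at this
    exact this
  have hfinJ : ∀ w : (J \ T : Finset ι), FiniteDimensional ℝ ↥(FF (Star b w.1) m ⊓ Ker c) :=
    fun w => hfin _ _
  have hr2 : ∑ j ∈ J \ T, Module.finrank ℝ ↥(FF (Star b j) m ⊓ Ker c)
      ≤ Module.finrank ℝ (LinearMap.ker Psi) := by
    have := LinearMap.finrank_le_finrank_of_injective hPhiinj
    rw [Module.finrank_pi_fintype] at this
    refine le_trans (le_of_eq ?_) this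
    exact (Finset.sum_coe_sort (J \ T)
      (fun j => Module.finrank ℝ ↥(FF (Star b j) m ⊓ Ker c))).symm
  omega

end

end Pool.Agent.CTC
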