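import Pool.Agent.CTC.MacOf
import Pool.Agent.CTC.ARC
import Pool.Agent.CTC.STP
import Pool.Agent.CTC.INJ
import Pool.Agent.CTC.FSY
import Pool.Agent.WLP.Change

/-! Row MAC: the main inequality for simple polytopes with cut facets. -/

set_option autoImplicit false

open scoped BigOperators RealInnerProductSpace

namespace Pool.Agent.CTC

noncomputable section

open Classical

open Pool.Agent.KST (E Fn supp Le IsCell Cells Verts Simple Pol pt PP Gen Star VF Low Sweep sgn EE X
  D FF Par Ker S hh LowF Inside)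

variable {ι : Type} [Fintype ι] {d : ℕ}

/-- all facts about the numbers, for generic vectors -/
theorem factsC {b : ι → E d} (hd : 1 ≤ d) (hS : Simple b) (hb : Bornology.IsBounded (Pol b))
    {J : Finset ι} (hJ : SepC b J) :
    ∃ k H : ℕ → ℤ, k 0 = 0 ∧ (∀ n ≤ d, k (d - n) = k n) ∧ (∀ n < d, H (d - 1 - n) = H n) ∧
      (∀ n, 0 ≤ H n) ∧ (∀ m, d ≤ 2 * m → m < d → H m ≤ k m) ∧
      (∀ n Q : ℕ, 1 ≤ n → 2 * n < d → ∀ col : ι → Fin Q,
        (∀ q, Few b (J.filter (fun j => col j = q)) n) →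
        H n - H (n - 1) ≤ (Q : ℤ) * (k (d - n) - H (d - n))) ∧
      ((Cells b).card : ℤ) = 3 ^ d + 2 * ∑ n ∈ Finset.range (d + 1), 2 ^ n * k n ∧
      ∑ j ∈ J, (((Cells b).filter (fun s => s j = 1)).card : ℤ) =
        ∑ n ∈ Finset.range d, 2 ^ n * H n ∧
      H 0 ≤ ((J.filter (fun j => ∃ t ∈ Cells b, t j = 1)).card : ℤ) ∧
      ((Finset.univ.filter (fun l => ∃ t ∈ Cells b, t l = 1)).card : ℤ) ≤ d + k 1 := by
  obtain ⟨c, hc⟩ := WLP.exists_generic ι d
  have hg : GenC c := genC_of_alg hc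
  refine facts (c := c) hS hb (fun C V P ht h => WLP.sweep_change c hc h)
    (fun j n hn => facet_symm hS hb hg j hn) ?_
  intro T hT n m hnm hn hm hdm hF
  obtain ⟨d', rfl⟩ : ∃ d', d = d' + 1 := ⟨d - 1, by omega⟩
  exact starP hS hb hg hJ hT hnm hn hm hF
    (fun f hf h0 => inj_star hS hb hJ.toSepB hc hdm (by omega) f hf h0)

theorem mainC {b : ι → E d} (hd : 1 ≤ d) (hS : Simple b) (hb : Bornology.IsBounded (Pol b))
    {J : Finset ι} (hJ : SepC b J) (hcol : Col b J) :
    3 ^ d + 2 * ∑ j ∈ J, ((Cells b).filter (fun s => s j = 1)).card ≤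
      (Cells b).card + 2 * (J.filter (fun j => ∃ t ∈ Cells b, t j = 1)).card := by
  obtain ⟨k, H, h1, h2, h3, h4, h5, h6, h7, h8, h9, -⟩ := factsC hd hS hb hJ
  refine mainC_of h7 h8 h9 (ariC d hd k H h1 h2 h3 h4 h5 ?_)
  intro n hn hnd
  obtain ⟨col, hc⟩ := hcol n hn hnd
  have h := h6 n _ hn hnd col hc
  push_cast at h
  exact h

theorem mainC_eq {b : ι → E d} (hS : Simple b) (hb : Bornology.IsBounded (Pol b))
    {J : Finset ι} (hJ : SepC b J) (hcol : Col b J) (hcol1 : Col1 b J) (hd : 2 ≤ d)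
    (heq : (Cells b).card + 2 * (J.filter (fun j => ∃ t ∈ Cells b, t j = 1)).card ≤
      3 ^ d + 2 * ∑ j ∈ J, ((Cells b).filter (fun s => s j = 1)).card) :
    (Finset.univ.filter (fun l => l ∉ J ∧ ∃ t ∈ Cells b, t l = 1)).card ≤ d := by
  obtain ⟨k, H, h1, h2, h3, h4, h5, h6, h7, h8, h9, h10⟩ := factsC (by omega : 1 ≤ d) hS hb hJ
  have hE := ariC_eq d hd k H h1 h2 h3 h4 h5
    (by
      intro n hn hnd
      obtain ⟨col, hc⟩ := hcol n hn hnd
      have h := h6 n _ hn hnd col hc
      push_cast at h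
      exact h)
    (by
      intro hd2
      obtain ⟨col, hc⟩ := hcol1 hd2
      have h := h6 1 _ le_rfl (by omega) col hc
      push_cast at h
      exact h)
    (by
      zify at heq
      rw [h7, h8] at heq
      linarith)
  have e1 : k 1 = k (d - 1) := (h2 1 (by omega)).symm
  have e2 : H (d - 1) = H 0 := by
    have := h3 0 (by omega)
    simpa using this
  have e13 : (Finset.univ.filter (fun l => ∃ t ∈ Cells b, t l = 1)).card =
      (Finset.univ.filter (fun l => l ∉ J ∧ ∃ t ∈ Cells b, t l = 1)).card +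
        (J.filter (fun j => ∃ t ∈ Cells b, t j = 1)).card := by
    rw [← Finset.card_union_of_disjoint]
    · congr 1
      ext l
      simp only [Finset.mem_filter, Finset.mem_univ, true_and, Finset.mem_union]
      by_cases hl : l ∈ J <;> simp [hl]
    · rw [Finset.disjoint_left]
      intro l hl hl'
      exact (Finset.mem_filter.1 hl).2.1 (Finset.mem_filter.1 hl').1
  rw [e13] at h10
  push_cast at h10
  have : ((Finset.univ.filter (fun l => l ∉ J ∧ ∃ t ∈ Cells b, t l = 1)).card : ℤ) ≤ d := by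
    rw [e1, hE, e2] at h10
    linarith
  exact_mod_cast this

end

end Pool.Agent.CTC
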