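import Pool.Agent.CTC.Defs
import Pool.Agent.KST.T0

/-! Row T0C: from hypotheses on the caps to conditions on the cut facets -/

set_option autoImplicit false

open scoped BigOperators RealInnerProductSpace

namespace Pool.Agent.CTC

noncomputable section

open Classical

open Pool.Agent.KST (E Fn supp Le IsCell Cells Verts Simple Pol pt PP Gen Star VF Low Sweep sgn EE X
  D FF Par Ker S hh LowF Inside)

variable {d : ℕ} {α β : Type} [Fintype α] [Fintype β] {a : α → E d} {g : β → E d}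

/-- a cell in two cut facets -/
private theorem T0C_disj (H : WLP.HypB a g) {t : α ⊕ β → SignType}
    (ht : t ∈ Cells (Sum.elim a g)) {j k : β}
    (hj : t (Sum.inr j) ≠ 0) (hk : t (Sum.inr k) ≠ 0) : j = k := by
  obtain ⟨x, hx⟩ := Pool.Agent.KST.T0_mem.1 ht
  have h1 : ⟪g j, x⟫ = ((t (Sum.inr j) : SignType) : ℝ) := (hx (Sum.inr j)).2 hj
  have h2 : ⟪g k, x⟫ = ((t (Sum.inr k) : SignType) : ℝ) := (hx (Sum.inr k)).2 hk
  refine (H.disj x (Pool.Agent.KST.T0_polL (Pool.Agent.KST.T0_pol hx)) j k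
    (t (Sum.inr j)) (t (Sum.inr k)) ?_ ?_).1
  · rw [h1, Pool.Agent.KST.T0_sq hj]
  · rw [h2, Pool.Agent.KST.T0_sq hk]

private theorem T0C_sepB (H : WLP.HypB a g) :
    WLP.SepB (Sum.elim a g) (Finset.univ.filter (fun l => ∃ j, l = Sum.inr j)) := by
  refine ⟨?_, ?_⟩
  · intro t ht j hj j' hj' h1 h2
    obtain ⟨j0, rfl⟩ := (Finset.mem_filter.1 hj).2
    obtain ⟨j1, rfl⟩ := (Finset.mem_filter.1 hj').2
    rw [T0C_disj H ht h1 h2]
  · intro j hj s hs t ht hs1 ht1 l hsl htl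
    obtain ⟨j0, rfl⟩ := (Finset.mem_filter.1 hj).2
    have hs0 : s (Sum.inr j0) ≠ 0 := by rw [hs1]; decide
    have ht0 : t (Sum.inr j0) ≠ 0 := by rw [ht1]; decide
    rcases l with i | k
    · obtain ⟨x, hx⟩ := Pool.Agent.KST.T0_mem.1 hs
      obtain ⟨y, hy⟩ := Pool.Agent.KST.T0_mem.1 ht
      have h1 : ⟪g j0, x⟫ = ((s (Sum.inr j0) : SignType) : ℝ) := (hx (Sum.inr j0)).2 hs0
      have h2 : ⟪g j0, y⟫ = ((t (Sum.inr j0) : SignType) : ℝ) := (hy (Sum.inr j0)).2 ht0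
      have h3 : ⟪a i, x⟫ = ((s (Sum.inl i) : SignType) : ℝ) := (hx (Sum.inl i)).2 hsl
      have h4 : ⟪a i, y⟫ = ((t (Sum.inl i) : SignType) : ℝ) := (hy (Sum.inl i)).2 htl
      have h5 := H.opp j0 x (Pool.Agent.KST.T0_polL (Pool.Agent.KST.T0_pol hx)) y
        (Pool.Agent.KST.T0_polL (Pool.Agent.KST.T0_pol hy))
        (by rw [h1, hs1]; simp) (by rw [h2, ht1]; simp) i
        (by rw [h3, Pool.Agent.KST.T0_abs hsl]) (by rw [h4, Pool.Agent.KST.T0_abs htl])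
      rw [h3, h4] at h5
      rcases h6 : s (Sum.inl i) with _ | _ | _
      · exact absurd h6 hsl
      · rcases h7 : t (Sum.inl i) with _ | _ | _
        · exact absurd h7 htl
        · rfl
        · rw [h6, h7] at h5
          norm_num at h5
      · rcases h7 : t (Sum.inl i) with _ | _ | _
        · exact absurd h7 htl
        · rw [h6, h7] at h5
          norm_num at h5
        · rfl
    · have e1 : j0 = k := T0C_disj H hs hs0 hsl
      subst e1
      rw [hs1, ht1]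

/-- a facet of the polytope meeting a cut facet -/
private theorem T0C_meet {i : α} {j : β} {σ τ : SignType} (hτ : τ ≠ 0)
    (h : Meet (Sum.elim a g) (Sum.inl i, σ) (Sum.inr j, τ)) : MeetG a g (i, σ) (j, τ) := by
  obtain ⟨hσ, t, ht, h1, h2⟩ := h
  obtain ⟨x, hx⟩ := Pool.Agent.KST.T0_mem.1 ht
  simp only at hσ h1 h2
  have h3 : ⟪a i, x⟫ = ((t (Sum.inl i) : SignType) : ℝ) :=
    (hx (Sum.inl i)).2 (by rw [h1]; exact hσ)
  have h4 : ⟪g j, x⟫ = ((t (Sum.inr j) : SignType) : ℝ) :=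
    (hx (Sum.inr j)).2 (by rw [h2]; exact hτ)
  refine ⟨hσ, x, Pool.Agent.KST.T0_polL (Pool.Agent.KST.T0_pol hx), ?_, ?_⟩
  · rw [h3, h1]
  · rw [h4, h2]
    exact (Pool.Agent.KST.T0_sq hτ).ge

/-- a cut facet meets only itself among the cut facets -/
private theorem T0C_self (H : WLP.HypB a g) {k j : β} {σ τ : SignType} (hτ : τ ≠ 0)
    (h : Meet (Sum.elim a g) (Sum.inr k, σ) (Sum.inr j, τ)) : k = j ∧ σ = τ := by
  obtain ⟨hσ, t, ht, h1, h2⟩ := h
  simp only at hσ h1 h2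
  have e : k = j := T0C_disj H ht (by rw [h1]; exact hσ) (by rw [h2]; exact hτ)
  subst e
  exact ⟨rfl, h1.symm.trans h2⟩

theorem hypC_sep (H : HypC a g) :
    SepC (Sum.elim a g) (Finset.univ.filter (fun l => ∃ j, l = Sum.inr j)) := by
  refine { toSepB := T0C_sepB H.toHypB, common := ?_ }
  rintro ⟨l, τ⟩ ⟨l', τ'⟩ hl hl' hτ hτ' hne
  simp only at hl hl' hτ hτ'
  obtain ⟨j, rfl⟩ := (Finset.mem_filter.1 hl).2
  obtain ⟨j', rfl⟩ := (Finset.mem_filter.1 hl').2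
  have hne' : ((j, τ) : β × SignType) ≠ (j', τ') := by
    intro h
    apply hne
    rw [Prod.mk.injEq] at h
    rw [h.1, h.2]
  refine le_trans ?_ (H.common (j, τ) (j', τ') hτ hτ' hne')
  refine le_trans (Finset.card_le_card ?_)
    (Finset.card_image_le (f := fun p : α × SignType => ((Sum.inl p.1 : α ⊕ β), p.2)))
  rintro ⟨m, σ⟩ hp
  obtain ⟨-, h1, h2⟩ := Finset.mem_filter.1 hp
  rcases m with i | k
  · refine Finset.mem_image.2 ⟨(i, σ), Finset.mem_filter.2 ⟨Finset.mem_univ _,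
      T0C_meet hτ h1, T0C_meet hτ' h2⟩, rfl⟩
  · exfalso
    obtain ⟨e1, e2⟩ := T0C_self H.toHypB hτ h1
    obtain ⟨e3, e4⟩ := T0C_self H.toHypB hτ' h2
    apply hne'
    rw [← e1, ← e2, ← e3, ← e4]

private theorem T0C_few_gen {ι : Type} [Fintype ι] {b : ι → E d} {T : Finset ι} {n : ℕ}
    (h : ∀ p : ι × SignType, ∃ F : Finset (ι × SignType), F.card ≤ n ∧
      ∀ q : ι × SignType, q.1 ∈ T → q.2 ≠ 0 → Meet b p q → q ∈ F) : Few b T n := by
  intro p
  obtain ⟨F, hF, hq⟩ := h p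
  refine le_trans (Finset.card_le_card ?_) hF
  intro q hq'
  rw [Finset.mem_filter] at hq'
  exact hq q hq'.2.1 hq'.2.2.1 hq'.2.2.2

private theorem T0C_few (H : WLP.HypB a g) {n : ℕ} (hn : 1 ≤ n) {T : Finset β}
    (hT : FewG a g T n) {T' : Finset (α ⊕ β)} (hT' : ∀ l ∈ T', ∃ j ∈ T, l = Sum.inr j) :
    Few (Sum.elim a g) T' n := by
  refine T0C_few_gen ?_
  rintro ⟨m, σ⟩
  rcases m with i | k
  · refine ⟨_, le_trans (Finset.card_image_le
      (f := fun q : β × SignType => ((Sum.inr q.1 : α ⊕ β), q.2))) (hT (i, σ)), ?_⟩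
    rintro ⟨l, τ⟩ h1 hτ h2
    obtain ⟨j, hj, rfl⟩ := hT' l h1
    exact Finset.mem_image.2 ⟨(j, τ), Finset.mem_filter.2 ⟨Finset.mem_univ _, hj, hτ,
      T0C_meet hτ h2⟩, rfl⟩
  · refine ⟨{((Sum.inr k : α ⊕ β), σ)}, by rw [Finset.card_singleton]; exact hn, ?_⟩
    rintro ⟨l, τ⟩ h1 hτ h2
    obtain ⟨j, hj, rfl⟩ := hT' l h1
    obtain ⟨e1, e2⟩ := T0C_self H hτ h2
    rw [Finset.mem_singleton, e1, e2]

theorem col_of (H : HypC a g) (hcol : ColG a g) :
    Col (Sum.elim a g) (Finset.univ.filter (fun l => ∃ j, l = Sum.inr j)) := by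
  intro n hn hnd
  obtain ⟨col, hc⟩ := hcol n hn hnd
  refine ⟨Sum.elim (fun _ => ⟨0, by positivity⟩) col, fun q => T0C_few H.toHypB hn (hc q) ?_⟩
  intro l hl
  obtain ⟨h1, h2⟩ := Finset.mem_filter.1 hl
  obtain ⟨j, rfl⟩ := (Finset.mem_filter.1 h1).2
  exact ⟨j, Finset.mem_filter.2 ⟨Finset.mem_univ _, h2⟩, rfl⟩

theorem col1_of (H : HypC a g) (hcol : Col1G a g) :
    Col1 (Sum.elim a g) (Finset.univ.filter (fun l => ∃ j, l = Sum.inr j)) := by
  intro hd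
  obtain ⟨col, hc⟩ := hcol hd
  refine ⟨Sum.elim (fun _ => ⟨0, by positivity⟩) col,
    fun q => T0C_few H.toHypB le_rfl (hc q) ?_⟩
  intro l hl
  obtain ⟨h1, h2⟩ := Finset.mem_filter.1 hl
  obtain ⟨j, rfl⟩ := (Finset.mem_filter.1 h1).2
  exact ⟨j, Finset.mem_filter.2 ⟨Finset.mem_univ _, h2⟩, rfl⟩

end

end Pool.Agent.CTC
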