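import Pool.Agent.CTC.Defs
import Pool.Agent.CTC.MAC
import Pool.Agent.CTC.T0C
import Pool.Agent.CTC.Q4C
import Pool.Agent.KST.G0
import Pool.Agent.WLP.TB

/-! ROW KAC (the theorem for cells) -/

set_option autoImplicit false

open scoped BigOperators RealInnerProductSpace

namespace Pool.Agent.CTC

noncomputable section

open Classical

open Pool.Agent.KST (E Fn supp Le IsCell Cells Verts Simple Pol pt PP Gen Star VF Low Sweep sgn EE X
  D FF Par Ker S hh LowF Inside)

variable {ι : Type} [Fintype ι] {d : ℕ}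

/-- the index set of the cuts -/
private theorem KAC_filter_inr (α β : Type) [Fintype α] [Fintype β] :
    (Finset.univ.filter (fun l : α ⊕ β => ∃ j, l = Sum.inr j)) =
      Finset.univ.map Function.Embedding.inr := by
  ext l
  simp only [Finset.mem_filter, Finset.mem_univ, true_and, Finset.mem_map,
    Function.Embedding.inr_apply]
  constructor
  · rintro ⟨j, rfl⟩; exact ⟨j, rfl⟩
  · rintro ⟨j, rfl⟩; exact ⟨j, rfl⟩

private theorem KAC_sum_inr {α β : Type} [Fintype α] [Fintype β] (f : α ⊕ β → ℕ) :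
    ∑ l ∈ Finset.univ.filter (fun l : α ⊕ β => ∃ j, l = Sum.inr j), f l =
      ∑ j : β, f (Sum.inr j) := by
  rw [KAC_filter_inr, Finset.sum_map]
  rfl

private theorem KAC_card_inr {α β : Type} [Fintype α] [Fintype β] (p : α ⊕ β → Prop)
    [DecidablePred p] :
    ((Finset.univ.filter (fun l : α ⊕ β => ∃ j, l = Sum.inr j)).filter p).card =
      ∑ j : β, (if p (Sum.inr j) then 1 else 0) := by
  rw [Finset.card_filter, KAC_sum_inr]

private theorem KAC_pol_sub {α β : Type} [Fintype α] [Fintype β] (a : α → E d) (g : β → E d) :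
    Pol (Sum.elim a g) ⊆ Pol a := fun _ hx i => hx (Sum.inl i)

private theorem KAC_numbers {α β : Type} [Fintype α] [Fintype β] {a : α → E d} {g : β → E d}
    (hd : 1 ≤ d) (H : HypC a g) (hb : Bornology.IsBounded (Pol a)) (hcol : ColG a g) :
    (3 ^ d + 2 * ∑ j : β, ((Cells (Sum.elim a g)).filter (fun s => s (Sum.inr j) = 1)).card ≤
      (Cells (Sum.elim a g)).card +
        2 * ∑ j : β, (if ∃ t ∈ Cells (Sum.elim a g), t (Sum.inr j) = 1 then 1 else 0)) ∧
    (∀ j : β, 2 * (if ∃ t ∈ Cells (Sum.elim a g), t (Sum.inr j) = 1 then 1 else 0) ≤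
      (Inside a g j 1).card + (Inside a g j (-1)).card) ∧
    (∀ j : β, (∃ t ∈ Cells (Sum.elim a g), t (Sum.inr j) = 1) →
      1 ≤ (Inside a g j 1).card ∧ 1 ≤ (Inside a g j (-1)).card) := by
  have hpos : ∀ j : β, (∃ t ∈ Cells (Sum.elim a g), t (Sum.inr j) = 1) →
      1 ≤ (Inside a g j 1).card ∧ 1 ≤ (Inside a g j (-1)).card := by
    rintro j ⟨t, ht, htj⟩
    refine ⟨WLP.inside_posB H.toHypB hb j 1 (by decide) ⟨t, ht, htj⟩,
      WLP.inside_posB H.toHypB hb j (-1) (by decide)
        ⟨-t, Pool.Agent.KST.neg_mem_cells ht, ?_⟩⟩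
    rw [Pi.neg_apply, htj]
  refine ⟨?_, fun j => ?_, hpos⟩
  · have h := mainC hd H.simple (hb.subset (KAC_pol_sub a g)) (hypC_sep H) (col_of H hcol)
    rw [KAC_sum_inr, KAC_card_inr] at h
    exact h
  · by_cases hj : ∃ t ∈ Cells (Sum.elim a g), t (Sum.inr j) = 1
    · rw [if_pos hj]
      have := hpos j hj
      omega
    · rw [if_neg hj]
      omega

theorem kalaiC {α β : Type} [Fintype α] [Fintype β] {a : α → E d} {g : β → E d}
    (hd : 1 ≤ d) (H : HypC a g) (hb : Bornology.IsBounded (Pol a)) (hcol : ColG a g) :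
    3 ^ d ≤ (Cells a).card := by
  obtain ⟨h1, h2, -⟩ := KAC_numbers hd H hb hcol
  have h3 := WLP.card_splitB H.toHypB
  have h4 := WLP.inside_cardB H.toHypB
  have h5 : 2 * ∑ j : β, (if ∃ t ∈ Cells (Sum.elim a g), t (Sum.inr j) = 1 then 1 else 0) ≤
      ∑ j : β, ((Inside a g j 1).card + (Inside a g j (-1)).card) := by
    rw [Finset.mul_sum]
    exact Finset.sum_le_sum fun j _ => h2 j
  omega

private theorem KAC_eq_main {α β : Type} [Fintype α] [Fintype β] {a : α → E d} {g : β → E d}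
    (hd : 1 ≤ d) (H : HypC a g) (hb : Bornology.IsBounded (Pol a)) (hcol : ColG a g)
    (heq : (Cells a).card ≤ 3 ^ d) :
    (Cells (Sum.elim a g)).card + 2 * ((Finset.univ.filter
      (fun l => ∃ j : β, l = Sum.inr j)).filter
        (fun l => ∃ t ∈ Cells (Sum.elim a g), t l = 1)).card ≤
      3 ^ d + 2 * ∑ l ∈ Finset.univ.filter (fun l => ∃ j : β, l = Sum.inr j),
        ((Cells (Sum.elim a g)).filter (fun s => s l = 1)).card := by
  obtain ⟨-, h2, -⟩ := KAC_numbers hd H hb hcol
  have h3 := WLP.card_splitB H.toHypB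
  have h4 := WLP.inside_cardB H.toHypB
  have h5 : 2 * ∑ j : β, (if ∃ t ∈ Cells (Sum.elim a g), t (Sum.inr j) = 1 then 1 else 0) ≤
      ∑ j : β, ((Inside a g j 1).card + (Inside a g j (-1)).card) := by
    rw [Finset.mul_sum]
    exact Finset.sum_le_sum fun j _ => h2 j
  rw [KAC_sum_inr, KAC_card_inr]
  omega

private theorem KAC_eq_inside {α β : Type} [Fintype α] [Fintype β] {a : α → E d} {g : β → E d}
    (hd : 1 ≤ d) (H : HypC a g) (hb : Bornology.IsBounded (Pol a)) (hcol : ColG a g)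
    (heq : (Cells a).card ≤ 3 ^ d) (j : β)
    (s : SignType) (hs : s ≠ 0) : (Inside a g j s).card ≤ 1 := by
  obtain ⟨h1, h2, h6⟩ := KAC_numbers hd H hb hcol
  have h3 := WLP.card_splitB H.toHypB
  have h4 := WLP.inside_cardB H.toHypB
  have h5 : ∑ j : β, ((Inside a g j 1).card + (Inside a g j (-1)).card) ≤
      ∑ j : β, 2 * (if ∃ t ∈ Cells (Sum.elim a g), t (Sum.inr j) = 1 then 1 else 0) := by
    rw [← Finset.mul_sum]
    omega
  have h7 : ∀ j : β, (Inside a g j 1).card + (Inside a g j (-1)).card =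
      2 * (if ∃ t ∈ Cells (Sum.elim a g), t (Sum.inr j) = 1 then 1 else 0) := by
    have h8 := (Finset.sum_eq_sum_iff_of_le (s := Finset.univ) fun j _ => h2 j).1
      (le_antisymm (Finset.sum_le_sum fun j _ => h2 j) h5)
    exact fun j => (h8 j (Finset.mem_univ _)).symm
  have h9 := h7 j
  have h10 : (Inside a g j 1).card ≤ 1 ∧ (Inside a g j (-1)).card ≤ 1 := by
    by_cases hj : ∃ t ∈ Cells (Sum.elim a g), t (Sum.inr j) = 1
    · rw [if_pos hj] at h9
      have := h6 j hj
      omega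
    · rw [if_neg hj] at h9
      omega
  rcases s with _ | _ | _
  · exact absurd rfl hs
  · exact h10.2
  · exact h10.1

/-- a family of constraints whose common zero set is trivial spans -/
private theorem KAC_span {α : Type} (L : Finset α) (a : α → E d)
    (h : ∀ u : E d, (∀ i ∈ L, ⟪a i, u⟫ = 0) → u = 0) :
    ⊤ ≤ Submodule.span ℝ (Set.range (fun i : {i : α // i ∈ L} => a i.1)) := by
  have h1 : (Submodule.span ℝ (Set.range (fun i : {i : α // i ∈ L} => a i.1)))ᗮ = ⊥ := by
    rw [Submodule.eq_bot_iff]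
    intro u hu
    apply h u
    intro i hi
    exact (Submodule.mem_orthogonal _ _).1 hu _ (Submodule.subset_span ⟨⟨i, hi⟩, rfl⟩)
  rw [Submodule.orthogonal_eq_bot_iff.1 h1]

private theorem KAC_zero {α : Type} [Fintype α] {a : α → E d}
    (hb : Bornology.IsBounded (Pol a))
    {L : Finset α} (hL : ∀ x, (∀ i ∈ L, |⟪a i, x⟫| ≤ 1) → x ∈ Pol a) :
    ∀ u : E d, (∀ i ∈ L, ⟪a i, u⟫ = 0) → u = 0 := by
  intro u hu
  by_contra hne
  obtain ⟨r, hr⟩ := hb.exists_norm_le
  have hn : 0 < ‖u‖ := norm_pos_iff.2 hne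
  have h1 : ((|r| + 1) / ‖u‖) • u ∈ Pol a := by
    apply hL
    intro i hi
    rw [real_inner_smul_right, hu i hi, mul_zero, abs_zero]
    exact zero_le_one
  have h2 := hr _ h1
  rw [norm_smul, Real.norm_eq_abs, abs_of_nonneg (by positivity), div_mul_cancel₀ _ hn.ne'] at h2
  linarith [le_abs_self r]

private theorem KAC_card {ι α : Type} [Fintype ι] [Fintype α] (b : ι → E d) (f : α → ι)
    (hf : Function.Injective f) (J : Finset ι) (hJ : ∀ i, f i ∉ J) :
    (Finset.univ.filter (fun i => ∃ t ∈ Cells b, t (f i) = 1)).card ≤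
      (Finset.univ.filter (fun l => l ∉ J ∧ ∃ t ∈ Cells b, t l = 1)).card := by
  rw [← Finset.card_image_of_injective _ hf]
  apply Finset.card_le_card
  intro l hl
  rw [Finset.mem_image] at hl
  obtain ⟨i, hi, rfl⟩ := hl
  rw [Finset.mem_filter] at hi ⊢
  exact ⟨Finset.mem_univ _, hJ i, hi.2⟩

private theorem KAC_mem {ι : Type} [Fintype ι] {p : ι → Prop} [DecidablePred p] {l : ι}
    (h : l ∈ Finset.univ.filter p) : p l := (Finset.mem_filter.1 h).2

theorem kalaiC_eq {α β : Type} [Fintype α] [Fintype β] {a : α → E d} {g : β → E d}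
    (hd : 2 ≤ d) (H : HypC a g) (hb : Bornology.IsBounded (Pol a)) (hcol : ColG a g)
    (hcol1 : Col1G a g) (heq : (Cells a).card ≤ 3 ^ d) :
    ∃ L : Finset α, L.card = d ∧ LinearIndependent ℝ (fun i : {i : α // i ∈ L} => a i.1) ∧
      Pol a = {x | ∀ i ∈ L, |⟪a i, x⟫| ≤ 1} := by
  have hd1 : 1 ≤ d := by omega
  -- it is enough to find few sufficient constraints
  suffices hmain : ∃ L : Finset α, L.card ≤ d ∧
      ∀ x, (∀ i ∈ L, |⟪a i, x⟫| ≤ 1) → x ∈ Pol a by
    obtain ⟨L, hLd, hL⟩ := hmain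
    have hspan := KAC_span L a (KAC_zero hb hL)
    have hfin : Module.finrank ℝ (E d) = d := finrank_euclideanSpace_fin
    have hcard : Fintype.card {i : α // i ∈ L} = L.card := by simp
    have hge : d ≤ L.card := by
      have h1 := finrank_range_le_card (R := ℝ) (fun i : {i : α // i ∈ L} => a i.1)
      rw [Set.finrank, top_le_iff.1 hspan, finrank_top, hfin, hcard] at h1
      exact h1
    have heqc : L.card = d := le_antisymm hLd hge
    refine ⟨L, heqc, ?_, ?_⟩
    · apply linearIndependent_of_top_le_span_of_card_eq_finrank hspan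
      rw [hcard, heqc, hfin]
    · ext x
      constructor
      · intro hx i _
        exact hx i
      · intro hx
        exact hL x hx
  refine ⟨Finset.univ.filter (fun i => ∃ t ∈ Cells (Sum.elim a g), t (Sum.inl i) = 1), ?_, ?_⟩
  · have hbd : Bornology.IsBounded (Pol (Sum.elim a g)) := hb.subset (KAC_pol_sub a g)
    have h1 := mainC_eq H.simple hbd (hypC_sep H) (col_of H hcol) (col1_of H hcol1) hd
      (KAC_eq_main hd1 H hb hcol heq)
    refine le_trans (KAC_card (Sum.elim a g) Sum.inl Sum.inl_injective _ ?_) h1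
    intro i hi
    obtain ⟨j, hj⟩ := KAC_mem hi
    exact absurd hj (by simp)
  · intro x hx
    apply pol_eqB H.toHypB hb hd (fun j s hs => KAC_eq_inside hd1 H hb hcol heq j s hs) x
    intro i hi
    exact hx i (Finset.mem_filter.2 ⟨Finset.mem_univ _, hi⟩)

end

end Pool.Agent.CTC
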