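import Pool.Agent.CTC.NC
import Pool.Agent.CTC.BLK
import Pool.Agent.CTC.KAC
import Pool.Agent.CTC.BEQ
import Pool.Agent.KST.F1

/-!
# Centrally symmetric polytopes with few non-simple vertices: the final translation
-/

set_option autoImplicit false

open scoped BigOperators RealInnerProductSpace

namespace Pool.Agent.CTC

noncomputable section

open Classical

open Pool.Agent.K3E (TL TL_apply Fc Cube Cross Han)

open Pool.Agent.KST (E Pol Cells up inner_up mem_pol_up li_up li_congr bdd_up cells_card_NL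
  para_equiv cells_le inj_of shape)

variable {d : ℕ}

/-- the slab description is non-simple at `x` -/
def NSP {n : ℕ} (a : Fin n → Fin d → ℝ) (x : Fin d → ℝ) : Prop :=
  ¬ LinearIndependent ℝ (fun i : {i : Fin n // |a i ⬝ᵥ x| = 1} => a i.1)

/-- simple vertex figures -/
def SVF {n : ℕ} (a : Fin n → Fin d → ℝ) : Prop :=
  ∀ x : Fin d → ℝ, (∀ i, |a i ⬝ᵥ x| ≤ 1) → NSP a x →
    x ∈ Set.extremePoints ℝ {x : Fin d → ℝ | ∀ i, |a i ⬝ᵥ x| ≤ 1}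

theorem li_iff {n : ℕ} (a : Fin n → Fin d → ℝ) (z : E d) :
    LinearIndependent ℝ (fun i : {i : Fin n // |⟪up a i, z⟫| = 1} => up a i.1) ↔
      LinearIndependent ℝ (fun i : {i : Fin n // |a i ⬝ᵥ z.ofLp| = 1} => a i.1) := by
  rw [li_up]
  constructor
  · exact li_congr a (fun k hk => by rw [inner_up]; exact hk)
  · exact li_congr a (fun k hk => by rwa [inner_up] at hk)

theorem pol_image {n : ℕ} (a : Fin n → Fin d → ℝ) :
    Pol (up a) = (WithLp.linearEquiv 2 ℝ (Fin d → ℝ)).symm ''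
      {x : Fin d → ℝ | ∀ i, |a i ⬝ᵥ x| ≤ 1} := by
  ext x
  rw [mem_pol_up]
  constructor
  · intro h
    exact ⟨x.ofLp, h, rfl⟩
  · rintro ⟨y, hy, rfl⟩
    exact hy

theorem ext_image {n : ℕ} (a : Fin n → Fin d → ℝ) :
    Set.extremePoints ℝ (Pol (up a)) = (WithLp.linearEquiv 2 ℝ (Fin d → ℝ)).symm ''
      Set.extremePoints ℝ {x : Fin d → ℝ | ∀ i, |a i ⬝ᵥ x| ≤ 1} := by
  rw [pol_image]
  exact (image_extremePoints (WithLp.linearEquiv 2 ℝ (Fin d → ℝ)).symm _).symm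

theorem ext_ncard {n : ℕ} (a : Fin n → Fin d → ℝ) :
    (Set.extremePoints ℝ (Pol (up a))).ncard =
      (Set.extremePoints ℝ {x : Fin d → ℝ | ∀ i, |a i ⬝ᵥ x| ≤ 1}).ncard := by
  rw [ext_image]
  exact Set.ncard_image_of_injective _ (WithLp.linearEquiv 2 ℝ (Fin d → ℝ)).symm.injective

theorem svf_up {n : ℕ} {a : Fin n → Fin d → ℝ} (h : SVF a) :
    ∀ x ∈ Pol (up a),
      ¬ LinearIndependent ℝ (fun i : {i : Fin n // |⟪up a i, x⟫| = 1} => up a i.1) →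
      x ∈ Set.extremePoints ℝ (Pol (up a)) := by
  intro x hx hns
  rw [ext_image]
  refine ⟨x.ofLp, h x.ofLp ((mem_pol_up a x).1 hx) ?_, rfl⟩
  intro h1
  exact hns ((li_iff a x).2 h1)

theorem ns_ncard {n : ℕ} (a : Fin n → Fin d → ℝ) :
    {x | x ∈ Pol (up a) ∧
        ¬ LinearIndependent ℝ (fun i : {i : Fin n // |⟪up a i, x⟫| = 1} => up a i.1)}.ncard =
      {x : Fin d → ℝ | (∀ i, |a i ⬝ᵥ x| ≤ 1) ∧ NSP a x}.ncard := by
  have h : {x | x ∈ Pol (up a) ∧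
        ¬ LinearIndependent ℝ (fun i : {i : Fin n // |⟪up a i, x⟫| = 1} => up a i.1)} =
      (WithLp.linearEquiv 2 ℝ (Fin d → ℝ)).symm ''
        {x : Fin d → ℝ | (∀ i, |a i ⬝ᵥ x| ≤ 1) ∧ NSP a x} := by
    ext x
    constructor
    · rintro ⟨h1, h2⟩
      exact ⟨x.ofLp, ⟨(mem_pol_up a x).1 h1, fun h3 => h2 ((li_iff a x).2 h3)⟩, rfl⟩
    · rintro ⟨y, ⟨h1, h2⟩, rfl⟩
      refine ⟨(mem_pol_up a _).2 h1, fun h3 => h2 ?_⟩
      exact (li_iff a _).1 h3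
  rw [h]
  exact Set.ncard_image_of_injective _ (WithLp.linearEquiv 2 ℝ (Fin d → ℝ)).symm.injective

/-- few non-simple vertices -/
theorem few_final (hd : 1 ≤ d) {n : ℕ} (a : Fin n → Fin d → ℝ)
    (hinj : ∀ z, (∀ i, a i ⬝ᵥ z = 0) → z = 0) (h : SVF a)
    (hfew : {x : Fin d → ℝ | (∀ i, |a i ⬝ᵥ x| ≤ 1) ∧ NSP a x}.ncard ≤
      2 * ((if Odd d then 3 else 5) * ((d - 1) / 2))) :
    3 ^ d ≤ GRD.NL (LinearMap.range (TL a)) ∧
    (5 ≤ d → GRD.NL (LinearMap.range (TL a)) ≤ 3 ^ d →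
      ∃ L : (Fin d → ℝ) ≃ₗ[ℝ] (Fin d → ℝ), {x | ∀ i, |a i ⬝ᵥ x| ≤ 1} = {x | L x ∈ Cube d}) := by
  have hb := bdd_up a hinj
  obtain ⟨r, g, H, hr⟩ := nat_hypC (up a) hb (svf_up h)
  rw [ns_ncard] at hr
  have hr' : Fintype.card (Fin r) ≤ (if Odd d then 3 else 5) * ((d - 1) / 2) := by
    rw [Fintype.card_fin]
    omega
  have hcol := colG_of_card H.toHypB hr'
  rw [← cells_card_NL]
  refine ⟨kalaiC hd H hb hcol, fun hd5 heq => ?_⟩
  obtain ⟨L, hL, hLI, hP⟩ := kalaiC_eq (by omega) H hb hcol (col1G_of_card H.toHypB hd5 hr') heq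
  exact para_equiv a hb L hL hP

/-- many vertices -/
theorem many_final (hd : 3 ≤ d) {n : ℕ} (a : Fin n → Fin d → ℝ)
    (hinj : ∀ z, (∀ i, a i ⬝ᵥ z = 0) → z = 0) (h : SVF a)
    (hV : 2 ^ d ≤ (Set.extremePoints ℝ {x : Fin d → ℝ | ∀ i, |a i ⬝ᵥ x| ≤ 1}).ncard)
    (hN : GRD.NL (LinearMap.range (TL a)) ≤ 3 ^ d) :
    ∃ L : (Fin d → ℝ) ≃ₗ[ℝ] (Fin d → ℝ),
      {x | ∀ i, |a i ⬝ᵥ x| ≤ 1} = {x | L x ∈ Cube d} := by
  have hb := bdd_up a hinj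
  rw [← cells_card_NL] at hN
  obtain ⟨L, hL, hLI, hP⟩ := kalaiB_eq (up a) hd hb (svf_up h) (by rw [ext_ncard]; exact hV) hN
  exact para_equiv a hb L hL hP

/-- few non-simple vertices or many vertices: the polytope -/
theorem final_eq (hd : 5 ≤ d) {n : ℕ} (a : Fin n → Fin d → ℝ) (h : SVF a)
    (h' : {x : Fin d → ℝ | (∀ i, |a i ⬝ᵥ x| ≤ 1) ∧ NSP a x}.ncard ≤
        2 * ((if Odd d then 3 else 5) * ((d - 1) / 2)) ∨
      2 ^ d ≤ (Set.extremePoints ℝ {x : Fin d → ℝ | ∀ i, |a i ⬝ᵥ x| ≤ 1}).ncard)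
    {P : Set (Fin d → ℝ)}
    (hP : (P = {x | ∀ i, |a i ⬝ᵥ x| ≤ 1} ∧ Bornology.IsBounded P) ∨
      (P = convexHull ℝ (Set.range a ∪ Set.range (fun i => -a i)) ∧ (interior P).Nonempty))
    (hN : (Fc P).encard ≤ (3 : ℕ∞) ^ d) :
    ∃ Q : Set (Fin d → ℝ), (Q = {x | ∀ i, |x i| ≤ 1} ∨ Q = {x | ∑ i, |x i| ≤ 1}) ∧
      Han d Q ∧
      (∃ (L : (Fin d → ℝ) ≃ₗ[ℝ] (Fin d → ℝ)), P = (fun x => L x) '' Q) ∧
      Nonempty ({F : Set (Fin d → ℝ) // IsExposed ℝ P F ∧ F.Nonempty} ≃o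
        {G : Set (Fin d → ℝ) // IsExposed ℝ Q G ∧ G.Nonempty}) := by
  have hinj := inj_of a hP
  have hle := cells_le (by omega) a hP
  have h3 := hle.trans hN
  have h4 : GRD.NL (LinearMap.range (TL a)) ≤ 3 ^ d := by exact_mod_cast h3
  refine shape (by omega) a hP ?_
  rcases h' with h' | h'
  · exact (few_final (by omega) a hinj h h').2 hd h4
  · exact many_final (by omega) a hinj h h' h4

end

end Pool.Agent.CTC
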