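import Pool.Agent.WLP.Faces
import Pool.Agent.KST.G0

/-!
# The nonempty exposed faces of a centrally symmetric polytope come from cells
-/

set_option autoImplicit false

open scoped BigOperators RealInnerProductSpace

namespace Pool.Agent.CTC

noncomputable section

open Classical

open Pool.Agent.KST (E IsCell Cells Pol)

variable {α : Type} [Fintype α] {d : ℕ}

theorem fcc_convex (a : α → E d) : Convex ℝ (Pol a) := by
  intro x hx y hy p q hp hq hpq i
  rw [inner_add_right, real_inner_smul_right, real_inner_smul_right]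
  calc |p * ⟪a i, x⟫ + q * ⟪a i, y⟫| ≤ |p * ⟪a i, x⟫| + |q * ⟪a i, y⟫| := abs_add_le _ _
    _ = p * |⟪a i, x⟫| + q * |⟪a i, y⟫| := by
        rw [abs_mul, abs_mul, abs_of_nonneg hp, abs_of_nonneg hq]
    _ ≤ p * 1 + q * 1 :=
        add_le_add (mul_le_mul_of_nonneg_left (hx i) hp) (mul_le_mul_of_nonneg_left (hy i) hq)
    _ = 1 := by linarith

/-- a point of a cell can be moved away from a point of the closed face -/
theorem fcc_move {a : α → E d} {s : α → SignType} {x y : E d} (hx : IsCell a s x)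
    (hy : ∀ i, s i ≠ 0 → ⟪a i, y⟫ = ((s i : SignType) : ℝ)) :
    ∃ ε : ℝ, 0 < ε ∧ x + ε • (x - y) ∈ Pol a := by
  have h : ∀ i, ∃ ε : ℝ, 0 < ε ∧ ∀ δ, 0 < δ → δ ≤ ε → |⟪a i, x + δ • (x - y)⟫| ≤ 1 := by
    intro i
    by_cases hi : s i = 0
    · have hlt := (hx i).1 hi
      refine ⟨(1 - |⟪a i, x⟫|) / (|⟪a i, x - y⟫| + 1), ?_, fun δ hδ hδ' => ?_⟩
      · apply div_pos (by linarith) (by positivity)
      · rw [inner_add_right, inner_smul_right]
        have h1 : |δ * ⟪a i, x - y⟫| ≤ 1 - |⟪a i, x⟫| := by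
          rw [abs_mul, abs_of_pos hδ]
          rw [le_div_iff₀ (by positivity)] at hδ'
          nlinarith [abs_nonneg ⟪a i, x - y⟫]
        have h2 := abs_add_le ⟪a i, x⟫ (δ * ⟪a i, x - y⟫)
        linarith
    · refine ⟨1, one_pos, fun δ _ _ => ?_⟩
      rw [inner_add_right, inner_smul_right, inner_sub_right, (hx i).2 hi, hy i hi, sub_self,
        mul_zero, add_zero, WLP.fc_abs hi]
  choose ε hε using h
  by_cases hα : Nonempty α
  · refine ⟨Finset.univ.inf' Finset.univ_nonempty ε, ?_, fun i => ?_⟩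
    · rw [Finset.lt_inf'_iff]
      exact fun i _ => (hε i).1
    · apply (hε i).2
      · rw [Finset.lt_inf'_iff]
        exact fun i _ => (hε i).1
      · exact Finset.inf'_le _ (Finset.mem_univ i)
  · exact ⟨1, one_pos, fun i => absurd ⟨i⟩ hα⟩

/-- every nonempty exposed face is the closed face of a cell -/
theorem exposed_eq (a : α → E d) {F : Set (E d)} (hF : F.Nonempty)
    (hE : IsExposed ℝ (Pol a) F) : ∃ s ∈ Cells a, WLP.cface a s = F := by
  have hFP : F ⊆ Pol a := hE.subset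
  have hFc : Convex ℝ F := hE.convex (fcc_convex a)
  obtain ⟨l, hl⟩ := hE hF
  let N : E d → ℕ := fun x => (Finset.univ.filter (fun i => |⟪a i, x⟫| = 1)).card
  obtain ⟨x0, hx0⟩ := hF
  have hS : {k : ℕ | ∃ x ∈ F, N x = k}.Nonempty := ⟨N x0, x0, hx0, rfl⟩
  obtain ⟨x, hx, hxN⟩ := Nat.sInf_mem hS
  have hmin : ∀ y ∈ F, N x ≤ N y := by
    intro y hy
    rw [hxN]
    exact Nat.sInf_le ⟨y, hy, rfl⟩
  obtain ⟨s, hs⟩ := Pool.Agent.KST.exists_cell (hFP hx)
  refine ⟨s, Pool.Agent.KST.mem_cells.2 ⟨x, hs⟩, ?_⟩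
  ext y
  constructor
  · rintro ⟨hyP, hys⟩
    rw [hl]
    refine ⟨hyP, fun z hz => ?_⟩
    have hxl : ∀ z ∈ Pol a, l z ≤ l x := by
      have h1 : x ∈ {x | x ∈ Pol a ∧ ∀ y ∈ Pol a, l y ≤ l x} := by
        rw [← hl]
        exact hx
      exact h1.2
    refine le_trans (hxl z hz) ?_
    obtain ⟨ε, hε, h2⟩ := fcc_move hs hys
    have h3 := hxl _ h2
    rw [map_add, map_smul, map_sub, smul_eq_mul] at h3
    by_contra hcon
    push Not at hcon
    have h4 : 0 < ε * (l x - l y) := mul_pos hε (by linarith)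
    linarith
  · intro hy
    refine ⟨hFP hy, fun i hi => ?_⟩
    by_contra hne
    set m : E d := (1 / 2 : ℝ) • x + (1 / 2 : ℝ) • y with hm
    have hmF : m ∈ F := hFc hx hy (by norm_num) (by norm_num) (by norm_num)
    have hmi : ∀ k, ⟪a k, m⟫ = (⟪a k, x⟫ + ⟪a k, y⟫) / 2 := by
      intro k
      rw [hm, inner_add_right, inner_smul_right, inner_smul_right]
      ring
    have htight : ∀ k, |⟪a k, m⟫| = 1 → ⟪a k, x⟫ = ⟪a k, y⟫ ∧ |⟪a k, x⟫| = 1 := by
      intro k hk
      have h1 := abs_le.1 (hFP hx k)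
      have h2 := abs_le.1 (hFP hy k)
      rw [hmi] at hk
      rcases eq_or_eq_neg_of_abs_eq hk with h3 | h3
      · have h4 : ⟪a k, x⟫ = 1 := by linarith [h1.2, h2.2]
        have h5 : ⟪a k, y⟫ = 1 := by linarith [h1.2, h2.2]
        rw [h4, h5]
        exact ⟨rfl, abs_one⟩
      · have h4 : ⟪a k, x⟫ = -1 := by linarith [h1.1, h2.1]
        have h5 : ⟪a k, y⟫ = -1 := by linarith [h1.1, h2.1]
        rw [h4, h5]
        exact ⟨rfl, by norm_num⟩
    have hlt : N m < N x := by
      apply Finset.card_lt_card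
      rw [Finset.ssubset_iff_of_subset]
      · refine ⟨i, ?_, ?_⟩
        · rw [Finset.mem_filter]
          refine ⟨Finset.mem_univ _, ?_⟩
          rw [(hs i).2 hi, WLP.fc_abs hi]
        · rw [Finset.mem_filter]
          rintro ⟨-, h1⟩
          have h2 := (htight i h1).1
          rw [(hs i).2 hi] at h2
          exact hne h2.symm
      · intro k hk
        rw [Finset.mem_filter] at hk ⊢
        exact ⟨Finset.mem_univ _, (htight k hk.2).2⟩
    exact absurd (hmin m hmF) (not_le.2 hlt)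

/-- there are at most as many nonempty exposed faces as cells -/
theorem faces_le_cells (a : α → E d) :
    {F : Set (E d) | F.Nonempty ∧ IsExposed ℝ (Pol a) F}.encard ≤ ((Cells a).card : ℕ∞) := by
  have h1 : {F : Set (E d) | F.Nonempty ∧ IsExposed ℝ (Pol a) F} ⊆
      WLP.cface a '' ((Cells a : Finset (α → SignType)) : Set (α → SignType)) := by
    rintro F ⟨hF, hE⟩
    obtain ⟨s, hs, hsF⟩ := exposed_eq a hF hE
    exact ⟨s, Finset.mem_coe.2 hs, hsF⟩
  calc {F : Set (E d) | F.Nonempty ∧ IsExposed ℝ (Pol a) F}.encard ≤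
        (WLP.cface a '' ((Cells a : Finset (α → SignType)) : Set (α → SignType))).encard :=
        Set.encard_le_encard h1
    _ ≤ ((Cells a : Finset (α → SignType)) : Set (α → SignType)).encard := Set.encard_image_le _ _
    _ = ((Cells a).card : ℕ∞) := Set.encard_coe_eq_coe_finsetCard _

end

end Pool.Agent.CTC
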