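import Pool.Agent.CTC.FcFin
import Pool.Agent.CTC.FaceCells
import Pool.Agent.WLP.Low56F
import Pool.Agent.GRD.Geom
import Pool.Agent.KEQ.Kal4

/-!
# Centrally symmetric polytopes with simple vertex figures: the inequality
-/

set_option autoImplicit false

open scoped BigOperators RealInnerProductSpace

namespace Pool.Agent.CTC

noncomputable section

open Classical

open Pool.Agent.K3E (TL TL_apply Fc Cube Cross Han)

open Pool.Agent.KST (E Pol Cells up inner_up mem_pol_up li_up li_congr bdd_up cells_card_NL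
  para_equiv cells_le inj_of shape NatHyp cells_final)

variable {d : ℕ}

/-- dimension at most four -/
theorem low4 (hd : d ≤ 4) {n : ℕ} (a : Fin n → E d) (hb : Bornology.IsBounded (Pol a)) :
    3 ^ d ≤ (Cells a).card := by
  have h1 : (3 : ℕ∞) ^ d ≤
      {F : Set (E d) | F.Nonempty ∧ IsExposed ℝ (Pol a) F}.encard := by
    refine GRD.final 4 ?_ a id (fun _ => 1) (by omega) ?_ (Pol a) (Or.inl ⟨rfl, hb⟩)
    · intro j h4 hj S hint hsym
      have : j = 4 := by omega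
      subst this
      exact KEQ.kal4 S hint hsym
    · intro β _
      exact ⟨β, fun i => by simp⟩
  have h2 := h1.trans (faces_le_cells a)
  exact_mod_cast h2

/-- dimension at most six -/
theorem low6 (hd : d ≤ 6) {n : ℕ} (a : Fin n → Fin d → ℝ)
    (hinj : ∀ z, (∀ i, a i ⬝ᵥ z = 0) → z = 0) (h : SVF a) :
    3 ^ d ≤ GRD.NL (LinearMap.range (TL a)) := by
  have hb := bdd_up a hinj
  rw [← cells_card_NL]
  by_cases h4 : d ≤ 4
  · exact low4 h4 (up a) hb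
  · have h2 := (WLP.kalai56 (by omega) (up a) hb (svf_up h)).trans (faces_le_cells (up a))
    exact_mod_cast h2

/-- many vertices -/
theorem many_ineq (hd : 1 ≤ d) {n : ℕ} (a : Fin n → Fin d → ℝ)
    (hinj : ∀ z, (∀ i, a i ⬝ᵥ z = 0) → z = 0) (h : SVF a)
    (hV : 2 ^ d ≤ (Set.extremePoints ℝ {x : Fin d → ℝ | ∀ i, |a i ⬝ᵥ x| ≤ 1}).ncard) :
    3 ^ d ≤ GRD.NL (LinearMap.range (TL a)) := by
  have hb := bdd_up a hinj
  rw [← cells_card_NL]
  obtain ⟨e, rfl⟩ : ∃ e, d = e + 1 := ⟨d - 1, by omega⟩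
  have h1 := WLP.kalaiB (up a) hb (svf_up h)
  have h3 : (2 : ℤ) ^ (e + 1) ≤ ((Set.extremePoints ℝ (Pol (up a))).ncard : ℤ) := by
    rw [ext_ncard]
    exact_mod_cast hV
  have h4 : (0 : ℤ) ≤ 2 ^ (e / 2) *
      (((Set.extremePoints ℝ (Pol (up a))).ncard : ℤ) - 2 ^ (e + 1)) :=
    mul_nonneg (by positivity) (by linarith)
  have h5 : (3 : ℤ) ^ (e + 1) ≤ ((Cells (up a)).card : ℤ) := by linarith
  exact_mod_cast h5

/-- the lower bound in all dimensions -/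
theorem bplus (hd : 3 ≤ d) {n : ℕ} (a : Fin n → Fin d → ℝ)
    (hinj : ∀ z, (∀ i, a i ⬝ᵥ z = 0) → z = 0) (h : SVF a) :
    ∃ L : Finset (Fin n), {x : Fin d → ℝ | ∀ i, |a i ⬝ᵥ x| ≤ 1} = {x | ∀ i ∈ L, |a i ⬝ᵥ x| ≤ 1} ∧
      (3 : ℤ) ^ d + 2 ^ ((d - 1) / 2) *
          (((Set.extremePoints ℝ {x : Fin d → ℝ | ∀ i, |a i ⬝ᵥ x| ≤ 1}).ncard : ℤ) - 2 ^ d) +
        (2 ^ (d - 1) + 2 - 2 * 2 ^ ((d - 1) / 2)) * (2 * (L.card : ℤ) - 2 * d) ≤
      (GRD.NL (LinearMap.range (TL a)) : ℤ) := by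
  have hb := bdd_up a hinj
  rw [← cells_card_NL, ← ext_ncard]
  obtain ⟨e, rfl⟩ : ∃ e, d = e + 1 := ⟨d - 1, by omega⟩
  obtain ⟨L, hL, h1⟩ := WLP.kalaiBP (by omega) (up a) hb (svf_up h)
  refine ⟨L, ?_, ?_⟩
  · ext x
    have h2 := mem_pol_up a (WithLp.toLp 2 x)
    rw [hL] at h2
    constructor
    · intro hx i hi
      have h3 := h2.2 hx i hi
      rwa [inner_up] at h3
    · intro hx
      refine h2.1 fun i hi => ?_
      rw [inner_up]
      exact hx i hi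
  · simp only [Nat.add_sub_cancel]
    push_cast at h1 ⊢
    linarith

/-- the theorem for the polytope -/
theorem final_ineq (hd : 1 ≤ d) {n : ℕ} (a : Fin n → Fin d → ℝ) (h : SVF a)
    {P : Set (Fin d → ℝ)}
    (hP : (P = {x | ∀ i, |a i ⬝ᵥ x| ≤ 1} ∧ Bornology.IsBounded P) ∨
      (P = convexHull ℝ (Set.range a ∪ Set.range (fun i => -a i)) ∧ (interior P).Nonempty)) :
    (3 ≤ d → ∃ L : Finset (Fin n),
      {x : Fin d → ℝ | ∀ i, |a i ⬝ᵥ x| ≤ 1} = {x | ∀ i ∈ L, |a i ⬝ᵥ x| ≤ 1} ∧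
      ∀ N : ℕ, (Fc P).encard = N →
        (3 : ℤ) ^ d + 2 ^ ((d - 1) / 2) *
          (((Set.extremePoints ℝ {x : Fin d → ℝ | ∀ i, |a i ⬝ᵥ x| ≤ 1}).ncard : ℤ) - 2 ^ d) +
        (2 ^ (d - 1) + 2 - 2 * 2 ^ ((d - 1) / 2)) * (2 * (L.card : ℤ) - 2 * d) ≤ N) ∧
    ((d ≤ 6 ∨ 2 ^ d ≤ (Set.extremePoints ℝ {x : Fin d → ℝ | ∀ i, |a i ⬝ᵥ x| ≤ 1}).ncard ∨
      {x : Fin d → ℝ | (∀ i, |a i ⬝ᵥ x| ≤ 1) ∧ NSP a x}.ncard ≤
        2 * ((if Odd d then 3 else 5) * ((d - 1) / 2)) ∨ NatHyp a) →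
      (3 : ℕ∞) ^ d ≤ (Fc P).encard) := by
  have hinj := inj_of a hP
  have hle := cells_le hd a hP
  refine ⟨fun h3 => ?_, fun h' => ?_⟩
  · obtain ⟨L, hL, h1⟩ := bplus h3 a hinj h
    refine ⟨L, hL, fun N hN => ?_⟩
    rw [hN] at hle
    have h2 : GRD.NL (LinearMap.range (TL a)) ≤ N := by exact_mod_cast hle
    exact h1.trans (by exact_mod_cast h2)
  · refine le_trans ?_ hle
    have h1 : 3 ^ d ≤ GRD.NL (LinearMap.range (TL a)) := by
      rcases h' with h' | h' | h' | h'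
      · exact low6 h' a hinj h
      · exact many_ineq hd a hinj h h'
      · exact (few_final hd a hinj h h').1
      · exact (cells_final a hinj (Or.inl h')).1
    exact_mod_cast h1

/-- the lower bound in all dimensions, for the polytope -/
theorem final_bplus (hd : 3 ≤ d) {n : ℕ} (a : Fin n → Fin d → ℝ) (h : SVF a)
    {P : Set (Fin d → ℝ)}
    (hP : (P = {x | ∀ i, |a i ⬝ᵥ x| ≤ 1} ∧ Bornology.IsBounded P) ∨
      (P = convexHull ℝ (Set.range a ∪ Set.range (fun i => -a i)) ∧ (interior P).Nonempty)) :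
    (Fc P).Finite ∧ ∃ L : Finset (Fin n),
      {x : Fin d → ℝ | ∀ i, |a i ⬝ᵥ x| ≤ 1} = {x | ∀ i ∈ L, |a i ⬝ᵥ x| ≤ 1} ∧
        (3 : ℤ) ^ d + 2 ^ ((d - 1) / 2) *
          (((Set.extremePoints ℝ {x : Fin d → ℝ | ∀ i, |a i ⬝ᵥ x| ≤ 1}).ncard : ℤ) - 2 ^ d) +
        (2 ^ (d - 1) + 2 - 2 * 2 ^ ((d - 1) / 2)) * (2 * (L.card : ℤ) - 2 * d) ≤
        ((Fc P).ncard : ℤ) := by
  have hfin := fc_finite a hP
  refine ⟨hfin, ?_⟩
  obtain ⟨L, hL, h1⟩ := bplus hd a (inj_of a hP) h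
  refine ⟨L, hL, h1.trans ?_⟩
  have hle := cells_le (by omega) a hP
  rw [← hfin.cast_ncard_eq] at hle
  have h2 : GRD.NL (LinearMap.range (TL a)) ≤ (Fc P).ncard := by exact_mod_cast hle
  exact_mod_cast h2

end

end Pool.Agent.CTC
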