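import Pool.Agent.CTC.FE
import Pool.Agent.WLP.Eq56F
import Pool.Agent.KLS.Fin

/-!
# Centrally symmetric polytopes with simple vertex figures: the equality case
-/

set_option autoImplicit false

open scoped BigOperators RealInnerProductSpace

namespace Pool.Agent.CTC

noncomputable section

open Classical

open Pool.Agent.K3E (TL TL_apply Fc Cube Cross Han)

open Pool.Agent.KST (E Pol Cells up inner_up mem_pol_up li_up li_congr bdd_up cells_card_NL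
  para_equiv cells_le inj_of shape NatHyp cells_final)

variable {d : ℕ}

/-- dimensions five and six -/
theorem final56 (hd : 5 ≤ d) (hd6 : d ≤ 6) {n : ℕ} (a : Fin n → Fin d → ℝ)
    (hinj : ∀ z, (∀ i, a i ⬝ᵥ z = 0) → z = 0) (h : SVF a)
    (hN : GRD.NL (LinearMap.range (TL a)) ≤ 3 ^ d) :
    ∃ L : (Fin d → ℝ) ≃ₗ[ℝ] (Fin d → ℝ),
      {x | ∀ i, |a i ⬝ᵥ x| ≤ 1} = {x | L x ∈ Cube d} := by
  have hb := bdd_up a hinj
  rw [← cells_card_NL] at hN
  obtain ⟨L, hL, hLI, hP⟩ := WLP.kalai56_eq (by omega) (up a) hb (svf_up h) hN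
  exact para_equiv a hb L hL hP

/-- at most `d + 1` facets through every point -/
theorem finalT (hd : 5 ≤ d) {n : ℕ} (a : Fin n → Fin d → ℝ)
    (hinj : ∀ z, (∀ i, a i ⬝ᵥ z = 0) → z = 0) (h : SVF a) (hf : FewT a)
    (hN : GRD.NL (LinearMap.range (TL a)) ≤ 3 ^ d) :
    ∃ L : (Fin d → ℝ) ≃ₗ[ℝ] (Fin d → ℝ),
      {x | ∀ i, |a i ⬝ᵥ x| ≤ 1} = {x | L x ∈ Cube d} := by
  rcases Nat.lt_or_ge 6 d with h6 | h6
  · have hb := bdd_up a hinj
    rw [← cells_card_NL] at hN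
    obtain ⟨e, rfl⟩ : ∃ e, d = e + 1 := ⟨d - 1, by omega⟩
    obtain ⟨L, hL, hLI, hP⟩ := KLE.kalaiE_eq (by omega) (up a) hb (svf_up' h) (fewT_up hf) hN
    exact para_equiv a hb L hL hP
  · exact final56 hd h6 a hinj h hN

/-- all sufficient conditions together -/
theorem final_eq_all (hd : 5 ≤ d) {n : ℕ} (a : Fin n → Fin d → ℝ) (h : SVF a)
    (h' : d ≤ 6 ∨ FewT a ∨
      2 ^ d ≤ (Set.extremePoints ℝ {x : Fin d → ℝ | ∀ i, |a i ⬝ᵥ x| ≤ 1}).ncard ∨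
      {x : Fin d → ℝ | (∀ i, |a i ⬝ᵥ x| ≤ 1) ∧ NSP a x}.ncard ≤
        2 * ((if Odd d then 3 else 5) * ((d - 1) / 2)) ∨ NatHyp a)
    {P : Set (Fin d → ℝ)}
    (hP : (P = {x | ∀ i, |a i ⬝ᵥ x| ≤ 1} ∧ Bornology.IsBounded P) ∨
      (P = convexHull ℝ (Set.range a ∪ Set.range (fun i => -a i)) ∧ (interior P).Nonempty))
    (hN : (Fc P).encard ≤ (3 : ℕ∞) ^ d) :
    ∃ Q : Set (Fin d → ℝ), (Q = {x | ∀ i, |x i| ≤ 1} ∨ Q = {x | ∑ i, |x i| ≤ 1}) ∧
      Han d Q ∧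
      (∃ (L : (Fin d → ℝ) ≃ₗ[ℝ] (Fin d → ℝ)), P = (fun x => L x) '' Q) ∧
      Nonempty ({F : Set (Fin d → ℝ) // IsExposed ℝ P F ∧ F.Nonempty} ≃o
        {G : Set (Fin d → ℝ) // IsExposed ℝ Q G ∧ G.Nonempty}) := by
  have hinj := inj_of a hP
  have hle := cells_le (by omega) a hP
  have h3 := hle.trans hN
  have h4 : GRD.NL (LinearMap.range (TL a)) ≤ 3 ^ d := by exact_mod_cast h3
  refine shape (by omega) a hP ?_
  rcases h' with h' | h' | h' | h' | h'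
  · exact final56 hd h' a hinj h h4
  · exact finalT hd a hinj h h' h4
  · exact many_final (by omega) a hinj h h' h4
  · exact (few_final (by omega) a hinj h h').2 hd h4
  · exact (cells_final a hinj (Or.inl h')).2 h4

end

end Pool.Agent.CTC
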