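import Pool.Agent.CTC.F3
import Pool.Agent.KLE.Fin

/-!
# Centrally symmetric polytopes with simple vertex figures: the exact inequality
-/

set_option autoImplicit false

open scoped BigOperators RealInnerProductSpace

namespace Pool.Agent.CTC

noncomputable section

open Classical

open Pool.Agent.K3E (TL TL_apply Fc Cube Cross Han)

open Pool.Agent.KST (E Pol Cells up inner_up mem_pol_up li_up li_congr bdd_up cells_card_NL
  para_equiv cells_le inj_of shape)

variable {d : ℕ}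

/-- at most `d + 1` facets through every point -/
def FewT {n : ℕ} (a : Fin n → Fin d → ℝ) : Prop :=
  ∀ x : Fin d → ℝ, (∀ i, |a i ⬝ᵥ x| ≤ 1) → {i : Fin n | |a i ⬝ᵥ x| = 1}.ncard ≤ d + 1

theorem fewT_up {n : ℕ} {a : Fin n → Fin d → ℝ} (h : FewT a) :
    ∀ x ∈ Pol (up a), (Finset.univ.filter (fun i => |⟪up a i, x⟫| = 1)).card ≤ d + 1 := by
  intro x hx
  have h1 := h x.ofLp ((mem_pol_up a x).1 hx)
  have h2 : {i : Fin n | |a i ⬝ᵥ x.ofLp| = 1} =
      ↑(Finset.univ.filter (fun i => |⟪up a i, x⟫| = 1)) := by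
    ext i
    rw [Finset.mem_coe, Finset.mem_filter, inner_up]
    simp
  rw [h2, Set.ncard_coe_finset] at h1
  exact h1

theorem svf_up' {n : ℕ} {a : Fin n → Fin d → ℝ} (h : SVF a) :
    ∀ x ∈ Pol (up a), x ∉ Set.extremePoints ℝ (Pol (up a)) →
      LinearIndependent ℝ (fun i : {i : Fin n // |⟪up a i, x⟫| = 1} => up a i.1) :=
  fun x hx h1 => by_contra fun h2 => h1 (svf_up h x hx h2)

/-- at most `d + 1` facets through every point: the inequality -/
theorem fewT_ineq (hd : 1 ≤ d) {n : ℕ} (a : Fin n → Fin d → ℝ)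
    (hinj : ∀ z, (∀ i, a i ⬝ᵥ z = 0) → z = 0) (h : SVF a) (hf : FewT a) :
    3 ^ d ≤ GRD.NL (LinearMap.range (TL a)) := by
  have hb := bdd_up a hinj
  rw [← cells_card_NL]
  obtain ⟨e, rfl⟩ : ∃ e, d = e + 1 := ⟨d - 1, by omega⟩
  exact KLE.kalaiE (up a) hb (svf_up' h) (fewT_up hf)

/-- the inequality for the polytope -/
theorem final_exact (hd : 1 ≤ d) {n : ℕ} (a : Fin n → Fin d → ℝ) (h : SVF a)
    {P : Set (Fin d → ℝ)}
    (hP : (P = {x | ∀ i, |a i ⬝ᵥ x| ≤ 1} ∧ Bornology.IsBounded P) ∨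
      (P = convexHull ℝ (Set.range a ∪ Set.range (fun i => -a i)) ∧ (interior P).Nonempty))
    (h' : d ≤ 6 ∨ FewT a ∨ {x : Fin d → ℝ | (∀ i, |a i ⬝ᵥ x| ≤ 1) ∧ NSP a x}.ncard ≤
        2 * ((if Odd d then 3 else 5) * ((d - 1) / 2))) :
    (3 : ℕ∞) ^ d ≤ (Fc P).encard := by
  have hinj := inj_of a hP
  refine le_trans ?_ (cells_le hd a hP)
  have h1 : 3 ^ d ≤ GRD.NL (LinearMap.range (TL a)) := by
    rcases h' with h' | h' | h'
    · exact low6 h' a hinj h
    · exact fewT_ineq hd a hinj h h'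
    · exact (few_final hd a hinj h h').1
  exact_mod_cast h1

end

end Pool.Agent.CTC
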