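import Pool.Agent.CTC.F2
import Pool.Agent.WLP.Final

/-!
# Finitely many exposed faces
-/

set_option autoImplicit false

open scoped BigOperators RealInnerProductSpace

namespace Pool.Agent.CTC

noncomputable section

open Classical

open Pool.Agent.K3E (TL TL_apply Fc Cube Cross Han)

open Pool.Agent.KST (E Pol Cells up inner_up mem_pol_up bdd_up inj_of)

variable {d : ℕ}

/-- an exposed face is the convex hull of the points of `S` on it -/
theorem fcf_hull (S : Finset (Fin d → ℝ)) (F : Set (Fin d → ℝ))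
    (hF : F ∈ Fc (convexHull ℝ (S : Set (Fin d → ℝ)))) :
    F = convexHull ℝ {x | x ∈ S ∧ x ∈ F} := by
  obtain ⟨hex, hne⟩ := hF
  obtain ⟨l, hl⟩ := hex hne
  apply Set.Subset.antisymm
  · intro x hx
    have hx' := hx
    rw [hl] at hx'
    obtain ⟨hxc, hxm⟩ := hx'
    obtain ⟨w, hw0, hw1, hwx⟩ := Finset.mem_convexHull'.1 hxc
    have hsub : ∀ s ∈ S, l s ≤ l x := fun s hs => hxm s (subset_convexHull ℝ _ hs)
    have hsum : ∑ s ∈ S, w s * (l x - l s) = 0 := by
      have h1 : l x = ∑ s ∈ S, w s * l s := by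
        rw [← hwx, map_sum]
        exact Finset.sum_congr rfl fun s _ => by rw [map_smul, smul_eq_mul]
      have h2 : ∑ s ∈ S, w s * (l x - l s) = (∑ s ∈ S, w s) * l x - ∑ s ∈ S, w s * l s := by
        rw [Finset.sum_mul, ← Finset.sum_sub_distrib]
        exact Finset.sum_congr rfl fun s _ => by ring
      rw [h2, hw1, ← h1]; ring
    have hz : ∀ s ∈ S, w s * (l x - l s) = 0 :=
      (Finset.sum_eq_zero_iff_of_nonneg (fun s hs =>
        mul_nonneg (hw0 s hs) (sub_nonneg.2 (hsub s hs)))).1 hsum
    have hmem : ∀ s ∈ S, w s ≠ 0 → s ∈ {x | x ∈ S ∧ x ∈ F} := by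
      intro s hs hws
      have : l s = l x := by
        have := (mul_eq_zero.1 (hz s hs)).resolve_left hws
        linarith
      refine ⟨hs, ?_⟩
      rw [hl]
      exact ⟨subset_convexHull ℝ _ hs, fun y hy => this ▸ hxm y hy⟩
    have hsum1 : ∑ s ∈ S.filter (fun s => w s ≠ 0), w s = 1 := by
      rw [Finset.sum_filter_ne_zero]; exact hw1
    have hx2 : ∑ s ∈ S.filter (fun s => w s ≠ 0), w s • s = x := by
      rw [← hwx]
      refine Finset.sum_subset (Finset.filter_subset _ _) fun s hs hns => ?_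
      have : w s = 0 := by
        by_contra h
        exact hns (Finset.mem_filter.2 ⟨hs, h⟩)
      rw [this, zero_smul]
    rw [← hx2]
    refine (convex_convexHull ℝ _).sum_mem (fun s hs => hw0 s (Finset.mem_filter.1 hs).1) hsum1
      (fun s hs => subset_convexHull ℝ _ (hmem s (Finset.mem_filter.1 hs).1
        (Finset.mem_filter.1 hs).2))
  · refine convexHull_min (fun x hx => hx.2) ?_
    exact hex.convex (convex_convexHull ℝ _)

theorem fcf_finite (S : Finset (Fin d → ℝ)) :
    (Fc (convexHull ℝ (S : Set (Fin d → ℝ)))).Finite := by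
  have hinj : Set.InjOn (fun F : Set (Fin d → ℝ) => S.filter (fun x => x ∈ F))
      (Fc (convexHull ℝ (S : Set (Fin d → ℝ)))) := by
    intro F hF G hG hFG
    rw [fcf_hull S F hF, fcf_hull S G hG]
    congr 1
    ext x
    have : x ∈ S.filter (fun x => x ∈ F) ↔ x ∈ S.filter (fun x => x ∈ G) := by
      simp only at hFG
      rw [hFG]
    simpa [Finset.mem_filter] using this
  refine Set.Finite.of_finite_image (Set.Finite.subset (S.powerset.finite_toSet) ?_) hinj
  rintro _ ⟨F, _, rfl⟩
  exact Finset.mem_coe.2 (Finset.mem_powerset.2 (Finset.filter_subset _ _))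

/-- the extreme points of the polytope -/
theorem ext_fin {n : ℕ} (a : Fin n → Fin d → ℝ) :
    (Set.extremePoints ℝ {x : Fin d → ℝ | ∀ i, |a i ⬝ᵥ x| ≤ 1}).Finite := by
  have h := WLP.ext_finite (up a)
  rw [ext_image] at h
  exact Set.Finite.of_finite_image h
    (WithLp.linearEquiv 2 ℝ (Fin d → ℝ)).symm.injective.injOn

/-- finitely many nonempty exposed faces -/
theorem fc_finite {n : ℕ} (a : Fin n → Fin d → ℝ) {P : Set (Fin d → ℝ)}
    (hP : (P = {x | ∀ i, |a i ⬝ᵥ x| ≤ 1} ∧ Bornology.IsBounded P) ∨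
      (P = convexHull ℝ (Set.range a ∪ Set.range (fun i => -a i)) ∧ (interior P).Nonempty)) :
    (Fc P).Finite := by
  rcases hP with ⟨h1, h2⟩ | ⟨h1, -⟩
  · have hcl : IsClosed P := by
      have : P = ⋂ i, {x : Fin d → ℝ | |a i ⬝ᵥ x| ≤ 1} := by
        rw [h1]
        ext x
        simp
      rw [this]
      refine isClosed_iInter fun i => isClosed_le ?_ continuous_const
      unfold dotProduct
      fun_prop
    have hcv : Convex ℝ P := by
      rw [h1]
      intro x hx y hy p q hp hq hpq i
      rw [dotProduct_add, dotProduct_smul, dotProduct_smul, smul_eq_mul, smul_eq_mul]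
      calc |p * (a i ⬝ᵥ x) + q * (a i ⬝ᵥ y)| ≤ |p * (a i ⬝ᵥ x)| + |q * (a i ⬝ᵥ y)| :=
            abs_add_le _ _
        _ = p * |a i ⬝ᵥ x| + q * |a i ⬝ᵥ y| := by
            rw [abs_mul, abs_mul, abs_of_nonneg hp, abs_of_nonneg hq]
        _ ≤ p * 1 + q * 1 :=
            add_le_add (mul_le_mul_of_nonneg_left (hx i) hp)
              (mul_le_mul_of_nonneg_left (hy i) hq)
        _ = 1 := by linarith
    have hcomp : IsCompact P := Metric.isCompact_of_isClosed_isBounded hcl h2
    have hfin : (Set.extremePoints ℝ P).Finite := by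
      rw [h1]
      exact ext_fin a
    have hhull : convexHull ℝ ((hfin.toFinset : Finset (Fin d → ℝ)) : Set (Fin d → ℝ)) = P := by
      rw [Set.Finite.coe_toFinset]
      have h3 := closure_convexHull_extremePoints hcomp hcv
      rwa [(hfin.isClosed_convexHull ℝ).closure_eq] at h3
    rw [← hhull]
    exact fcf_finite _
  · have hfin : (Set.range a ∪ Set.range (fun i => -a i)).Finite :=
      (Set.finite_range _).union (Set.finite_range _)
    have h3 := fcf_finite hfin.toFinset
    rw [Set.Finite.coe_toFinset, ← h1] at h3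
    exact h3

end

end Pool.Agent.CTC
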