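import Pool.Agent.KST.Q1
import Pool.Agent.KST.Q2
import Pool.Agent.KST.G3
import Pool.Agent.KST.G4
import Pool.Agent.CTC.Defs

/-!
# The numbers of a simple polytope with cut facets

All facts about the numbers `k n` and `H n` used in the main inequality; the symmetry of the facet
numbers and the inequality of the stars are hypotheses here.
-/

set_option autoImplicit false

open scoped BigOperators RealInnerProductSpace

namespace Pool.Agent.CTC

noncomputable section

open Classical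

open Pool.Agent.KST (E Fn supp Le IsCell Cells Verts Simple Pol pt PP Gen Star VF Low Sweep sgn EE X
  D FF Par Ker S hh LowF Inside)

variable {ι : Type} [Fintype ι] {d : ℕ}

omit [Fintype ι] in
private theorem sum_pow_hhC (V : Finset (ι → SignType)) (P : (ι → SignType) → Finset ι)
    (hP : ∀ v ∈ V, (P v).card ≤ d) :
    ∑ v ∈ V, 2 ^ (P v).card = ∑ n ∈ Finset.range (d + 1), 2 ^ n * hh V P n := by
  rw [← Finset.sum_fiberwise_of_maps_to (t := Finset.range (d + 1))
    (g := fun v => (P v).card) (fun v hv => Finset.mem_range.2 (by have := hP v hv; omega))]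
  refine Finset.sum_congr rfl fun n _ => ?_
  rw [hh, Finset.sum_congr rfl (g := fun _ => 2 ^ n) (fun v hv => by
    rw [(Finset.mem_filter.1 hv).2])]
  rw [Finset.sum_const, smul_eq_mul, mul_comm]

private theorem VF_eq_emptyC {b : ι → E d} {j : ι} (h : ¬ ∃ t ∈ Cells b, t j = 1) :
    VF b j = ∅ := by
  rw [Finset.eq_empty_iff_forall_notMem]
  intro v hv
  have h1 := Finset.mem_filter.1 hv
  exact h ⟨v, (Finset.mem_filter.1 h1.1).1, h1.2⟩

private theorem hh_zeroC {b : ι → E d} (hS : Simple b) (hb : Bornology.IsBounded (Pol b)) {a : E d}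
    (ha : Gen b a) : hh (Verts b) (PP b a) 0 ≤ 1 := by
  have hW := Pool.Agent.KST.sweep_cells hS hb ha
  unfold hh
  rw [Finset.card_le_one]
  intro v hv w hw
  obtain ⟨hv1, hv2⟩ := Finset.mem_filter.mp hv
  obtain ⟨hw1, hw2⟩ := Finset.mem_filter.mp hw
  have key : ∀ v : ι → SignType, (PP b a v).card = 0 → Low (PP b a) v 0 := by
    intro v hv
    refine ⟨fun l hl => absurd rfl hl, fun l hl => ?_⟩
    rw [Finset.card_eq_zero.mp hv] at hl
    exact absurd hl (Finset.notMem_empty l)
  exact hW.uniq 0 hW.zero v hv1 w hw1 (key v hv2) (key w hw2)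

private theorem hh_dC {b : ι → E d} (hS : Simple b) (hb : Bornology.IsBounded (Pol b)) {a : E d}
    (ha : Gen b a) {j : ι} (hl : LowF b a j) : hh (VF b j) (PP b a) d = 0 := by
  unfold hh
  rw [Finset.card_eq_zero, Finset.filter_eq_empty_iff]
  intro v hv hc
  have hv' := Finset.mem_filter.1 hv
  have h1 := Pool.Agent.KST.notMem_PP hS hb ha hl hv
  have h2 : PP b a v ⊆ supp v := Finset.filter_subset _ _
  have h3 : (supp v).card = d := (Finset.mem_filter.1 hv'.1).2
  have h4 : PP b a v = supp v := Finset.eq_of_subset_of_card_le h2 (by rw [h3, hc])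
  refine h1 ?_
  rw [h4, supp, Finset.mem_filter]
  exact ⟨Finset.mem_univ _, by rw [hv'.2]; decide⟩

/-- all facts about the numbers -/
theorem facts {b c : ι → E d} (hS : Simple b) (hb : Bornology.IsBounded (Pol b))
    (hsw : ∀ (C V : Finset (ι → SignType)) (P : (ι → SignType) → Finset ι)
      (ht : (ι → SignType) → ℝ), Sweep b C V P ht → Sweep c C V P ht)
    (hsym : ∀ (j : ι) (n : ℕ), n + 1 ≤ d → Module.finrank ℝ ↥(FF (Star b j) n ⊓ Ker c) =
      Module.finrank ℝ ↥(FF (Star b j) (d - 1 - n) ⊓ Ker c))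
    {J : Finset ι}
    (hst : ∀ T ⊆ J, ∀ n m : ℕ, n + m = d → 1 ≤ n → 1 ≤ m → d ≤ 2 * m → Few b T n →
      ∑ j ∈ T, Module.finrank ℝ ↥(FF (Star b j) (m - 1) ⊓ Ker c) +
      ∑ j ∈ J \ T, Module.finrank ℝ ↥(FF (Star b j) m ⊓ Ker c) ≤
      Module.finrank ℝ ↥(FF (Cells b) m ⊓ Ker c ⊓ Par ι (-1))) :
    ∃ k H : ℕ → ℤ, k 0 = 0 ∧ (∀ n ≤ d, k (d - n) = k n) ∧ (∀ n < d, H (d - 1 - n) = H n) ∧
      (∀ n, 0 ≤ H n) ∧ (∀ m, d ≤ 2 * m → m < d → H m ≤ k m) ∧
      (∀ n Q : ℕ, 1 ≤ n → 2 * n < d → ∀ col : ι → Fin Q,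
        (∀ q, Few b (J.filter (fun j => col j = q)) n) →
        H n - H (n - 1) ≤ (Q : ℤ) * (k (d - n) - H (d - n))) ∧
      ((Cells b).card : ℤ) = 3 ^ d + 2 * ∑ n ∈ Finset.range (d + 1), 2 ^ n * k n ∧
      ∑ j ∈ J, (((Cells b).filter (fun s => s j = 1)).card : ℤ) =
        ∑ n ∈ Finset.range d, 2 ^ n * H n ∧
      H 0 ≤ ((J.filter (fun j => ∃ t ∈ Cells b, t j = 1)).card : ℤ) ∧
      ((Finset.univ.filter (fun l => ∃ t ∈ Cells b, t l = 1)).card : ℤ) ≤ d + k 1 := by
  obtain ⟨a, ha, -⟩ := Pool.Agent.KST.exists_gen_near hS 0 one_pos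
  choose aj haj hlj using fun j : ι => Pool.Agent.KST.exists_low hS j
  set κ : ℕ → ℕ := fun n => Module.finrank ℝ ↥(FF (Cells b) n ⊓ Ker c ⊓ Par ι (-1)) with hκ
  set κb : ℕ → ℕ := fun n => Module.finrank ℝ ↥(FF (Cells b) n ⊓ Ker b ⊓ Par ι (-1)) with hκb
  set g : ι → ℕ → ℕ := fun j n => hh (VF b j) (PP b (aj j)) n with hg
  set η : ι → ℕ → ℕ := fun j n => Module.finrank ℝ ↥(FF (Star b j) n ⊓ Ker c) with hη
  set r := (J.filter (fun j => ∃ t ∈ Cells b, t j = 1)).card with hr
  have hswb := Pool.Agent.KST.sweep_cells hS hb ha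
  have hswc := hsw _ _ _ _ hswb
  have hneg : ∀ s ∈ Cells b, -s ∈ Cells b := fun s hs => Pool.Agent.KST.neg_mem_cells hs
  -- the numbers h
  have e1 : ∀ n, 2 * κ n + d.choose n = hh (Verts b) (PP b a) n :=
    fun n => Pool.Agent.KST.finrank_minus hswc hneg n
  have e1b : ∀ n, 2 * κb n + d.choose n = hh (Verts b) (PP b a) n :=
    fun n => Pool.Agent.KST.finrank_minus hswb hneg n
  -- the number of cells
  have e2 : (Cells b).card = 3 ^ d + 2 * ∑ n ∈ Finset.range (d + 1), 2 ^ n * κ n := by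
    rw [Pool.Agent.KST.card_cells hS hb ha, sum_pow_hhC (Verts b) (PP b a)
      (fun v hv => Pool.Agent.KST.Q1_card_le hv)]
    have : ∀ n ∈ Finset.range (d + 1), 2 ^ n * hh (Verts b) (PP b a) n =
        2 ^ n * d.choose n + 2 * (2 ^ n * κ n) := by
      intro n _
      rw [← e1 n]; ring
    rw [Finset.sum_congr rfl this, Finset.sum_add_distrib, ← Finset.mul_sum]
    congr 1
    have h3 := add_pow (2 : ℕ) 1 d
    simp only [one_pow, mul_one] at h3
    exact h3.symm
  -- facets
  have vf : ∀ j, ∀ v ∈ VF b j, v ∈ Verts b := fun j v hv => (Finset.mem_filter.1 hv).1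
  have g_zero : ∀ j, (¬ ∃ t ∈ Cells b, t j = 1) → ∀ n, g j n = 0 := by
    intro j hj n
    simp only [hg, hh, VF_eq_emptyC hj, Finset.filter_empty, Finset.card_empty]
  have star_empty : ∀ j, (¬ ∃ t ∈ Cells b, t j = 1) → ∀ n, η j n = 0 := by
    intro j hj n
    have h0 : (FF (Star b j) n ⊓ Ker c : Submodule ℝ (Fn ι)) = ⊥ := by
      rw [eq_bot_iff]
      intro f hf
      rw [Submodule.mem_bot]
      funext e
      refine hf.1 e ?_
      intro he
      have h1 := (Finset.mem_filter.1 he).2.2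
      obtain ⟨t, ht, -, htj⟩ := (Finset.mem_filter.1 h1).2
      exact hj ⟨t, ht, htj⟩
    have h2 : Module.finrank ℝ ↥(FF (Star b j) n ⊓ Ker c) = 0 := by
      rw [h0]
      exact finrank_bot ℝ (Fn ι)
    exact h2
  have e4 : ∀ j n, η j n = g j n := by
    intro j n
    by_cases hj : ∃ t ∈ Cells b, t j = 1
    · exact Pool.Agent.KST.finrank_ker
        (hsw _ _ _ _ (Pool.Agent.KST.sweep_star hS hb (haj j) (hlj j) hj)) n
    · rw [g_zero j hj n, star_empty j hj n]
  have gd : ∀ j, g j d = 0 := fun j => hh_dC hS hb (haj j) (hlj j)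
  have e3 : ∀ j, ((Cells b).filter (fun s => s j = 1)).card =
      ∑ n ∈ Finset.range d, 2 ^ n * g j n := by
    intro j
    rw [Pool.Agent.KST.card_facet hS hb (haj j) (hlj j),
      sum_pow_hhC (VF b j) (PP b (aj j)) (fun v hv => Pool.Agent.KST.Q1_card_le (vf j v hv)),
      Finset.sum_range_succ]
    have := gd j
    simp only [hg] at this
    rw [this, mul_zero, add_zero]
  have e7 : ∑ j ∈ J, g j 0 ≤ r := by
    rw [hr, Finset.card_filter]
    refine Finset.sum_le_sum fun j _ => ?_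
    by_cases hj : ∃ t ∈ Cells b, t j = 1
    · rw [if_pos hj]; exact Pool.Agent.KST.hh_zero_le hS hb (haj j) (hlj j)
    · rw [if_neg hj, g_zero j hj 0]
  -- the sum over J
  set H : ℕ → ℤ := fun n => ∑ j ∈ J, (η j n : ℤ) with hH
  have hHsym : ∀ n < d, H (d - 1 - n) = H n := by
    intro n hn
    simp only [hH]
    refine Finset.sum_congr rfl fun j _ => ?_
    have := hsym j n (by omega)
    simp only [hη]
    rw [this]
  have hHle : ∀ m, d ≤ 2 * m → m < d → H m ≤ (κ m : ℤ) := by
    intro m h1 h2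
    have h3 := hst ∅ (Finset.empty_subset _) (d - m) m (by omega) (by omega) (by omega) h1
      (by
        intro p
        have : (Finset.univ.filter (fun a : ι × SignType =>
            a.1 ∈ (∅ : Finset ι) ∧ a.2 ≠ 0 ∧ Meet b p a)) = ∅ := by
          rw [Finset.filter_eq_empty_iff]
          intro a _ h
          exact Finset.notMem_empty _ h.1
        rw [this, Finset.card_empty]
        exact Nat.zero_le _)
    rw [Finset.sum_empty, zero_add, Finset.sdiff_empty] at h3
    simp only [hH, hκ, hη]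
    exact_mod_cast h3
  refine ⟨fun n => (κ n : ℤ), H, ?_, ?_, hHsym, ?_, hHle, ?_, ?_, ?_, ?_, ?_⟩
  · have h1 := hh_zeroC hS hb ha
    have h2 := e1 0
    rw [Nat.choose_zero_right] at h2
    have : κ 0 = 0 := by omega
    simp only [this, Nat.cast_zero]
  · intro n hn
    have h1 := Pool.Agent.KST.hh_symm hS hb ha hn
    have h2 := e1 n
    have h3 := e1 (d - n)
    have h4 := Nat.choose_symm hn
    have : κ (d - n) = κ n := by omega
    simp only [this]
  · intro n
    exact Finset.sum_nonneg fun j _ => Int.natCast_nonneg _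
  · intro n Q h1 h2 col hcol
    have hm : ∀ q : Fin Q, ∑ j ∈ J.filter (fun j => col j = q),
        ((η j (d - n - 1) : ℤ) - (η j (d - n) : ℤ)) ≤ (κ (d - n) : ℤ) - H (d - n) := by
      intro q
      have h3 := hst (J.filter (fun j => col j = q)) (Finset.filter_subset _ _) n (d - n)
        (by omega) h1 (by omega) (by omega) (hcol q)
      have h4 : ∑ j ∈ J \ J.filter (fun j => col j = q), (η j (d - n) : ℤ) +
          ∑ j ∈ J.filter (fun j => col j = q), (η j (d - n) : ℤ) = H (d - n) :=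
        Finset.sum_sdiff (Finset.filter_subset _ _)
      have h5 : (∑ j ∈ J.filter (fun j => col j = q), (η j (d - n - 1) : ℤ)) +
          ∑ j ∈ J \ J.filter (fun j => col j = q), (η j (d - n) : ℤ) ≤ (κ (d - n) : ℤ) := by
        simp only [hκ, hη]
        exact_mod_cast h3
      rw [Finset.sum_sub_distrib]
      linarith
    have h6 : ∑ q : Fin Q, ∑ j ∈ J.filter (fun j => col j = q),
        ((η j (d - n - 1) : ℤ) - (η j (d - n) : ℤ)) =
        ∑ j ∈ J, ((η j (d - n - 1) : ℤ) - (η j (d - n) : ℤ)) :=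
      Finset.sum_fiberwise _ _ _
    have h7 := Finset.sum_le_sum (fun (q : Fin Q) (_ : q ∈ Finset.univ) => hm q)
    rw [h6, Finset.sum_const, Finset.card_univ, Fintype.card_fin, nsmul_eq_mul,
      Finset.sum_sub_distrib] at h7
    have h8 : H (d - n - 1) = H n := by
      have := hHsym n (by omega)
      rwa [show d - 1 - n = d - n - 1 from by omega] at this
    have h9 : H (d - n) = H (n - 1) := by
      have := hHsym (n - 1) (by omega)
      rwa [show d - 1 - (n - 1) = d - n from by omega] at this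
    have h10 : ∑ j ∈ J, (η j (d - n - 1) : ℤ) = H (d - n - 1) := rfl
    have h11 : ∑ j ∈ J, (η j (d - n) : ℤ) = H (d - n) := rfl
    rw [h10, h11, h8] at h7
    rw [h9] at h7 ⊢
    exact h7
  · rw [e2]
    push_cast
    rfl
  · simp only [hH]
    have h1 : ∀ j ∈ J, (((Cells b).filter (fun s => s j = 1)).card : ℤ) =
        ∑ n ∈ Finset.range d, 2 ^ n * (η j n : ℤ) := by
      intro j _
      rw [e3 j]
      push_cast
      exact Finset.sum_congr rfl fun n _ => by rw [e4 j n]
    rw [Finset.sum_congr rfl h1, Finset.sum_comm]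
    exact Finset.sum_congr rfl fun n _ => (Finset.mul_sum _ _ _).symm
  · simp only [hH]
    rw [Finset.sum_congr rfl (fun j _ => by rw [e4 j 0])]
    exact_mod_cast e7
  · have h1 := Pool.Agent.KST.facets_le hS
    have h2 := e1 1
    have h3 := e1b 1
    have h4 : κb 1 = κ 1 := by omega
    have h5 : (Finset.univ.filter (fun l => ∃ t ∈ Cells b, t l = 1)).card ≤ d + κb 1 := h1
    rw [h4] at h5
    show _ ≤ (d : ℤ) + (κ 1 : ℤ)
    exact_mod_cast h5

/-- the main inequality from the arithmetic -/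
theorem mainC_of {b : ι → E d} {J : Finset ι} {k H : ℕ → ℤ}
    (hcells : ((Cells b).card : ℤ) = 3 ^ d + 2 * ∑ n ∈ Finset.range (d + 1), 2 ^ n * k n)
    (hfac : ∑ j ∈ J, (((Cells b).filter (fun s => s j = 1)).card : ℤ) =
        ∑ n ∈ Finset.range d, 2 ^ n * H n)
    (hH0 : H 0 ≤ ((J.filter (fun j => ∃ t ∈ Cells b, t j = 1)).card : ℤ))
    (hari : ∑ n ∈ Finset.range d, 2 ^ n * H n - H 0 ≤ ∑ n ∈ Finset.range (d + 1), 2 ^ n * k n) :
    3 ^ d + 2 * ∑ j ∈ J, ((Cells b).filter (fun s => s j = 1)).card ≤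
      (Cells b).card + 2 * (J.filter (fun j => ∃ t ∈ Cells b, t j = 1)).card := by
  zify
  rw [hcells, hfac]
  linarith

end

end Pool.Agent.CTC
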