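import Pool.Agent.CTC.Defs
import Pool.Agent.WLP.NB

/-! Row NC: polytopes that are simple away from their vertices satisfy the cap hypotheses -/

set_option autoImplicit false

open scoped BigOperators RealInnerProductSpace

namespace Pool.Agent.CTC

noncomputable section

open Classical

open Pool.Agent.KST (E Fn supp Le IsCell Cells Verts Simple Pol pt PP Gen Star VF Low Sweep sgn EE X
  D FF Par Ker S hh LowF Inside n1NS)

variable {d : ℕ}

private theorem NC_sq {s : SignType} (hs : s ≠ 0) : ((s : SignType) : ℝ) * ((s : SignType) : ℝ) = 1 := by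
  revert hs
  cases s <;> simp

private theorem NC_mem {α : Type} [Fintype α] {a : α → E d} {v : E d} (hv : v ∈ n1NS a)
    {s : SignType} (hs : s ≠ 0) : ((s : SignType) : ℝ) • v ∈ n1NS a := by
  have hcase : ∀ s : SignType, s ≠ 0 → s = 1 ∨ s = -1 := by decide
  rcases hcase s hs with rfl | rfl
  · simpa using hv
  · simpa using Pool.Agent.KST.n1NS_neg hv

private theorem NC_mid (a u z : E d) :
    ⟪a, (1 / 2 : ℝ) • u + (1 / 2 : ℝ) • z⟫ = (1 / 2) * ⟪a, u⟫ + (1 / 2) * ⟪a, z⟫ := by
  rw [inner_add_right, real_inner_smul_right, real_inner_smul_right]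

theorem nat_hypC {α : Type} [Fintype α] (a : α → E d) (hb : Bornology.IsBounded (Pol a))
    (hns : ∀ x ∈ Pol a, ¬ LinearIndependent ℝ (fun i : {i : α // |⟪a i, x⟫| = 1} => a i.1) →
      x ∈ Set.extremePoints ℝ (Pol a)) :
    ∃ (r : ℕ) (g : Fin r → E d), HypC a g ∧
      2 * r = {x | x ∈ Pol a ∧ ¬ LinearIndependent ℝ (fun i : {i : α // |⟪a i, x⟫| = 1} => a i.1)}.ncard := by
  have hmono : ∀ v ∈ n1NS a, ∀ x ∈ Pol a, (∀ i, |⟪a i, v⟫| = 1 → ⟪a i, x⟫ = ⟪a i, v⟫) →
      x = v := by
    intro v hv x hx h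
    have h1 := WLP.nb_ext a (hns v hv.1 hv.2) (x - v) (fun i hi => by
      rw [inner_sub_right, h i hi, sub_self])
    exact sub_eq_zero.1 h1
  obtain ⟨r, g, vv, hsimple, hdisj, hcap, hrep, hgv, hvN⟩ := WLP.nb_core a hb hmono
  have hself : ∀ (j : Fin r) (s : SignType), s ≠ 0 →
      1 ≤ ((s : SignType) : ℝ) * ⟪g j, ((s : SignType) : ℝ) • vv j⟫ := by
    intro j s hs
    rw [real_inner_smul_right, ← mul_assoc, NC_sq hs, one_mul]
    exact (hgv j).le
  have hinj : ∀ (j k : Fin r) (s t : SignType), s ≠ 0 → t ≠ 0 →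
      ((s : SignType) : ℝ) • vv j = ((t : SignType) : ℝ) • vv k → j = k ∧ s = t := by
    intro j k s t hs ht h
    refine hdisj (((s : SignType) : ℝ) • vv j) (NC_mem (hvN j) hs).1 j k s t (hself j s hs) ?_
    rw [h]
    exact hself k t ht
  refine ⟨r, g, ⟨⟨hsimple, hdisj, ?_⟩, ?_⟩, ?_⟩
  · intro j x hx y hy hgx hgy i hix hiy
    obtain ⟨-, -, h1⟩ := hcap j 1 x hx (by rw [SignType.coe_one, one_mul]; exact hgx)
    obtain ⟨-, -, h2⟩ := hcap j 1 y hy (by rw [SignType.coe_one, one_mul]; exact hgy)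
    rw [← h1 i hix, ← h2 i hiy]
  · intro q q' hq hq' hqq
    set v : E d := ((q.2 : SignType) : ℝ) • vv q.1 with hv
    set w : E d := ((q'.2 : SignType) : ℝ) • vv q'.1 with hw
    have hvw : v ≠ w := by
      intro h
      obtain ⟨h1, h2⟩ := hinj q.1 q'.1 q.2 q'.2 hq hq' h
      exact hqq (Prod.ext h1 h2)
    have hvP : v ∈ Pol a := (NC_mem (hvN q.1) hq).1
    have hwP : w ∈ Pol a := (NC_mem (hvN q'.1) hq').1
    set m : E d := (1 / 2 : ℝ) • v + (1 / 2 : ℝ) • w with hm
    have hmi : ∀ i, ⟪a i, m⟫ = (1 / 2) * ⟪a i, v⟫ + (1 / 2) * ⟪a i, w⟫ := by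
      intro i
      exact NC_mid (a i) v w
    have hmP : m ∈ Pol a := by
      intro i
      have h1 := abs_le.1 (hvP i)
      have h2 := abs_le.1 (hwP i)
      rw [hmi, abs_le]
      constructor <;> linarith [h1.1, h1.2, h2.1, h2.2]
    have hli : LinearIndependent ℝ (fun i : {i : α // |⟪a i, m⟫| = 1} => a i.1) := by
      by_contra h
      have h1 := hns m hmP h
      rw [mem_extremePoints] at h1
      have h2 := h1.2 v hvP w hwP ⟨1 / 2, 1 / 2, by norm_num, by norm_num, by norm_num, rfl⟩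
      exact hvw (h2.1.trans h2.2.symm)
    have hcard := hli.fintype_card_le_finrank
    rw [finrank_euclideanSpace_fin, Fintype.card_subtype] at hcard
    refine le_trans ?_ hcard
    have hval : ∀ (p : α × SignType) (q : Fin r × SignType), MeetG a g p q →
        ⟪a p.1, ((q.2 : SignType) : ℝ) • vv q.1⟫ = ((p.2 : SignType) : ℝ) := by
      rintro p q ⟨hp0, x, hx, hpx, hqx⟩
      obtain ⟨-, -, h1⟩ := hcap q.1 q.2 x hx hqx
      rw [h1 p.1 (by rw [hpx, Pool.Agent.KST.G0_abs_cast hp0]), hpx]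
    refine Finset.card_le_card_of_injOn (fun p => p.1) ?_ ?_
    · intro p hp
      have hp' := (Finset.mem_filter.1 hp).2
      refine Finset.mem_coe.2 (Finset.mem_filter.2 ⟨Finset.mem_univ _, ?_⟩)
      have h1 : ⟪a p.1, v⟫ = ((p.2 : SignType) : ℝ) := hval p q hp'.1
      have h2 : ⟪a p.1, w⟫ = ((p.2 : SignType) : ℝ) := hval p q' hp'.2
      show |⟪a p.1, m⟫| = 1
      have h3 : (1 / 2 : ℝ) * ((p.2 : SignType) : ℝ) + (1 / 2) * ((p.2 : SignType) : ℝ) =
          ((p.2 : SignType) : ℝ) := by ring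
      rw [hmi, h1, h2, h3]
      exact Pool.Agent.KST.G0_abs_cast hp'.1.1
    · intro p hp p' hp' hpp
      have h1 := hval p q (Finset.mem_filter.1 hp).2.1
      have h2 := hval p' q (Finset.mem_filter.1 hp').2.1
      change p.1 = p'.1 at hpp
      rw [hpp, h2] at h1
      exact Prod.ext hpp (Pool.Agent.KST.n1_coe h1).symm
  · set W : Fin r × Bool → E d := fun p => if p.2 then vv p.1 else -vv p.1 with hW
    have hrange : {x | x ∈ Pol a ∧
        ¬ LinearIndependent ℝ (fun i : {i : α // |⟪a i, x⟫| = 1} => a i.1)} = W '' Set.univ := by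
      ext x
      rw [Set.image_univ]
      constructor
      · intro hx
        obtain ⟨j, hj | hj⟩ := hrep x hx
        · exact ⟨(j, true), by simp [hW, hj]⟩
        · exact ⟨(j, false), by simp [hW, hj]⟩
      · rintro ⟨⟨j, b⟩, rfl⟩
        rcases b with _ | _
        · exact Pool.Agent.KST.n1NS_neg (hvN j)
        · exact hvN j
    have hWinj : Function.Injective W := by
      rintro ⟨j, b⟩ ⟨k, c⟩ h
      have key : ∀ (j : Fin r) (b : Bool), W (j, b) =
          (((if b then (1 : SignType) else -1) : SignType) : ℝ) • vv j := by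
        intro j b
        rcases b with _ | _ <;> simp [hW]
      rw [key, key] at h
      obtain ⟨h1, h2⟩ := hinj j k _ _ (by rcases b with _ | _ <;> decide)
        (by rcases c with _ | _ <;> decide) h
      rw [h1]
      rcases b with _ | _ <;> rcases c with _ | _
      · rfl
      · exact absurd h2 (by decide)
      · exact absurd h2 (by decide)
      · rfl
    rw [hrange, Set.ncard_image_of_injective _ hWinj, Set.ncard_univ, Nat.card_eq_fintype_card,
      Fintype.card_prod, Fintype.card_fin, Fintype.card_bool, mul_comm]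

end

end Pool.Agent.CTC
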